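import Mathlib
import Pool.Agent.H76.W.SlitZ

set_option autoImplicit false
open Finset

/-! # The window with a random tile in the ceiling

`setC D xs b` : the window `D` with the colour `b` of the ceiling in the column `xs`. `XTE` : the tied
environment `XTH` in which the label `exq D xs` of the tile `(xs, w)` of the ceiling is random, too.
`incO_XTE_false`, `incO_XTE_true` : its increments are those of the windows `setC D xs false`,
`setC D xs true`. `incW_XTE`, `Gz_XTE` : the weighted increments, the coupon. `sx_XTE`, `slitEnv_XTE` : the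
interfaces of chapter B for a slit with `e = 1`. -/

namespace Pool.Agent.H57.W

open Pool.Agent.H75.Perc hiding AR VV
open Pool.Agent.H75.TwoArm hiding EF
open Pool.Agent.Q1 Pool.Agent.H33.Q1
open Pool.Agent.H54.W
open Pool.Agent.H54.W.HWin hiding wA RS
open Pool.Agent.H13.Q1 (iG)
open Pool.Agent.H42.Sp (Sd Ix kt rt kt_odd rt_even OTp)
open Pool.Agent.H74.R45 (exists_lt)
open Pool.Agent.H69.M6b (lbt)
open Pool.Agent.H76.W
open Pool.Agent.H80.Sweep
open Pool.Agent.H85.W (upd upd_self upd_ne Gz)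
open Pool.Agent.H30.W (Slit SlitEnv ELz EUz RZ)

variable {D : HWin} {τ : ℤ → ℤ} {x y xs : ℤ} {b : Bool} {P : Finset Ix}

/-- the window with the colour `b` of the ceiling in the column `xs` -/
def setC (D : HWin) (xs : ℤ) (b : Bool) : HWin := { D with cc := Function.update D.cc xs b }

/-- the same outside -/
def setO (O : HOut D) (xs : ℤ) (b : Bool) : HOut (setC D xs b) where
  Wo := O.Wo
  c0 := O.c0
  k0 := O.k0
  g := O.g
  far := O.far
  hk := O.hk
  hroot := O.hroot
  hg := O.hg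
  hlow := O.hlow

/-- the same position of the line -/
lemma setH (H : HPos D τ) (xs : ℤ) (b : Bool) : HPos (setC D xs b) τ := ⟨H.lo, H.hi, H.dn, H.up⟩

lemma EH_setC : (setC D xs b).EH τ = D.EH τ := rfl

lemma GA_setC : (setC D xs b).GA = D.GA := rfl

lemma CPH_setC {k : Ix} : CPH (setC D xs b) τ k ↔ CPH D τ k := by
  obtain ⟨s, x, y⟩ := k
  cases s <;> exact Iff.rfl

lemma setP (hP : ∀ k ∈ P, CPH D τ k) (xs : ℤ) (b : Bool) : ∀ k ∈ P, CPH (setC D xs b) τ k :=
  fun k hk => CPH_setC.2 (hP k hk)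

lemma CPHs_setC : CPHs (setC D xs b) τ = CPHs D τ := by
  classical
  unfold CPHs
  ext k
  rw [mem_filter, mem_filter]
  exact and_congr Iff.rfl CPH_setC

lemma ETH_setC : ETH (setC D xs b) τ P = ETH D τ P := rfl

/-- the label of the tile `(xs, w)` of the ceiling -/
def exq (D : HWin) (xs : ℤ) : ℤ × ℤ := lt (xs, D.w)

lemma exq_odd (D : HWin) (xs : ℤ) : ((exq D xs).1 + (exq D xs).2) % 2 = 1 := lt_odd _

lemma exq_GA (h1 : D.p ≤ xs) (h2 : xs < D.q) : exq D xs ∈ D.GA := by
  unfold exq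
  rw [mem_GA]
  have h3 := D.hlo xs h1 h2
  have h4 := D.aw xs h1 h2
  unfold InZ
  omega

lemma exq_not_EH (H : HPos D τ) : exq D xs ∉ D.EH τ := by
  unfold exq
  rw [HWin.mem_EH H]
  intro h
  have := h.z H
  omega

lemma exq_not_ETH (H : HPos D τ) : exq D xs ∉ ETH D τ P := fun h => exq_not_EH H (ETH_sub h)

/-- open labels of the two windows -/
lemma mem_WR_setC (H : HPos D τ) (h1 : D.p ≤ xs) (h2 : xs < D.q) {e : ℤ × ℤ} :
    e ∈ (setC D xs b).WR τ ↔ (e = exq D xs ∧ b = true) ∨ (e ≠ exq D xs ∧ e ∈ D.WR τ) := by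
  by_cases ho : (e.1 + e.2) % 2 = 1
  swap
  · constructor
    · intro h
      exact absurd (odd_WR h) ho
    · rintro (h | h)
      · exact absurd (h.1 ▸ exq_odd D xs) ho
      · exact absurd (odd_WR h.2) ho
  obtain ⟨x, y, rfl⟩ := exists_lt ho
  have hne : lt (x, y) = exq D xs ↔ (x = xs ∧ y = D.w) := by
    unfold exq
    constructor
    · intro h
      have := lt_inj h
      exact ⟨congrArg Prod.fst this, congrArg Prod.snd this⟩
    · rintro ⟨rfl, rfl⟩
      rfl
  rw [HWin.mem_WR, HWin.mem_WR]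
  by_cases hxy : x = xs ∧ y = D.w
  · obtain ⟨rfl, rfl⟩ := hxy
    have hE : ¬ D.InE τ x D.w := fun h => by
      have := h.z H
      omega
    have hA : ¬ D.TA τ x D.w := by
      rintro (⟨g1, g2, g3, g4⟩ | ⟨g1, g2⟩)
      · have := H.hi (x - 1) (by omega) (by omega)
        omega
      · omega
    have hB : ¬ D.TB τ x D.w := by
      rintro (⟨g1, g2, g3, g4⟩ | ⟨g1, g2⟩)
      · have := H.hi (x + 1) (by omega) (by omega)
        omega
      · omega
    have hf : (setC D x b).fill x D.w = b := by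
      have h4 := D.aw x h1 h2
      show (if x < D.p then D.cL else if D.q ≤ x then D.cR else if D.w < D.a x then D.c x else
        Function.update D.cc x b x) = b
      rw [if_neg (by omega), if_neg (by omega), if_neg (by omega), Function.update_self]
    have hz : D.InZ x D.w := mem_GA.1 (exq_GA h1 h2)
    have key : (setC D x b).InO τ x D.w ↔ b = true := by
      constructor
      · rintro ⟨-, -, h5 | h5 | h5⟩
        · exact absurd h5.1 hA
        · exact absurd h5.1 hB
        · rw [← hf]; exact h5.2.2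
      · intro h5
        exact ⟨hz, hE, Or.inr (Or.inr ⟨hA, hB, by rw [hf]; exact h5⟩)⟩
    rw [key]
    have e1 : lt (x, D.w) = exq D x := rfl
    constructor
    · exact fun h5 => Or.inl ⟨e1, h5⟩
    · rintro (h5 | h5)
      · exact h5.2
      · exact absurd e1 h5.1
  · have e1 : lt (x, y) ≠ exq D xs := fun h => hxy (hne.1 h)
    have key : (setC D xs b).InO τ x y ↔ D.InO τ x y := by
      have hf : D.InZ x y → ¬ D.InE τ x y → ((setC D xs b).fill x y = true ↔ D.fill x y = true) := by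
        intro hz hE
        show ((if x < D.p then D.cL else if D.q ≤ x then D.cR else if y < D.a x then D.c x else
          Function.update D.cc xs b x) = true ↔ (if x < D.p then D.cL else if D.q ≤ x then D.cR else
            if y < D.a x then D.c x else D.cc x) = true)
        by_cases c1 : x < D.p
        · rw [if_pos c1, if_pos c1]
        by_cases c2 : D.q ≤ x
        · rw [if_neg c1, if_pos c2, if_neg c1, if_pos c2]
        by_cases c3 : y < D.a x
        · rw [if_neg c1, if_neg c2, if_pos c3, if_neg c1, if_neg c2, if_pos c3]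
        rw [if_neg c1, if_neg c2, if_neg c3, if_neg c1, if_neg c2, if_neg c3]
        have hx : x ≠ xs := by
          rintro rfl
          apply hE
          left
          have hy : y ≠ D.w := fun h => hxy ⟨rfl, h⟩
          have := hz.2.2.2
          exact ⟨by omega, by omega, by omega, by omega⟩
        rw [Function.update_of_ne hx]
      constructor
      · rintro ⟨hz, hE, h5⟩
        refine ⟨hz, hE, ?_⟩
        rcases h5 with h5 | h5 | h5
        · exact Or.inl h5
        · exact Or.inr (Or.inl h5)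
        · exact Or.inr (Or.inr ⟨h5.1, h5.2.1, (hf hz hE).1 h5.2.2⟩)
      · rintro ⟨hz, hE, h5⟩
        refine ⟨hz, hE, ?_⟩
        rcases h5 with h5 | h5 | h5
        · exact Or.inl h5
        · exact Or.inr (Or.inl h5)
        · exact Or.inr (Or.inr ⟨h5.1, h5.2.1, (hf hz hE).2 h5.2.2⟩)
    rw [key]
    exact ⟨fun h => Or.inr ⟨e1, h⟩, fun h => h.elim (fun h3 => absurd h3.1 e1) fun h3 => h3.2⟩

/-- open labels of the tied windows -/
lemma mem_WTH_setC (O : HOut D) (H : HPos D τ) (hP : ∀ k ∈ P, CPH D τ k) (h1 : D.p ≤ xs)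
    (h2 : xs < D.q) {e : ℤ × ℤ} :
    e ∈ WTH (setC D xs b) τ P O.Wo ↔
      (e = exq D xs ∧ b = true) ∨ (e ≠ exq D xs ∧ e ∈ WTH D τ P O.Wo) := by
  have k1 : exq D xs ∉ OTp P := fun h => exq_not_EH H (OTp_subH H O hP h)
  have k2 : exq D xs ∉ O.Wo := fun h => O.far _ _ h (mem_GA.1 (exq_GA h1 h2))
  unfold WTH WH
  rw [mem_union, mem_union, mem_union, mem_union, mem_WR_setC H h1 h2]
  by_cases he : e = exq D xs
  · subst he
    constructor
    · rintro ((h | h) | h)
      · rcases h with h | h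
        · exact Or.inl h
        · exact absurd rfl h.1
      · exact absurd h k2
      · exact absurd h k1
    · rintro (h | h)
      · exact Or.inl (Or.inl (Or.inl h))
      · exact absurd rfl h.1
  · constructor
    · rintro ((h | h) | h)
      · rcases h with h | h
        · exact Or.inl h
        · exact Or.inr ⟨he, Or.inl (Or.inl h.2)⟩
      · exact Or.inr ⟨he, Or.inl (Or.inr h)⟩
      · exact Or.inr ⟨he, Or.inr h⟩
    · rintro (h | ⟨-, (h | h) | h⟩)
      · exact absurd h.1 he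
      · exact Or.inl (Or.inl (Or.inr ⟨he, h⟩))
      · exact Or.inl (Or.inr h)
      · exact Or.inr h

lemma WTH_false (O : HOut D) (H : HPos D τ) (hP : ∀ k ∈ P, CPH D τ k) (h1 : D.p ≤ xs)
    (h2 : xs < D.q) : WTH (setC D xs false) τ P O.Wo = (WTH D τ P O.Wo).erase (exq D xs) := by
  ext e
  rw [mem_WTH_setC O H hP h1 h2, mem_erase]
  simp

lemma WTH_true (O : HOut D) (H : HPos D τ) (hP : ∀ k ∈ P, CPH D τ k) (h1 : D.p ≤ xs)
    (h2 : xs < D.q) :
    WTH (setC D xs true) τ P O.Wo = insert (exq D xs) ((WTH D τ P O.Wo).erase (exq D xs)) := by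
  ext e
  rw [mem_WTH_setC O H hP h1 h2, mem_insert, mem_erase]
  simp

/-! ### The environment -/

/-- random labels -/
noncomputable def ETE (D : HWin) (τ : ℤ → ℤ) (P : Finset Ix) (xs : ℤ) : Finset (ℤ × ℤ) :=
  insert (exq D xs) (ETH D τ P)

/-- open labels -/
noncomputable def WTE (D : HWin) (τ : ℤ → ℤ) (P : Finset Ix) (Wo : Finset (ℤ × ℤ)) (xs : ℤ) :
    Finset (ℤ × ℤ) := (WTH D τ P Wo).erase (exq D xs)

lemma disj_ETE (O : HOut D) (P : Finset Ix) (xs : ℤ) :
    Disjoint (ETE D τ P xs) (WTE D τ P O.Wo xs) := by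
  unfold ETE WTE
  rw [disjoint_left]
  intro e he he'
  rw [mem_erase] at he'
  rcases mem_insert.1 he with h | h
  · exact he'.1 h
  · exact disjoint_left.1 (disj_ETWTH O P) h he'.2

lemma ETE_GA (h1 : D.p ≤ xs) (h2 : xs < D.q) : ETE D τ P xs ⊆ D.GA := by
  unfold ETE
  refine insert_subset (exq_GA h1 h2) (ETH_sub.trans EH_sub)

lemma EWE_sub (H : HPos D τ) (O : HOut D) (hP : ∀ k ∈ P, CPH D τ k) (h1 : D.p ≤ xs)
    (h2 : xs < D.q) : ETE D τ P xs ∪ WTE D τ P O.Wo xs ⊆ D.GA ∪ O.Wo := by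
  refine union_subset ((ETE_GA h1 h2).trans subset_union_left) ?_
  exact (erase_subset _ _).trans (subset_union_right.trans (ETWTH_sub H O hP))

/-- **The tied environment with a random tile in the ceiling.** -/
noncomputable def XTE (O : HOut D) (H : HPos D τ) (P : Finset Ix) (hP : ∀ k ∈ P, CPH D τ k)
    (xs : ℤ) (h1 : D.p ≤ xs) (h2 : xs < D.q) : Env :=
  Env.plane (ETE D τ P xs) (WTE D τ P O.Wo xs) O.c0 O.k0 O.g
    (fun _ he => odd_GA (ETE_GA h1 h2 he)) (disj_ETE O P xs) O.hk
    (fun h => O.hroot (ETE_GA h1 h2 h))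
    (O.hg.anti (EWE_sub H O hP h1 h2)) (fun v hv => O.hlow v (hv.mono (EWE_sub H O hP h1 h2)))

section

variable {O : HOut D} {H : HPos D τ} {hP : ∀ k ∈ P, CPH D τ k} {h1 : D.p ≤ xs} {h2 : xs < D.q}
  {q : ℤ × ℤ → ℂ} {ct e0 : ℤ × ℤ} {ω : Finset (ℤ × ℤ)}

@[simp] lemma XTE_E : (XTE O H P hP xs h1 h2).E = ETE D τ P xs := rfl
@[simp] lemma XTE_c0 : (XTE O H P hP xs h1 h2).c0 = O.c0 := rfl
@[simp] lemma XTE_k0 : (XTE O H P hP xs h1 h2).k0 = O.k0 := rfl
@[simp] lemma XTE_T : (XTE O H P hP xs h1 h2).T = 4 := rfl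

lemma planeLike_XTE : (XTE O H P hP xs h1 h2).PlaneLike (WTE D τ P O.Wo xs) :=
  Env.planeLike_plane

/-- the increments of a plane environment depend only on the open labels -/
lemma plane_incO {E W : Finset (ℤ × ℤ)} {c0 : ℤ × ℤ} {k0 : ℤ} {g : ℤ × ℤ}
    {hE : ∀ e ∈ E, (e.1 + e.2) % 2 = 1} {hd : Disjoint E W} {hk : k0 % 4 = ty c0}
    {hroot : plab c0 ∉ E} {hg : DCo (E ∪ W) (fi c0) g}
    {hlow : ∀ v, Co (E ∪ W) (vx c0) v → g.2 < v.2} {ω : Finset (ℤ × ℤ)} (hω : ω ⊆ E) (c : ℤ × ℤ) :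
    (Env.plane E W c0 k0 g hE hd hk hroot hg hlow).incO ω c = iG c0 k0 c (ω ∪ W) := by
  unfold Env.incO iG Pool.Agent.H80.Sweep.incG
  rw [plane_len hω]
  refine Finset.sum_congr rfl fun i _ => ?_
  rw [plane_z hω i, plane_K hω i]

/-- the tile in the ceiling is closed -/
theorem incO_XTE_false (hω : ω ⊆ ETH D τ P) (ct : ℤ × ℤ) :
    (XTE O H P hP xs h1 h2).incO ω ct =
      (XTH (setO O xs false) (setH H xs false) P (setP hP xs false)).incO ω ct := by
  have h3 : ω ⊆ ETE D τ P xs := hω.trans (subset_insert _ _)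
  unfold XTE XTH
  have h4 : ω ⊆ ETH (setC D xs false) τ P := hω
  rw [plane_incO h3, plane_incO h4]
  have e1 : WTH (setC D xs false) τ P (setO O xs false).Wo = WTE D τ P O.Wo xs :=
    WTH_false O H hP h1 h2
  rw [e1]
  rfl

/-- the tile in the ceiling is open -/
theorem incO_XTE_true (hω : ω ⊆ ETH D τ P) (ct : ℤ × ℤ) :
    (XTE O H P hP xs h1 h2).incO (insert (exq D xs) ω) ct =
      (XTH (setO O xs true) (setH H xs true) P (setP hP xs true)).incO ω ct := by
  have h3 : insert (exq D xs) ω ⊆ ETE D τ P xs := insert_subset_insert _ hω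
  unfold XTE XTH
  have h4 : ω ⊆ ETH (setC D xs true) τ P := hω
  rw [plane_incO h3, plane_incO h4]
  have e1 : WTH (setC D xs true) τ P (setO O xs true).Wo =
      insert (exq D xs) (WTE D τ P O.Wo xs) := WTH_true O H hP h1 h2
  rw [e1, insert_union, union_insert]
  rfl

/-- **The weighted increments.** -/
theorem incW_XTE (q : ℤ × ℤ → ℂ) (ct : ℤ × ℤ) :
    (XTE O H P hP xs h1 h2).incW q ct =
      (1 - q (exq D xs)) *
        (XTH (setO O xs false) (setH H xs false) P (setP hP xs false)).incW q ct +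
      q (exq D xs) * (XTH (setO O xs true) (setH H xs true) P (setP hP xs true)).incW q ct := by
  have a1 : Ec q (ETH D τ P) (fun ω => (XTE O H P hP xs h1 h2).incO ω ct) =
      (XTH (setO O xs false) (setH H xs false) P (setP hP xs false)).incW q ct :=
    Ec_congr fun ω hω => incO_XTE_false hω ct
  have a2 : Ec q (ETH D τ P) (fun ω => (XTE O H P hP xs h1 h2).incO (insert (exq D xs) ω) ct) =
      (XTH (setO O xs true) (setH H xs true) P (setP hP xs true)).incW q ct :=
    Ec_congr fun ω hω => incO_XTE_true hω ct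
  rw [← a1, ← a2]
  exact Ec_insert q (exq_not_ETH H) _

/-- **The coupon.** -/
theorem Gz_XTE (he : e0 ≠ exq D xs) (q : ℤ × ℤ → ℂ) (ct : ℤ × ℤ) :
    Gz (XTE O H P hP xs h1 h2) q e0 ct =
      (1 - q (exq D xs)) *
        Gz (XTH (setO O xs false) (setH H xs false) P (setP hP xs false)) q e0 ct +
      q (exq D xs) * Gz (XTH (setO O xs true) (setH H xs true) P (setP hP xs true)) q e0 ct := by
  unfold Gz
  rw [incW_XTE, incW_XTE, upd_ne _ _ (Ne.symm he), upd_ne _ _ (Ne.symm he)]
  ring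

end

/-! ### The interfaces of chapter B -/

section slit

variable {S : Slit D} {em : ℤ × ℤ} {B : Finset (ℤ × ℤ)}

lemma xs_ge (S : Slit D) : D.p ≤ S.xs := by
  have := S.p_le
  have := S.s1
  omega

lemma xs_lt (S : Slit D) : S.xs < D.q := by
  have := S.le_q
  have := S.s2
  omega

/-- the tied environment of a slit with `e = 1` -/
noncomputable abbrev XTS (S : Slit D) (O : HOut D) (P : Finset Ix) (hP : ∀ k ∈ P, CPH D S.τ k) : Env :=
  XTE O S.pos P hP S.xs (xs_ge S) (xs_lt S)

/-- **76's interface** for `e = 1`. -/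
theorem sx_XTE (hS : S.e = 1) (O : HOut D) (hP : ∀ k ∈ P, CPH D S.τ k) :
    SX S P O.Wo (XTS S O P hP) (WTE D S.τ P O.Wo S.xs) where
  pl := Env.planeLike_plane
  disj := disj_ETE O P S.xs
  E := fun e => by
    rw [XTE_E]
    unfold ETE
    rw [mem_insert]
    constructor
    · rintro (h | h)
      · exact Or.inr ⟨hS, h⟩
      · exact Or.inl h
    · rintro (h | ⟨-, h⟩)
      · exact Or.inr h
      · exact Or.inl h
  W := fun e he => by
    unfold WTE
    rw [mem_erase]
    exact ⟨fun h => h.2, fun h => ⟨he, h⟩⟩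

/-- **30's interface** for `e = 1`. -/
theorem slitEnv_XTE (hS : S.e = 1) (O : HOut D) (hP : ∀ k ∈ P, CPH D S.τ k)
    (he : em ∈ ETE D S.τ P S.xs) (heR : em ∉ RZ S.N S.M S.x1 S.y0 S.c0)
    (heB : em ∉ ELz S B ∪ EUz S B) :
    SlitEnv S (XTS S O P hP) (WTE D S.τ P O.Wo S.xs) B em := by
  have hin : ∀ x y, S.x1 ≤ x → x < S.x2 → S.y0 - S.r ≤ y → y < D.w → lbt x y ∈ ETE D S.τ P S.xs := by
    intro x y h1 h2 h3 h4
    unfold ETE ETH
    rw [mem_insert, mem_sdiff]
    refine Or.inr ⟨(HWin.mem_EH S.pos).2 (S.inE_low h1 h2 h3 h4), ?_⟩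
    rw [mem_image]
    rintro ⟨k, hk, h5⟩
    exact S.no_cap (hP k hk) h1 h2 h3 h4 h5.symm
  have up := S.up
  have r2 := S.r2
  refine ⟨Pool.Agent.H30.Mid.PO.of_plane, ?_, ?_, ?_, fun _ => mem_insert_self _ _, ?_, ?_, he, heR, heB⟩
  · intro x y h1 h2 h3 h4
    exact hin x y h1 h2 h3 (by omega)
  · intro x y h1 h2 h3 h4
    exact hin x y h1 h2 (by omega) h4
  · intro x h1 h2
    exact hin x _ h1 h2 (by omega) (by omega)
  · intro x y c h hx
    have h1 := h.not_mem S.pos
    have hne : lbt x y ≠ exq D S.xs := by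
      intro h2
      have h3 : (x, y) = (S.xs, D.w) := lt_inj h2
      exact hx ⟨hS, congrArg Prod.fst h3, congrArg Prod.snd h3⟩
    refine ⟨fun h2 => ?_, ?_⟩
    · rcases mem_insert.1 h2 with h3 | h3
      · exact hne h3
      · exact h1 (ETH_sub h3)
    · unfold WTE WTH
      rw [mem_erase, mem_union, ← h.mem O]
      refine ⟨fun h2 => ?_, fun h2 => ⟨hne, Or.inl h2⟩⟩
      rcases h2.2 with h2 | h2
      · exact h2
      · exact absurd (OTp_subH S.pos O hP h2) h1
  · intro x y h hz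
    refine O.hroot ?_
    rw [← mem_GA (D := D)] at hz
    have h2 : plab O.c0 = lbt x y := h
    rw [h2]
    exact hz

end slit

end Pool.Agent.H57.W
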