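import Mathlib
import Pool.Agent.H32.W.Ab8
import Pool.Agent.H46.W.TayII

set_option autoImplicit false
open Finset Metric Filter Topology

/-! # The two forms of the sum over the colour of the wall tile agree

`rcol_setC` : the rotated window with the colour `b` of the wall tile of the row `r` is the rotated window with the
colour `b` of the ceiling in the column `-r - 1`. `f2_fM` : helper32's `f2` is helper46's `fM`. -/

namespace Pool.Agent.H57.W

open Pool.Agent.H75.Perc hiding AR VV
open Pool.Agent.H75.TwoArm hiding EF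
open Pool.Agent.Q1
open Pool.Agent.H54.W
open Pool.Agent.H32.W.Win
open Pool.Agent.H93.W (rcol)
open Pool.Agent.H46.W (fM qe)

/-- **The two windows agree.** -/
theorem rcol_setC (D : Win) (r : ℤ) (b : Bool) : (rcol D r b).toH = setC D.toH (-r - 1) b := by
  have h : (fun x : ℤ => (rcol D r b).cr (-x - 1)) =
      Function.update (fun x => D.cr (-x - 1)) (-r - 1) b := by
    funext x
    by_cases hx : x = -r - 1
    · subst hx
      rw [Function.update_self]
      change (if -(-r - 1) - 1 = r then b else _) = b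
      rw [if_pos (by omega)]
    · rw [Function.update_of_ne hx]
      change (if -x - 1 = r then b else D.cr (-x - 1)) = _
      rw [if_neg (by omega)]
  change ({ D.toH with cc := fun x : ℤ => (rcol D r b).cr (-x - 1) } : HWin) = _
  rw [h]
  rfl

variable {D : Win}

lemma fV_congr {D1 D2 : HWin} (h : D1 = D2) (O1 : HOut D1) (O2 : HOut D2) (h1 : O1.Wo = O2.Wo)
    (h2 : O1.c0 = O2.c0) (h3 : O1.k0 = O2.k0) (h4 : O1.g = O2.g) (ct κ x s t) :
    fV D1 (FI O1 ct) κ x s t = fV D2 (FI O2 ct) κ x s t := by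
  subst h
  obtain ⟨W, c0, k0, g, a1, a2, a3, a4, a5⟩ := O1
  obtain ⟨W', c0', k0', g', b1, b2, b3, b4, b5⟩ := O2
  simp only at h1 h2 h3 h4
  subst h1 h2 h3 h4
  rfl

/-- the difference of the two worlds for one colour -/
theorem fV_orh (O' : HOut D.toH) (ct' : ℤ × ℤ) (r : ℤ) (b : Bool) (x s : ℤ) (t : ℂ) :
    fV (rcol D r b).toH (FI (orh O' r b) ct') w6 x s t =
      fV (setC D.toH (-r - 1) b) (FI (setO O' (-r - 1) b) ct') w6 x s t :=
  fV_congr (rcol_setC D r b) _ _ rfl rfl rfl rfl _ _ _ _ _

/-- **The two sums agree.** -/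
theorem f2_fM (O' : HOut D.toH) (ct' : ℤ × ℤ) (r s : ℤ) (t : ℂ) :
    f2 D O' ct' r s t = fM O' ct' (-r - 1) s t := by
  unfold f2 fM
  rw [fV_orh, fV_orh, qw_wal]
  rfl

end Pool.Agent.H57.W
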