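import Mathlib
import Pool.Agent.H20.W.InstD
import Pool.Agent.H85.W.OutO
import Pool.Agent.H93.W.VBr2
import Pool.Agent.H25.W.Ident
import Pool.Agent.H75.Four.FRot

set_option autoImplicit false
open Finset

/-! # The outside of the canonical box and its rotation

`rotO` : the rotated outside (`HOut D.toH`) of an outside `Out D` whose root has a face to the left of its cluster.
`BPz` : the canonical box of helper20. `Oz` : helper85's outside for it. `OzH` : the rotated outside. `ctz` : the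
target. -/

namespace Pool.Agent.H57.W

open Pool.Agent.H75.Perc Pool.Agent.H75.TwoArm Pool.Agent.H75.Four Pool.Agent.H75.Four.RotAux
open Pool.Agent.Q1
open Pool.Agent.H33.Q1 (lt tt lt_inj tt_lt lt_odd)
open Pool.Agent.H54.W (CD Win HWin Out HOut)
open Pool.Agent.H25.W (GA_toH mem_rotL mem_map_rotL ty_rot)
open Pool.Agent.H20.W (Th crz)
open Pool.Agent.H74.R45 (ve)
open Pool.Agent.H85.W
open Pool.Agent.H93.W (Mg wB hinB)
open Pool.Agent.H20.W (bX1 bX2 bY1 bY2 Dz)

/-! ### Rotation of an outside -/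

lemma rv_inv (v : ℤ × ℤ) : rv (v.2, -v.1) = v := by
  unfold rv
  simp

/-- **The rotated outside.** -/
noncomputable def rotO {D : Win} (O : Out D) (h : ∃ g : ℤ × ℤ, DCo (D.GA ∪ O.Wo) (fi O.c0) g ∧
    ∀ v, Co (D.GA ∪ O.Wo) (vx O.c0) v → g.1 < v.1) : HOut D.toH where
  Wo := O.Wo.map rotL
  c0 := rotc O.c0
  k0 := O.k0 + 1
  g := rf h.choose
  far x y hxy := by
    rw [mem_rotL] at hxy
    rw [Win.toH_InZ]
    exact O.far _ _ hxy
  hk := by
    have h1 := ty_rot O.c0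
    have h2 := O.hk
    have h3 : ty (rotc O.c0) % 4 = ty (rotc O.c0) := ty_mod _
    omega
  hroot := by
    rw [plab_rot, GA_toH, mem_map_rotL]
    exact O.hroot
  hg := by
    rw [GA_toH, ← map_union, fi_rot]
    obtain ⟨F, hF⟩ := h.choose_spec.1
    refine ⟨F.map rotL, ?_⟩
    rw [du_rot, Co_rotD]
    exact hF
  hlow v hv := by
    rw [GA_toH, ← map_union, vx_rot, ← rv_inv v, Co_rot] at hv
    have h1 := h.choose_spec.2 _ hv
    exact h1

@[simp] lemma rotO_Wo {D : Win} (O : Out D) (h) : (rotO O h).Wo = O.Wo.map rotL := rfl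
@[simp] lemma rotO_c0 {D : Win} (O : Out D) (h) : (rotO O h).c0 = rotc O.c0 := rfl
@[simp] lemma rotO_k0 {D : Win} (O : Out D) (h) : (rotO O h).k0 = O.k0 + 1 := rfl

/-- **a face to the left of the cluster of the root, joined to the root** -/
theorem exists_left {D : Ow} {G : Finset (ℤ × ℤ)} (hG : D.Sub G) (ho : ∀ e ∈ G, (e.1 + e.2) % 2 = 1) :
    ∃ g : ℤ × ℤ, DCo G (fi D.rt) g ∧ ∀ v, Co G (vx D.rt) v → g.1 < v.1 := by
  obtain ⟨M, hM0, hM, hv⟩ := Ow.exists_bx G ho (vx D.rt)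
  have hf : ∀ x y : ℤ, 2 * M + 3 + |y| ≤ x →
      Pool.Agent.Q1.M6b.Gd.OutF (-M) M (-M) M (fi (ve (x, y))) := by
    intro x y h
    unfold Pool.Agent.Q1.M6b.Gd.OutF fi ve
    simp only
    rcases abs_cases y with ⟨h1, _⟩ | ⟨h1, _⟩ <;> rw [h1] at h <;> omega
  set y1 := if D.c0 then D.e else D.e - 1
  have d1 := Ow.dco_rt hG (x := max (D.X2 + 1) (2 * M + 3 + |y1|)) (le_max_left _ _)
  have f1 := Pool.Agent.Q1.M6b.Gd.dco_outer hM (hf (max (D.X2 + 1) (2 * M + 3 + |y1|)) y1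
    (le_max_right _ _))
  have f2 : DCo G (-M - 1, -M) (-M, -M - 1) := Pool.Agent.Q1.M6b.Gd.dco_outer hM (by
    unfold Pool.Agent.Q1.M6b.Gd.OutF
    simp only
    omega)
  refine ⟨(-M - 1, -M), (d1.trans f1).trans f2.symm, fun v hco => ?_⟩
  have := hco.inB hM hv
  unfold inB at this
  simp only
  omega

/-! ### The canonical box -/

variable {C : CD} {c0 : Bool}

/-- **The canonical box** of the string in the row `r`. -/
def BPz (C : CD) (c0 : Bool) {n r : ℤ} (he : n % 2 = 0) (h8 : 8 ≤ n) (hr : 0 < r ∧ r + 1 < n * C.H) :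
    BP C c0 where
  n := n
  r := r
  e := r
  X1 := bX1 C n
  X2 := bX2 C n c0 r
  Y1 := bY1 n
  Y2 := bY2 C n
  hn := h8
  he := he
  x1 := by unfold bX1; omega
  x2 := by
    unfold bX2
    split_ifs <;> omega
  y1 := by unfold bY1; omega
  y2 := by unfold bY2; omega
  r0 := hr.1
  r1 := hr.2
  er := Or.inl rfl
  par := by
    have h1 : n * C.W % 2 = 0 := by rw [Int.mul_emod, he]; simp
    unfold bX2
    cases c0
    · simp only [Bool.false_eq_true, if_false]
      omega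
    · simp only [if_true]
      omega

variable {n r : ℤ} (he : n % 2 = 0) (h8 : 8 ≤ n) (hr : 0 < r ∧ r + 1 < n * C.H)

lemma mg_BPz : Mg (BPz C c0 he h8 hr) := by
  constructor
  · change bX1 C n + 4 ≤ n * C.LO
    unfold bX1; omega
  · change bY1 n ≤ -3
    unfold bY1; omega
  · change n * C.H + 3 ≤ bY2 C n
    unfold bY2; omega

lemma wB_BPz : wB (BPz C c0 he h8 hr) = Dz C n c0 he h8 r := rfl

variable (θ : Th C c0)

lemma hin_z : ∀ x y, (Dz C n c0 he h8 r).InZ x y → (ow θ (BPz C c0 he h8 hr)).Box x y :=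
  hinB (mg_BPz he h8 hr)

/-- **The outside.** -/
noncomputable def Oz : Out (Dz C n c0 he h8 r) :=
  outO θ (BPz C c0 he h8 hr) (Dz C n c0 he h8 r) (Dz C n c0 he h8 r).fill (hin_z he h8 hr θ)

@[simp] lemma Oz_Wo : (Oz he h8 hr θ).Wo =
  Wo θ (BPz C c0 he h8 hr) (Dz C n c0 he h8 r) (Dz C n c0 he h8 r).fill := rfl
@[simp] lemma Oz_c0 : (Oz he h8 hr θ).c0 = rtW (BPz C c0 he h8 hr) := rfl

/-- **The rotated outside.** -/
noncomputable def OzH : HOut (Dz C n c0 he h8 r).toH :=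
  rotO (Oz he h8 hr θ) (exists_left (D := ow θ (BPz C c0 he h8 hr)) (sub_GA (hin_z he h8 hr θ)) fun _ => odd_GW)

@[simp] lemma OzH_Wo : (OzH he h8 hr θ).Wo = (Oz he h8 hr θ).Wo.map rotL := rfl
@[simp] lemma OzH_c0 : (OzH he h8 hr θ).c0 = rotc (Oz he h8 hr θ).c0 := rfl

/-- **The target.** -/
noncomputable def ctz : ℤ × ℤ := rotc (ctW θ (BPz C c0 he h8 hr))

end Pool.Agent.H57.W
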