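import Mathlib
import Pool.Agent.H57.W.Oz
import Pool.Agent.H57.W.D8
import Pool.Agent.H95.W.PosK
import Pool.Agent.H95.W.BrS3

set_option autoImplicit false
open Finset Filter Topology

/-! # The difference of the two line values

`near_z` : positions over a compact set. `bridge_z` : helper93's bridge for helper20's canonical box. `vZ` : the line
value at any rapidity. `dvS` : the difference of the line values of the two worlds is helper32's `f2`. `fz` : the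
function `f2` at the scale `2 m`, `0` if the data do not exist. -/

namespace Pool.Agent.H57.W

open Pool.Agent.H75.Perc hiding AR VV ph
open Pool.Agent.H75.TwoArm hiding EF
open Pool.Agent.Q1
open Pool.Agent.Q1.M4 (lat)
open Pool.Agent.H33.Q1 (lt tt tt_lt)
open Pool.Agent.H34.W (opw)
open Pool.Agent.H64.Q1 (wa)
open Pool.Agent.H54.W (CD Win HWin Out HOut PsT NE Zb mem_Zb Pos)
open Pool.Agent.H20.W
open Pool.Agent.H62.W (Phi ZS mem_ZS zone_Phi odd_ZS)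
open Pool.Agent.H74.R45 (exists_lt)
open Pool.Agent.H85.W (ow rtW ctW rtW_out ctW_out odd_GW dco_ct_GA mem_Wo cf)
open Pool.Agent.H93.W (OutG OutZ outZ_of V2 io rcol Fs LB bridge_B neg_tau wB)
open Pool.Agent.H43.W (al8 be8)
open Pool.Agent.H95.W (pos_K)
open Pool.Agent.H32.W.Win (f2 f2_diff V2_diff)
open Pool.Agent.Q1.M6f.Glue (rr)

variable {C : CD} {c0 : Bool}

/-- **Positions over a compact set.** -/
theorem near_z (C : CD) {K : Set ℂ} (hK : K ⊆ OmC C) (hKc : IsCompact K) : ∃ n0 : ℕ, ∀ n : ℤ,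
    (n0 : ℤ) ≤ n → ∀ v : ℤ × ℤ, lat v / ((n : ℝ) : ℂ) ∈ K → 2 ≤ v.2 ∧ v.2 + 2 < n * C.H ∧
      C.wa n v.2 + 2 ≤ v.1 ∧ n * C.LO + 2 ≤ v.1 ∧ v.1 + 2 < n * C.W := by
  obtain ⟨δ, hδ, N, hpos⟩ := pos_K C hK hKc
  refine ⟨N + ⌈4 / δ⌉₊, fun n hn v hv => ?_⟩
  obtain ⟨hn0, hp⟩ := hpos n (by push_cast at hn; omega)
  have h4 : 4 ≤ δ * n := by
    have h1 : (4 / δ : ℝ) ≤ ⌈4 / δ⌉₊ := Nat.le_ceil _
    have h2 : ((⌈4 / δ⌉₊ : ℤ) : ℝ) ≤ n := by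
      exact_mod_cast (show (⌈4 / δ⌉₊ : ℤ) ≤ n by push_cast at hn; omega)
    have h3 : 4 / δ ≤ n := h1.trans (by exact_mod_cast h2)
    rw [div_le_iff₀ hδ] at h3
    linarith
  have key : ∀ i j : ℤ, |i| ≤ 2 → |j| ≤ 2 → 0 ≤ v.2 + j ∧ v.2 + j < n * C.H ∧
      n * C.A ((v.2 + j) / n) ≤ v.1 + i ∧ v.1 + i < n * C.W := by
    intro i j hi hj
    have hi' : |(i : ℝ)| ≤ 2 := by rw [← Int.cast_abs]; exact_mod_cast hi
    have hj' : |(j : ℝ)| ≤ 2 := by rw [← Int.cast_abs]; exact_mod_cast hj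
    refine hp v hv _ _ ?_ ?_
    · rw [add_sub_cancel_left]; linarith
    · rw [add_sub_cancel_left]; linarith
  obtain ⟨a1, a2, a3, a4⟩ := key (-2) (-2) (by norm_num) (by norm_num)
  obtain ⟨b1, b2, b3, b4⟩ := key 2 2 (by norm_num) (by norm_num)
  obtain ⟨c1, c2, c3, c4⟩ := key (-2) 0 (by norm_num) (by norm_num)
  rw [add_zero] at c1 c2 c3
  have hY := C.row_of (n := n) hn0 (y := v.2) c1 c2
  have hLO : C.LO ≤ C.A (v.2 / n) := C.lo _ hY.1 hY.2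
  have hm : n * C.LO ≤ n * C.A (v.2 / n) := mul_le_mul_of_nonneg_left hLO hn0.le
  have hwa : C.wa n v.2 ≤ n * C.A (v.2 / n) := by
    rcases C.wa_cases n v.2 with ⟨-, e⟩ | ⟨-, e⟩ <;> omega
  refine ⟨by omega, by omega, by omega, by omega, by omega⟩

section

variable {n r s : ℤ} {τ : ℤ → ℤ} (he : n % 2 = 0) (h8 : 8 ≤ n) (hr : 0 < r ∧ r + 1 < n * C.H) (θ : Th C c0)

include hr θ in
/-- the labels of the window are in the box -/
lemma GA_Zb {e : ℤ × ℤ} (h : e ∈ (Dz C n c0 he h8 r).GA) :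
    e ∈ Zb (bX1 C n) (bX2 C n c0 r) (bY1 n) (bY2 C n) := by
  obtain ⟨x, y, rfl⟩ := exists_lt (Win.odd_GA h)
  rw [mem_Zb]
  exact hin_z he h8 hr θ x y (Win.mem_GA.1 h)

theorem outG_z : OutG ((Dz C n c0 he h8 r).GA ∪ (Oz he h8 hr θ).Wo) (rtW (BPz C c0 he h8 hr))
    (ctW θ (BPz C c0 he h8 hr)) (Oz he h8 hr θ).g :=
  ⟨fun _ => odd_GW, (Oz he h8 hr θ).hg, (Oz he h8 hr θ).hlow, (dco_ct_GA (hin_z he h8 hr θ)).symm⟩

include θ in
theorem outZ_rt : OutZ (Dz C n c0 he h8 r).GA (rtW (BPz C c0 he h8 hr)) :=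
  outZ_of fun h => (rtW_out (B := BPz C c0 he h8 hr)).1 (GA_Zb he h8 hr θ h)

theorem outZ_ct : OutZ (Dz C n c0 he h8 r).GA (ctW θ (BPz C c0 he h8 hr)) :=
  outZ_of fun h => (ctW_out (B := BPz C c0 he h8 hr)).1 (GA_Zb he h8 hr θ h)

/-- in the zone the far labels are the natural ones -/
lemma mem_Wz {e : ℤ × ℤ} (h : e ∈ Zz C n c0 (s, r)) :
    e ∈ (Oz he h8 hr θ).Wo ↔ e ∈ Wz (Dz C n c0 he h8 r) (Zz C n c0 (s, r)) := by
  obtain ⟨x, y, rfl⟩ := exists_lt (odd_ZS h)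
  have hb : (ow θ (BPz C c0 he h8 hr)).Box x y := (mem_ZS.1 h).1
  classical
  unfold Wz
  rw [Oz_Wo, mem_Wo, mem_filter, tt_lt]
  unfold cf
  rw [if_pos hb]
  exact ⟨fun k => ⟨h, k⟩, fun k => k.2⟩

/-- **helper93's bridge for the canonical box.** -/
theorem bridge_z (H : Pos (Dz C n c0 he h8 r) τ) (ha : (Dz C n c0 he h8 r).a r - 1 ≤ s)
    (hs : s ≤ n * C.W) (h0 : bX1 C n < s) (a b c : ℂ) :
    V2 (Dz C n c0 he h8 r) r s (Oz he h8 hr θ).Wo (fun w => io w (Oz he h8 hr θ).c0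
        (ctW θ (BPz C c0 he h8 hr))) τ a b c w6⁻¹ = al8 c0 + be8 c0 *
      Pool.Agent.H20.W.VS (Dz C n c0 he h8 r) (Wz (Dz C n c0 he h8 r) (Zz C n c0 (s, r))) (Ph C n c0 (s, r) (PsT θ)) τ a b c r s := by
  have key := bridge_B (B := BPz C c0 he h8 hr) (τ := τ) (s := s) θ (mg_BPz he h8 hr) H ha hs h0 a b c
  rw [neg_tau] at key
  refine key.trans (congrArg (fun z : ℂ => al8 c0 + be8 c0 * z) ?_)
  unfold Pool.Agent.H20.W.VS
  refine Ec_congr fun ω _ => ?_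
  refine (zone_Phi C n c0).congr ?_
  ext e
  rw [mem_inter, mem_inter]
  refine and_congr_left fun he' => ?_
  unfold LB Win.WJ
  rw [mem_union, mem_union, mem_union, mem_union]
  exact or_congr Iff.rfl (or_congr Iff.rfl (mem_Wz he h8 hr θ he'))

end

/-- the line value at the rapidity `π - u` -/
noncomputable def vZ (C : CD) (n : ℤ) (c0 : Bool) (v : ℤ × ℤ) (he : n % 2 = 0) (h8 : 8 ≤ n)
    (Ψ : (NE → NE → Prop) → ℂ) (p : Bool) (u : ℂ) : ℂ :=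
  Pool.Agent.H20.W.VS (Dz C n c0 he h8 v.2) (Wz (Dz C n c0 he h8 v.2) (Zz C n c0 v)) (Ph C n c0 v Ψ)
    (tauP (Dz C n c0 he h8 v.2) p) (wa (Real.pi - u)) (wa (Real.pi - u + Real.pi / 2))
    (wa (Real.pi - u - Real.pi / 2)) v.2 v.1

/-- **The difference of the two line values.** -/
theorem dvS {n : ℤ} (he : n % 2 = 0) (h8 : 8 ≤ n) {v : ℤ × ℤ} (hr : 0 < v.2 ∧ v.2 + 1 < n * C.H) (θ : Th C c0)
    (ha : C.wa n v.2 ≤ v.1) (h0 : n * C.LO ≤ v.1) (hw : v.1 ≤ n * C.W) {u : ℂ} (hu : 1 ≤ u.im) :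
    ‖f2 (Dz C n c0 he h8 v.2) (OzH he h8 hr θ) (ctz he h8 hr θ) v.2 (v.1 - 1)
        (Complex.exp (2 * Complex.I * u / 3))‖ =
      ‖be8 c0‖ * ‖vZ C n c0 v he h8 (PsT θ) false u - vZ C n c0 (v - rr) he h8 (PsT θ) true u‖ := by
  have ev : v - rr = (v.1 - 1, v.2) := by
    ext
    · rfl
    · exact sub_zero _
  have b1 := bridge_z (s := v.1) (τ := (Dz C n c0 he h8 v.2).a) he h8 hr θ (Pool.Agent.H54.W.pos_left _)
    (by change C.wa n v.2 - 1 ≤ v.1; omega) hw (by unfold bX1; omega) (wa (Real.pi - u))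
    (wa (Real.pi - u + Real.pi / 2)) (wa (Real.pi - u - Real.pi / 2))
  have b2 := bridge_z (s := v.1 - 1) (τ := fun _ => (Dz C n c0 he h8 v.2).w) he h8 hr θ (Pool.Agent.H54.W.pos_right _)
    (by change C.wa n v.2 - 1 ≤ v.1 - 1; omega) (by omega) (by unfold bX1; omega) (wa (Real.pi - u))
    (wa (Real.pi - u + Real.pi / 2)) (wa (Real.pi - u - Real.pi / 2))
  have b3 := V2_diff (Oz he h8 hr θ) (OzH he h8 hr θ) rfl rfl (outG_z he h8 hr θ) Subset.rfl Subset.rfl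
    (outZ_rt he h8 hr θ) (outZ_ct he h8 hr θ) v.2 (v.1 - 1) hu
  rw [sub_add_cancel, b1, b2] at b3
  unfold ctz
  rw [← b3, ev, ← norm_mul]
  congr 1
  unfold vZ tauP
  simp only [Bool.false_eq_true, if_false, if_true]
  ring

/-! ### The function at the scale `2 m` -/

open Classical in
/-- **The function of chapters A and B.** -/
noncomputable def fz (θ : Th C c0) (m : ℕ) (v : ℤ × ℤ) (t : ℂ) : ℂ :=
  if h : 8 ≤ 2 * (m : ℤ) ∧ 0 < v.2 ∧ v.2 + 1 < 2 * (m : ℤ) * C.H then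
    f2 (Dz C (2 * m) c0 (by omega) h.1 v.2) (OzH (by omega) h.1 h.2 θ) (ctz (by omega) h.1 h.2 θ) v.2 (v.1 - 1) t
  else 0

lemma fz_eq (θ : Th C c0) (m : ℕ) (v : ℤ × ℤ) (he : 2 * (m : ℤ) % 2 = 0) (h8 : 8 ≤ 2 * (m : ℤ))
    (hr : 0 < v.2 ∧ v.2 + 1 < 2 * (m : ℤ) * C.H) (t : ℂ) :
    fz θ m v t = f2 (Dz C (2 * m) c0 he h8 v.2) (OzH he h8 hr θ) (ctz he h8 hr θ) v.2 (v.1 - 1) t := by
  unfold fz
  rw [dif_pos ⟨h8, hr⟩]

theorem fz_diff (θ : Th C c0) (m : ℕ) (v : ℤ × ℤ) :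
    DifferentiableOn ℂ (fz θ m v) (Metric.ball 0 (1 / 2)) := by
  by_cases h : 8 ≤ 2 * (m : ℤ) ∧ 0 < v.2 ∧ v.2 + 1 < 2 * (m : ℤ) * C.H
  · have e : fz θ m v = f2 (Dz C (2 * m) c0 (by omega) h.1 v.2) (OzH (by omega) h.1 h.2 θ)
        (ctz (by omega) h.1 h.2 θ) v.2 (v.1 - 1) := funext fun t => fz_eq θ m v (by omega) h.1 h.2 t
    rw [e]
    exact f2_diff _ _ _ _
  · have e : fz θ m v = fun _ => 0 := funext fun t => by
      unfold fz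
      rw [dif_neg h]
    rw [e]
    exact differentiableOn_const _

/-- **The difference of the line values over a compact set.** -/
theorem fz_val (θ : Th C c0) {K : Set ℂ} (hK : K ⊆ OmC C) (hKc : IsCompact K) : ∃ m1 : ℕ, ∀ m : ℕ, m1 ≤ m →
    ∀ (he : 2 * (m : ℤ) % 2 = 0) (h8 : 8 ≤ 2 * (m : ℤ)) (v : ℤ × ℤ), lat v / (((2 * m : ℕ) : ℝ) : ℂ) ∈ K →
    ∀ u : ℂ, 1 ≤ u.im → ‖fz θ m v (Complex.exp (2 * Complex.I * u / 3))‖ = ‖be8 c0‖ *
      ‖vZ C (2 * m) c0 v he h8 (PsT θ) false u - vZ C (2 * m) c0 (v - rr) he h8 (PsT θ) true u‖ := by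
  obtain ⟨n0, hn⟩ := near_z C hK hKc
  refine ⟨n0, fun m hm he h8 v hv u hu => ?_⟩
  obtain ⟨h1, h2, h3, h4, h5⟩ := hn (2 * m) (by omega) v (by
    have e : (((2 * (m : ℤ) : ℤ) : ℝ) : ℂ) = (((2 * m : ℕ) : ℝ) : ℂ) := by push_cast; rfl
    rw [e]
    exact hv)
  rw [fz_eq θ m v he h8 ⟨by omega, by omega⟩]
  exact dvS he h8 ⟨by omega, by omega⟩ θ (by omega) (by omega) (by omega) hu

end Pool.Agent.H57.W
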