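import Mathlib
import Pool.Agent.H57.W.DvS
import Pool.Agent.H44.W.StAB

set_option autoImplicit false
open Filter Topology

/-! # `KeyAB` for the function `fz` -/

namespace Pool.Agent.H57.W

open Pool.Agent.Q1.M4 (lat)
open Pool.Agent.H54.W (CD PsT)
open Pool.Agent.H20.W (Th OmC)
open Pool.Agent.H43.W (be8 tau_sum)
open Pool.Agent.H74.W (tau tau_im_pos)
open Pool.Agent.H32.W.Bd (Zv)
open Pool.Agent.H44.W (KeyAB)

variable {C : CD} {c0 : Bool}

/-- the Taylor coefficients are small off the thin set -/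
def TayZ (θ : Th C c0) : Prop :=
  ∀ K ⊆ OmC C, IsCompact K → ∀ η > (0 : ℝ), ∀ (k : ℕ) (ε : ℝ), 0 < ε → ∃ m1 : ℕ, ∀ m : ℕ, m1 ≤ m →
    ∀ v : ℤ × ℤ, lat v / (((2 * m : ℕ) : ℝ) : ℂ) ∈ K → v ∉ Zv C η (2 * m) →
    ‖iteratedDeriv k (fun z : ℂ => fz θ m v (z * ((((2 * m : ℕ) : ℝ) ^ (-(2 / 3) : ℝ) : ℝ) : ℂ))) 0‖ ≤ ε

/-- **`KeyAB`.** -/
theorem keyAB_fz (θ : Th C c0) (h : TayZ θ) : KeyAB C c0 (PsT θ) ‖be8 c0‖ (fz θ) where
  diff m v := fz_diff θ m v
  eq _ hK hKc := fz_val θ hK hKc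
  tay := h

theorem be8_pos (c0 : Bool) : 0 < ‖be8 c0‖ := by
  rw [norm_pos_iff]
  have h1 : (1 : ℂ) - tau ^ 2 ≠ 0 := by
    intro h
    have h2 : tau = -2 := by
      have := tau_sum
      linear_combination this + h
    have h3 := tau_im_pos
    rw [h2] at h3
    simp at h3
  unfold be8
  cases c0
  · simp only [Bool.false_eq_true, if_false]
    refine inv_ne_zero fun h => h1 ?_
    linear_combination -h
  · simp only [if_true]
    exact inv_ne_zero h1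

end Pool.Agent.H57.W
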