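import Mathlib
import Pool.Agent.H57.W.KeyZ
import Pool.Agent.H46.W.TayKz

set_option autoImplicit false
open Filter Topology

/-! # The Taylor coefficients of `fz`

`TayP θ p` : the Taylor coefficients of the difference of the two worlds are small off the thin set, rows with
`(v.2 + 1 + 2 m W) % 2 = p`. `tayZ_of` : both parities. -/

namespace Pool.Agent.H57.W

open Pool.Agent.Q1.M4 (lat)
open Pool.Agent.H54.W (CD)
open Pool.Agent.H20.W (Th OmC Dz)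
open Pool.Agent.H32.W.Bd (Zv)
open Pool.Agent.H32.W.Win (f2)

variable {C : CD} {c0 : Bool}

/-- the Taylor coefficients are small off the thin set, rows of one parity -/
def TayP (θ : Th C c0) (p : ℤ) : Prop :=
  ∀ K ⊆ OmC C, IsCompact K → ∀ η > (0 : ℝ), ∀ (k : ℕ) (ε : ℝ), 0 < ε → ∃ m1 : ℕ, ∀ m : ℕ, m1 ≤ m →
    ∀ (he : 2 * (m : ℤ) % 2 = 0) (h8 : 8 ≤ 2 * (m : ℤ)) (v : ℤ × ℤ), lat v / (((2 * m : ℕ) : ℝ) : ℂ) ∈ K →
    v ∉ Zv C η (2 * (m : ℤ)) → (v.2 + 1 + 2 * (m : ℤ) * C.W) % 2 = p →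
    ∀ hr : 0 < v.2 ∧ v.2 + 1 < 2 * (m : ℤ) * C.H,
    ‖iteratedDeriv k (fun z : ℂ => f2 (Dz C (2 * (m : ℤ)) c0 he h8 v.2) (OzH he h8 hr θ)
      (ctz he h8 hr θ) v.2 (v.1 - 1) (z * (((((2 * m : ℕ) : ℝ) ^ (-(2 / 3) : ℝ) : ℝ)) : ℂ))) 0‖ ≤ ε

/-- **Both parities.** -/
theorem tayZ_of (θ : Th C c0) {p0 p1 : ℤ} (h0 : TayP θ p0) (h1 : TayP θ p1)
    (hp : (p0 = 0 ∧ p1 = 1) ∨ (p0 = 1 ∧ p1 = 0)) : TayZ θ := by
  intro K hK hKc η hη k ε hε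
  obtain ⟨m0, H0⟩ := h0 K hK hKc η hη k ε hε
  obtain ⟨m1, H1⟩ := h1 K hK hKc η hη k ε hε
  obtain ⟨n0, hn⟩ := near_z C hK hKc
  refine ⟨m0 + m1 + n0 + 4, fun m hm v hv hvZ => ?_⟩
  obtain ⟨g1, g2, -, -, -⟩ := hn (2 * m) (by omega) v (by
    have e : (((2 * (m : ℤ) : ℤ) : ℝ) : ℂ) = (((2 * m : ℕ) : ℝ) : ℂ) := by push_cast; rfl
    rw [e]
    exact hv)
  have he : 2 * (m : ℤ) % 2 = 0 := by omega
  have h8 : 8 ≤ 2 * (m : ℤ) := by omega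
  have hr : 0 < v.2 ∧ v.2 + 1 < 2 * (m : ℤ) * C.H := ⟨by omega, by omega⟩
  have e1 : (fun z : ℂ => fz θ m v (z * ((((2 * m : ℕ) : ℝ) ^ (-(2 / 3) : ℝ) : ℝ) : ℂ))) =
      fun z : ℂ => f2 (Dz C (2 * (m : ℤ)) c0 he h8 v.2) (OzH he h8 hr θ)
      (ctz he h8 hr θ) v.2 (v.1 - 1) (z * (((((2 * m : ℕ) : ℝ) ^ (-(2 / 3) : ℝ) : ℝ)) : ℂ)) :=
    funext fun z => fz_eq θ m v he h8 hr _
  rw [e1]
  rcases Int.emod_two_eq_zero_or_one (v.2 + 1 + 2 * (m : ℤ) * C.W) with h | h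
  · rcases hp with ⟨e2, -⟩ | ⟨-, e2⟩
    · exact H0 m (by omega) he h8 v hv hvZ (by rw [h, e2]) hr
    · exact H1 m (by omega) he h8 v hv hvZ (by rw [h, e2]) hr
  · rcases hp with ⟨-, e2⟩ | ⟨e2, -⟩
    · exact H1 m (by omega) he h8 v hv hvZ (by rw [h, e2]) hr
    · exact H0 m (by omega) he h8 v hv hvZ (by rw [h, e2]) hr

/-- rows with a tile in the ceiling (helper46) -/
theorem tayP_one (θ : Th C c0) : TayP θ (if c0 then 0 else 1) := fun _ hK hKc _ hη k _ hε =>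
  Pool.Agent.H46.W.tay_K1z θ hK hKc hη k hε

/-- **The Taylor coefficients**, given the rows with `e = 0`. -/
theorem tayZ_zero (θ : Th C c0) (h : TayP θ (if c0 then 1 else 0)) : TayZ θ := by
  refine tayZ_of θ h (tayP_one θ) ?_
  cases c0
  · exact Or.inl ⟨rfl, rfl⟩
  · exact Or.inr ⟨rfl, rfl⟩

end Pool.Agent.H57.W
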