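import Mathlib
import Pool.Agent.H5.C3.Stm
import Pool.Agent.H29.M7.Refine

set_option autoImplicit false
open Finset

/-! # Real lines of the diamond construction (W-F, common lemmas) -/

namespace Pool.Agent.H57.W

open Pool.Agent.H75.Perc (dir dir_cases)
open Pool.Agent.Q1.M4 (Cell Good IsSide nextSide tail head PType pt Reg Om)
open Pool.Agent.H48.Q1 (fl fl_spec fl_eq fl_iff fl_step len fsd vm Refi mem_ref)
open Pool.Agent.H5.C3

variable {x y l : ℤ → ℝ} {g κ e τ : ℝ}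

/-! ### Gaps -/

lemma gapR_mono (h : GapR x g) : StrictMono x :=
  strictMono_int_of_lt_succ fun i => by have := h.gap i; have := h.g0; linarith

lemma GapR.le (h : GapR x g) {g' : ℝ} (h0 : 0 < g') (h1 : g' ≤ g) : GapR x g' :=
  ⟨h0, fun i => by have := h.gap i; linarith⟩

lemma l5_mod (x : ℤ → ℝ) (κ : ℝ) (i : ℤ) : l5 x κ (5 * i) = x i ∧ l5 x κ (5 * i + 1) = x i + κ ∧
    l5 x κ (5 * i + 2) = x i + 2 * κ ∧ l5 x κ (5 * i + 3) = x (i + 1) - 2 * κ ∧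
    l5 x κ (5 * i + 4) = x (i + 1) - κ := by
  refine ⟨?_, ?_, ?_, ?_, ?_⟩ <;> unfold l5
  · rw [if_pos (by omega), show 5 * i / 5 = i by omega]
  · rw [if_neg (by omega), if_pos (by omega), show (5 * i + 1) / 5 = i by omega]
  · rw [if_neg (by omega), if_neg (by omega), if_pos (by omega), show (5 * i + 2) / 5 = i by omega]
  · rw [if_neg (by omega), if_neg (by omega), if_neg (by omega), if_pos (by omega),
      show (5 * i + 3) / 5 = i by omega]
  · rw [if_neg (by omega), if_neg (by omega), if_neg (by omega), if_neg (by omega),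
      show (5 * i + 4) / 5 = i by omega]

lemma l5_m5 (x : ℤ → ℝ) (κ : ℝ) (i : ℤ) : l5 x κ (m5 i) = x i := (l5_mod x κ i).1

/-- the refined lines have gaps `κ` -/
lemma gapR_l5 (h : GapR x g) (hκ : 0 < κ) (hg : 5 * κ ≤ g) : GapR (l5 x κ) κ := by
  refine ⟨hκ, fun a => ?_⟩
  obtain ⟨i, r, hr0, hr, rfl⟩ : ∃ i r : ℤ, 0 ≤ r ∧ r < 5 ∧ a = 5 * i + r :=
    ⟨a / 5, a % 5, by omega, by omega, by omega⟩
  obtain ⟨h0, h1, h2, h3, h4⟩ := l5_mod x κ i
  have h5 := (l5_mod x κ (i + 1)).1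
  have hg1 := h.gap i
  have hr' : r = 0 ∨ r = 1 ∨ r = 2 ∨ r = 3 ∨ r = 4 := by omega
  rcases hr' with rfl | rfl | rfl | rfl | rfl
  · rw [add_zero, h0, h1]
  · rw [show 5 * i + 1 + 1 = 5 * i + 2 by ring, h1, h2]; linarith
  · rw [show 5 * i + 2 + 1 = 5 * i + 3 by ring, h2, h3]; linarith
  · rw [show 5 * i + 3 + 1 = 5 * i + 4 by ring, h3, h4]; linarith
  · rw [show 5 * i + 4 + 1 = 5 * (i + 1) by ring, h4, h5]; linarith

lemma l2_even (l : ℤ → ℝ) (τ : ℝ) (i : ℤ) : l2 l τ (2 * i) = l i - τ := by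
  unfold l2
  rw [if_pos (by omega), show 2 * i / 2 = i by omega]

lemma l2_odd (l : ℤ → ℝ) (τ : ℝ) (i : ℤ) : l2 l τ (2 * i + 1) = l i + τ := by
  unfold l2
  rw [if_neg (by omega), show (2 * i + 1) / 2 = i by omega]

/-- the doubled lines have gaps `2 τ` -/
lemma gapR_l2 (h : GapR l g) (hτ : 0 < τ) (hg : 4 * τ ≤ g) : GapR (l2 l τ) (2 * τ) := by
  refine ⟨by linarith, fun a => ?_⟩
  have hg1 := h.gap (a / 2)
  rcases Int.emod_two_eq_zero_or_one a with h0 | h0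
  · obtain ⟨i, rfl⟩ : ∃ i, a = 2 * i := ⟨a / 2, by omega⟩
    rw [l2_even, l2_odd]; linarith
  · obtain ⟨i, rfl⟩ : ∃ i, a = 2 * i + 1 := ⟨a / 2, by omega⟩
    rw [show (2 * i + 1) / 2 = i by omega] at hg1
    rw [l2_odd, show 2 * i + 1 + 1 = 2 * (i + 1) by ring, l2_even]; linarith

/-- the lines of the construction before rounding -/
noncomputable abbrev LR (x : ℤ → ℝ) (κ : ℝ) : ℤ → ℝ := l2 (l5 x κ) (κ / 10)

lemma gapR_LR (h : GapR x g) (hκ : 0 < κ) (hg : 5 * κ ≤ g) : GapR (LR x κ) (κ / 5) := by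
  have := gapR_l2 (gapR_l5 h hκ hg) (τ := κ / 10) (by positivity) (by linarith)
  rwa [show 2 * (κ / 10) = κ / 5 by ring] at this

lemma gap_lz (h : GapR l g) (he : 0 < e) {n : ℕ} (hn : n * e ≤ g) : Gap (lz l e) n := by
  intro a
  have h1 := h.gap a
  unfold lz
  have h2 : l a / e + n ≤ l (a + 1) / e := by
    rw [← sub_nonneg] at *
    have : l (a + 1) / e - (l a / e + n) = (l (a + 1) - (l a + n * e)) / e := by
      field_simp
    rw [this]
    apply div_nonneg _ he.le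
    linarith
  have h3 := Int.ceil_mono h2
  rw [Int.ceil_add_natCast] at h3
  exact_mod_cast h3

/-- the integer lines have gaps `200` -/
lemma gap_LX (h : GapR x g) (hκ : 0 < κ) (hg : 5 * κ ≤ g) : Gap (LX x κ) 200 := by
  have := gap_lz (gapR_LR h hκ hg) (e := κ / 1000) (by positivity) (n := 200) (by push_cast; linarith)
  exact_mod_cast this

lemma Gap.le {l : ℤ → ℤ} {L L' : ℤ} (h : Gap l L) (h' : L' ≤ L) : Gap l L' := fun a => by
  have := h a; omega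

lemma LX_mono (h : GapR x g) (hκ : 0 < κ) (hg : 5 * κ ≤ g) : StrictMono (LX x κ) :=
  (gap_LX h hκ hg).mono (by norm_num)

/-- **Fibres.** -/
lemma fl_lz (he : 0 < e) (hm : StrictMono (lz l e)) {i a : ℤ} :
    fl (lz l e) i = a ↔ l a ≤ e * i ∧ e * i < l (a + 1) := by
  rw [fl_iff hm]
  unfold lz
  rw [Int.ceil_le, Int.lt_ceil, div_le_iff₀ he, lt_div_iff₀ he, mul_comm]

lemma fl_LX (h : GapR x g) (hκ : 0 < κ) (hg : 5 * κ ≤ g) {i a : ℤ} :
    fl (LX x κ) i = a ↔ LR x κ a ≤ (κ / 1000) * i ∧ (κ / 1000) * i < LR x κ (a + 1) :=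
  fl_lz (by positivity) (LX_mono h hκ hg)

lemma LX_le (hκ : 0 < κ) (a i : ℤ) : LX x κ a ≤ i ↔ LR x κ a ≤ (κ / 1000) * i := by
  unfold LX lz
  rw [Int.ceil_le, div_le_iff₀ (by positivity), mul_comm]

lemma lt_LX (hκ : 0 < κ) (a i : ℤ) : i < LX x κ a ↔ (κ / 1000) * i < LR x κ a := by
  unfold LX lz
  rw [Int.lt_ceil, lt_div_iff₀ (by positivity), mul_comm]

/-- position of the line `a` of the construction -/
lemma LX_near (hκ : 0 < κ) (a : ℤ) : LR x κ a ≤ (κ / 1000) * (LX x κ a : ℤ) ∧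
    (κ / 1000) * (LX x κ a : ℤ) < LR x κ a + κ / 1000 := by
  refine ⟨(LX_le hκ a _).1 le_rfl, ?_⟩
  have h1 := (lt_LX (x := x) hκ a (LX x κ a - 1)).1 (by omega)
  push_cast at h1
  linarith

/-! ### The refined type -/

lemma len_m5 (s : Cell × ℤ) : len m5 m5 s = 5 := by
  unfold len m5
  split_ifs <;> ring_nf <;> rfl

lemma L_m5 (P : PType) (n : ℕ) : P.L m5 m5 n = 5 * n := by
  unfold PType.L
  simp only [len_m5, sum_const, card_range, smul_eq_mul]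
  ring

variable (P : PType)

lemma P5_N : (P5 P).N = 5 * P.N := by
  unfold P5; rw [PType.refine_N, L_m5]

lemma P5_m : (P5 P).m = 5 * P.m := by
  unfold P5; rw [PType.refine_m, L_m5]

lemma P5_side {n r : ℕ} (hr : r < 5) : (P5 P).side (5 * n + r) = fsd m5 m5 (P.side n) r := by
  unfold P5
  have h := P.refine_side m5_mono m5_mono (n := n) (j := r) (by rw [len_m5]; exact hr)
  rwa [L_m5] at h

lemma P5_vert {n r : ℕ} (hr : r ≤ 5) :
    (P5 P).vert (5 * n + r) = vm m5 m5 (P.vert n) + (r : ℤ) • dir (P.side n).2 := by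
  unfold P5
  have h := P.refine_vert m5_mono m5_mono (n := n) (j := r) (by rw [len_m5]; exact hr)
  rwa [L_m5] at h

lemma P5_dir {n r : ℕ} (hr : r < 5) : ((P5 P).side (5 * n + r)).2 = (P.side n).2 := by
  rw [P5_side P hr]; rfl

lemma fl_m5 (a : ℤ) : fl m5 a = a / 5 :=
  fl_eq m5_mono (by unfold m5; omega) (by unfold m5; omega)

lemma mem_P5 {c : Cell} : c ∈ (P5 P).Q ↔ (c.1 / 5, c.2 / 5) ∈ P.Q := by
  unfold P5
  rw [PType.refine_Q, mem_ref m5_mono m5_mono]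
  unfold Pool.Agent.H48.Q1.co
  rw [fl_m5, fl_m5]

variable {P}

/-- the five-fold refinement of the lines -/
lemma refi5 {gy : ℝ} (hx : GapR x g) (hy : GapR y gy) (hκ : 0 < κ) (h1 : 5 * κ ≤ g)
    (h2 : 5 * κ ≤ gy) : Refi x y (l5 x κ) (l5 y κ) m5 m5 :=
  ⟨gapR_mono (gapR_l5 hx hκ h1), gapR_mono (gapR_l5 hy hκ h2), m5_mono, m5_mono, l5_m5 x κ,
    l5_m5 y κ⟩

lemma Reg_P5 {gy : ℝ} (hx : GapR x g) (hy : GapR y gy) (hκ : 0 < κ) (h1 : 5 * κ ≤ g)
    (h2 : 5 * κ ≤ gy) : Reg (P5 P).Q (l5 x κ) (l5 y κ) = Reg P.Q x y := by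
  unfold P5
  rw [PType.refine_Q]
  exact Pool.Agent.H29.M7.reg_ref (refi5 hx hy hκ h1 h2) P.Q

lemma Om_P5 {gy : ℝ} (hx : GapR x g) (hy : GapR y gy) (hκ : 0 < κ) (h1 : 5 * κ ≤ g)
    (h2 : 5 * κ ≤ gy) : Om (P5 P).Q (l5 x κ) (l5 y κ) = Om P.Q x y := by
  unfold Om
  rw [Reg_P5 hx hy hκ h1 h2]

end Pool.Agent.H57.W
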