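import Pool.Agent.H19.Rado.Conv

set_option autoImplicit false
open Set Metric Filter Topology

/-! # Kernel convergence from local accessibility of the core

`KConv.of_acc`: Jordan domains `D n` which contain every compact subset of `D0` eventually, stay close
to `D0`, and in which every point is joined, inside a small ball, to a fixed compact subset of `D0`,
converge to `D0` in the sense of `KConv` (no thin necks). -/

namespace Pool.Agent.H57.W

open Pool.Agent.H81.Q1 (IsJordanDomain)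
open Pool.Agent.H14.Jordan
open Pool.Agent.H19.Rado

/-- A Jordan domain has no thin necks. -/
lemma far_self {D : Set ℂ} (h : IsJordanDomain D) {ε : ℝ} (hε : 0 < ε) : ∃ δ > 0,
    ∀ (c : ℂ) (K : Set ℂ), IsCompact K → K ⊆ closedBall c δ → ∀ z ∈ D, ∀ w ∈ D,
      ε < dist z c → ε < dist w c → JoinedIn (D \ K) z w := by
  obtain ⟨ρ, hρ⟩ := exists_loop h
  obtain ⟨z0, hz0⟩ := hρ.conn.nonempty
  have L : LConv (pure () : Filter Unit) (fun _ => D) (fun _ => ρ) D ρ z0 :=
    ⟨hρ, Filter.Eventually.of_forall fun _ => hρ, fun δ hδ => Filter.Eventually.of_forall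
      fun _ t => by rw [dist_self]; exact hδ.le, hz0, Filter.Eventually.of_forall fun _ => hz0⟩
  obtain ⟨δ, hδ, h1⟩ := L.far hε
  exact ⟨δ, hδ, by simpa using h1⟩

/-- Uniform version: the paths stay in a compact subset. -/
lemma far_compact {D : Set ℂ} (h : IsJordanDomain D) {K : Set ℂ} (hK : IsCompact K) (hKD : K ⊆ D)
    {ε : ℝ} (hε : 0 < ε) : ∃ δ > 0, ∃ K' : Set ℂ, IsCompact K' ∧ K' ⊆ D ∧ ∀ c : ℂ, ∀ z ∈ K, ∀ w ∈ K,
      ε ≤ dist z c → ε ≤ dist w c → JoinedIn (K' \ closedBall c δ) z w := by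
  obtain ⟨δ1, hδ1, hfar⟩ := far_self h (show 0 < ε / 2 by positivity)
  set δ0 : ℝ := min δ1 (ε / 4) with hδ0
  have hδ0p : 0 < δ0 := by positivity
  have e1 : δ0 ≤ δ1 := min_le_left _ _
  have e2 : δ0 ≤ ε / 4 := min_le_right _ _
  obtain ⟨B, hB⟩ := h.2.2.1.exists_norm_le
  set R : ℝ := |B| + 2 * ε with hR
  -- the compact set of parameters
  set T : Set (ℂ × ℂ × ℂ) := {t | t.1 ∈ closedBall (0:ℂ) R ∧ t.2.1 ∈ K ∧ t.2.2 ∈ K ∧
    ε ≤ dist t.2.1 t.1 ∧ ε ≤ dist t.2.2 t.1} with hT
  have hTc : IsCompact T := by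
    have h1 : IsCompact (closedBall (0:ℂ) R ×ˢ K ×ˢ K) :=
      (isCompact_closedBall _ _).prod (hK.prod hK)
    refine h1.of_isClosed_subset ?_ ?_
    · have c1 : IsClosed {t : ℂ × ℂ × ℂ | t.1 ∈ closedBall (0:ℂ) R} :=
        isClosed_closedBall.preimage continuous_fst
      have c2 : IsClosed {t : ℂ × ℂ × ℂ | t.2.1 ∈ K} :=
        hK.isClosed.preimage (continuous_fst.comp continuous_snd)
      have c3 : IsClosed {t : ℂ × ℂ × ℂ | t.2.2 ∈ K} :=
        hK.isClosed.preimage (continuous_snd.comp continuous_snd)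
      have c4 : IsClosed {t : ℂ × ℂ × ℂ | ε ≤ dist t.2.1 t.1} :=
        isClosed_le continuous_const (by fun_prop)
      have c5 : IsClosed {t : ℂ × ℂ × ℂ | ε ≤ dist t.2.2 t.1} :=
        isClosed_le continuous_const (by fun_prop)
      exact c1.inter (c2.inter (c3.inter (c4.inter c5)))
    · rintro ⟨a, b, c⟩ ⟨h1, h2, h3, -, -⟩
      exact ⟨h1, h2, h3⟩
  have main : ∃ K' : Set ℂ, IsCompact K' ∧ K' ⊆ D ∧ ∀ t ∈ T,
      JoinedIn (K' \ closedBall t.1 (δ0 / 2)) t.2.1 t.2.2 := by
    refine hTc.induction_on (p := fun s => ∃ K' : Set ℂ, IsCompact K' ∧ K' ⊆ D ∧ ∀ t ∈ s,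
      JoinedIn (K' \ closedBall t.1 (δ0 / 2)) t.2.1 t.2.2) ?_ ?_ ?_ ?_
    · exact ⟨∅, isCompact_empty, empty_subset _, fun t ht => absurd ht (notMem_empty t)⟩
    · rintro s t hst ⟨K', h1, h2, h3⟩
      exact ⟨K', h1, h2, fun x hx => h3 x (hst hx)⟩
    · rintro s t ⟨K1, a1, a2, a3⟩ ⟨K2, b1, b2, b3⟩
      refine ⟨K1 ∪ K2, a1.union b1, union_subset a2 b2, ?_⟩
      rintro x (hx | hx)
      · exact (a3 x hx).mono (sdiff_subset_sdiff_left subset_union_left)
      · exact (b3 x hx).mono (sdiff_subset_sdiff_left subset_union_right)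
    · rintro ⟨c0, z0, w0⟩ ⟨-, hz, hw, hzc, hwc⟩
      simp only at hz hw hzc hwc
      obtain ⟨γ, hγ⟩ := hfar c0 (closedBall c0 δ0) (isCompact_closedBall _ _)
        (closedBall_subset_closedBall e1) z0 (hKD hz) w0 (hKD hw) (by linarith) (by linarith)
      obtain ⟨r1, hr1, hb1⟩ := Metric.nhds_basis_closedBall.mem_iff.1 (h.1.mem_nhds (hKD hz))
      obtain ⟨r2, hr2, hb2⟩ := Metric.nhds_basis_closedBall.mem_iff.1 (h.1.mem_nhds (hKD hw))
      set r : ℝ := min (min r1 r2) (δ0 / 4) with hr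
      have hrp : 0 < r := by positivity
      have q1 : r ≤ r1 := (min_le_left _ _).trans (min_le_left _ _)
      have q2 : r ≤ r2 := (min_le_left _ _).trans (min_le_right _ _)
      have q3 : r ≤ δ0 / 4 := min_le_right _ _
      refine ⟨ball c0 r ×ˢ ball z0 r ×ˢ ball w0 r, ?_, range γ ∪ closedBall z0 r ∪
        closedBall w0 r, ?_, ?_, ?_⟩
      · apply mem_nhdsWithin_of_mem_nhds
        exact prod_mem_nhds (ball_mem_nhds _ hrp) (prod_mem_nhds (ball_mem_nhds _ hrp)
          (ball_mem_nhds _ hrp))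
      · exact ((isCompact_range γ.continuous).union (isCompact_closedBall _ _)).union
          (isCompact_closedBall _ _)
      · refine union_subset (union_subset ?_ ?_) ?_
        · rintro _ ⟨t, rfl⟩
          exact (hγ t).1
        · exact (closedBall_subset_closedBall q1).trans hb1
        · exact (closedBall_subset_closedBall q2).trans hb2
      · rintro ⟨c, z, w⟩ ⟨hc, hz', hw'⟩
        simp only at hc hz' hw' ⊢
        rw [mem_ball] at hc hz' hw'
        -- a point of a small ball is far from `c`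
        have key : ∀ a0 a : ℂ, ε ≤ dist a0 c0 → dist a a0 ≤ r → a ∉ closedBall c (δ0 / 2) := by
          intro a0 a h1 h2 h3
          rw [mem_closedBall] at h3
          have t1 := dist_triangle4 a0 a c c0
          rw [dist_comm a0 a] at t1
          linarith
        have seg : ∀ a0 a : ℂ, ε ≤ dist a0 c0 → dist a a0 < r →
            JoinedIn (closedBall a0 r \ closedBall c (δ0 / 2)) a a0 := by
          intro a0 a h1 h2
          apply JoinedIn.of_segment_subset
          intro p hp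
          have hp' : p ∈ closedBall a0 r :=
            (convex_closedBall a0 r).segment_subset h2.le (by
              rw [mem_closedBall, dist_self]; exact hrp.le) hp
          exact ⟨hp', key a0 p h1 hp'⟩
        have j1 := (seg z0 z hzc hz').mono (show closedBall z0 r \ closedBall c (δ0 / 2) ⊆
          (range γ ∪ closedBall z0 r ∪ closedBall w0 r) \ closedBall c (δ0 / 2) from
          fun p hp => ⟨Or.inl (Or.inr hp.1), hp.2⟩)
        have j3 := (seg w0 w hwc hw').mono (show closedBall w0 r \ closedBall c (δ0 / 2) ⊆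
          (range γ ∪ closedBall z0 r ∪ closedBall w0 r) \ closedBall c (δ0 / 2) from
          fun p hp => ⟨Or.inr hp.1, hp.2⟩)
        have j2 : JoinedIn ((range γ ∪ closedBall z0 r ∪ closedBall w0 r) \
            closedBall c (δ0 / 2)) z0 w0 := by
          refine ⟨γ, fun t => ⟨Or.inl (Or.inl (mem_range_self t)), fun h3 => ?_⟩⟩
          have h4 := (hγ t).2
          rw [mem_closedBall] at h3 h4
          have t1 := dist_triangle (γ t) c c0
          apply h4
          linarith
        exact (j1.trans j2).trans j3.symm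
  obtain ⟨K', k1, k2, k3⟩ := main
  refine ⟨δ0 / 2, by positivity, K', k1, k2, ?_⟩
  intro c z hz w hw hzc hwc
  by_cases hc : c ∈ closedBall (0:ℂ) R
  · exact k3 (c, z, w) ⟨hc, hz, hw, hzc, hwc⟩
  · -- a far away point instead of `c`
    rw [mem_closedBall_zero_iff, not_le] at hc
    have hz1 := hB z (hKD hz)
    have hw1 := hB w (hKD hw)
    have a1 := le_abs_self B
    have hRn : 0 ≤ R := by positivity
    have hn : ‖((R : ℝ) : ℂ)‖ = R := by rw [Complex.norm_real, Real.norm_of_nonneg hRn]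
    have far0 : ∀ a : ℂ, ‖a‖ ≤ B → ε ≤ dist a ((R : ℝ) : ℂ) := by
      intro a ha
      rw [dist_comm, dist_eq_norm]
      have := norm_sub_norm_le ((R : ℝ) : ℂ) a
      rw [hn] at this
      linarith
    have h1 := k3 (((R : ℝ) : ℂ), z, w) ⟨by
      rw [mem_closedBall_zero_iff]; exact hn.le, hz, hw, far0 z hz1, far0 w hw1⟩
    refine h1.mono fun p hp => ⟨hp.1, fun h3 => ?_⟩
    have h4 := hB p (k2 hp.1)
    rw [mem_closedBall, dist_eq_norm] at h3
    have h5 := norm_sub_norm_le c p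
    rw [norm_sub_rev] at h5
    linarith

/-- **Kernel convergence from local accessibility.** -/
theorem kconv_of_acc {ι : Type*} {l : Filter ι} {D : ι → Set ℂ} {D0 : Set ℂ}
    (jd0 : IsJordanDomain D0) (jd : ∀ᶠ n in l, IsJordanDomain (D n))
    (H1 : ∀ K : Set ℂ, IsCompact K → K ⊆ D0 → ∀ᶠ n in l, K ⊆ D n)
    (H2 : ∀ s > 0, ∀ᶠ n in l, ∀ z ∈ D n, ∃ w ∈ D0, dist z w < s)
    (H3 : ∀ ε > 0, ∃ K : Set ℂ, IsCompact K ∧ K ⊆ D0 ∧ ∀ᶠ n in l, ∀ z ∈ D n, ∃ w ∈ K,
      JoinedIn (D n ∩ ball z ε) z w) : KConv l D D0 where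
  jd0 := jd0
  jd := jd
  bdd := by
    obtain ⟨B, hB⟩ := (jd0.2.2.1.closure).exists_norm_le
    refine ⟨max B 0 + 1, by have := le_max_right B 0; linarith, ?_, ?_⟩
    · intro z hz
      rw [mem_closedBall_zero_iff]
      have := hB z hz
      have := le_max_left B 0
      linarith
    · filter_upwards [H2 1 one_pos] with n hn
      refine closure_minimal ?_ isClosed_closedBall
      intro z hz
      obtain ⟨w, hw, hzw⟩ := hn z hz
      have h1 := hB w (subset_closure hw)
      have h2 := norm_le_norm_add_norm_sub w z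
      rw [mem_closedBall_zero_iff]
      rw [dist_comm, dist_eq_norm] at hzw
      have := le_max_left B 0
      linarith
  ball_mem z hz := by
    obtain ⟨s, hs, hsub⟩ := Metric.nhds_basis_closedBall.mem_iff.1 (jd0.1.mem_nhds hz)
    exact ⟨s, hs, hsub, H1 _ (isCompact_closedBall z s) hsub⟩
  lim_mem l' hl' hne x x0 hx hx0 := by
    rw [Metric.mem_closure_iff]
    intro ε hε
    obtain ⟨n, ⟨h1, h2⟩, h3⟩ := ((hx.and (hl' (H2 (ε / 3) (by positivity)))).and
      (Metric.tendsto_nhds.1 hx0 (ε / 3) (by positivity))).exists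
    obtain ⟨y, hy, hxy⟩ := Metric.mem_closure_iff.1 h1 (ε / 3) (by positivity)
    obtain ⟨w, hw, hyw⟩ := h2 y hy
    refine ⟨w, hw, ?_⟩
    have a1 := dist_triangle4 x0 (x n) y w
    rw [dist_comm] at h3
    linarith
  far ε hε := by
    obtain ⟨K, hK, hKD, h3⟩ := H3 (ε / 2) (by positivity)
    obtain ⟨δ1, hδ1, K', k1, k2, k3⟩ := far_compact jd0 hK hKD (show 0 < ε / 2 by positivity)
    refine ⟨min δ1 (ε / 2), by positivity, ?_⟩
    filter_upwards [H1 K' k1 k2, h3] with n g1 g2 c L hL hLc z hz w hw hzc hwc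
    have e1 := min_le_left δ1 (ε / 2)
    have e2 := min_le_right δ1 (ε / 2)
    have loc : ∀ a ∈ D n, ε < dist a c → ∃ a' ∈ K, ε / 2 ≤ dist a' c ∧ JoinedIn (D n \ L) a a' := by
      intro a ha hac
      obtain ⟨a', ha', hj⟩ := g2 a ha
      have far1 : ∀ p ∈ ball a (ε / 2), ε / 2 < dist p c := by
        intro p hp
        rw [mem_ball, dist_comm] at hp
        have := dist_triangle a p c
        linarith
      refine ⟨a', ha', (far1 a' hj.target_mem.2).le, hj.mono fun p hp => ⟨hp.1, fun hpL => ?_⟩⟩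
      have h4 := hLc hpL
      rw [mem_closedBall] at h4
      have := far1 p hp.2
      linarith
    obtain ⟨z', hz', dz, jz⟩ := loc z hz hzc
    obtain ⟨w', hw', dw, jw⟩ := loc w hw hwc
    have j := k3 c z' hz' w' hw' dz dw
    refine (jz.trans (j.mono fun p hp => ⟨g1 hp.1, fun hpL => hp.2 ?_⟩)).trans jw.symm
    exact closedBall_subset_closedBall e1 (hLc hpL)

end Pool.Agent.H57.W
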