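import Mathlib
import Pool.Agent.H5.C3.Elem
import Pool.Agent.H19.W.Line

set_option autoImplicit false
open Finset

/-! # Position of the diamond polyomino (T5), I: the cells of the doubled grid -/

namespace Pool.Agent.H57.W

open Pool.Agent.H75.Perc (dir dir_cases)
open Pool.Agent.Q1.M4 (Cell Good IsSide nextSide tail head PType Eqv tail_inj side_cells
  lab lab_eq_tail lab_inj dir_congr)
open Pool.Agent.H5.C3
open Pool.Agent.H19.W (Mm_all)

/-- the bulk cell `(i, j)` touches the cell `(α, β)` of the doubled grid -/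
def Nb (α β i j : ℤ) : Prop := (2 * i ≤ α ∧ α ≤ 2 * i + 2) ∧ (2 * j ≤ β ∧ β ≤ 2 * j + 2)

/-- `(α, β)` is the vertex or the edge number `n` of the walk -/
def IsEl (R : PType) (α β : ℤ) (n : ℕ) : Prop :=
  (α, β) = R.vert n + R.vert n ∨ (α, β) = R.vert n + R.vert (n + 1)

section
variable {R : PType} {O : ℕ → Prop}

/-- pushed sides -/
lemma oOf_iff {n : ℕ} {c : Cell} {k : ℤ} (h : Eqv (R.side n) (c, k)) :
    oOf R O c k ↔ O (n % R.N) := by
  constructor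
  · rintro ⟨n', hn', h1, h2, h3⟩
    have : n' % R.N = n % R.N := idx_inj (Eqv.trans ⟨h1, h2⟩ h.symm)
    rw [Nat.mod_eq_of_lt hn'] at this
    rwa [← this]
  · intro h3
    refine ⟨n % R.N, Nat.mod_lt _ (N_pos R), ?_⟩
    have h4 : Eqv (R.side (n % R.N)) (c, k) := (eqv_mod n).symm.trans h
    exact ⟨h4.1, h4.2, h3⟩

/-- an element with neighbours inside and outside is an element of the walk -/
lemma exists_el {α β i j i' j' : ℤ} (h : Nb α β i j) (h' : Nb α β i' j') (hi : (i, j) ∈ R.Q)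
    (hi' : (i', j') ∉ R.Q) : ∃ n < R.N, IsEl R α β n := by
  obtain ⟨⟨h1, h2⟩, h3, h4⟩ := h
  obtain ⟨⟨h1', h2'⟩, h3', h4'⟩ := h'
  obtain ⟨a, ha⟩ := Int.even_or_odd' α
  obtain ⟨b, hb⟩ := Int.even_or_odd' β
  rcases ha with rfl | rfl <;> rcases hb with rfl | rfl
  · have key : ∀ i j : ℤ, 2 * i ≤ 2 * a → 2 * a ≤ 2 * i + 2 → 2 * j ≤ 2 * b → 2 * b ≤ 2 * j + 2 →
        (i, j) = (a, b) ∨ (i, j) = (a - 1, b) ∨ (i, j) = (a - 1, b - 1) ∨ (i, j) = (a, b - 1) := by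
      intro i j g1 g2 g3 g4
      simp only [Prod.mk.injEq]
      omega
    have k1 := key i j h1 h2 h3 h4
    have k2 := key i' j' h1' h2' h3' h4'
    obtain ⟨n, hn, e⟩ := exists_vert (P := R) (i := a) (j := b)
      (fun g => hi' (by
        rcases k2 with e | e | e | e <;> rw [e] <;>
          first | exact g.1 | exact g.2.1 | exact g.2.2.1 | exact g.2.2.2))
      (fun g => by
        rcases k1 with e | e | e | e <;> rw [e] at hi <;>
          first | exact g.1 hi | exact g.2.1 hi | exact g.2.2.1 hi | exact g.2.2.2 hi)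
    refine ⟨n, hn, Or.inl ?_⟩
    rw [e]
    ext <;> simp only [Prod.fst_add, Prod.snd_add] <;> omega
  · have hj : j = b := by omega
    have hj' : j' = b := by omega
    subst hj hj'
    have k1 : i = a ∨ i = a - 1 := by omega
    have k2 : i' = a ∨ i' = a - 1 := by omega
    rcases k1 with rfl | rfl <;> rcases k2 with rfl | rfl
    · exact absurd hi hi'
    · obtain ⟨n, hn, e⟩ := idx3 hi hi'
      refine ⟨n, hn, Or.inr ?_⟩
      rw [el_of e]
      have : dir ((3 : ℤ) - 1) = (-1, 0) := by decide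
      unfold lab
      simp only [this]
      ext <;> simp only [Prod.fst_add, Prod.snd_add] <;> omega
    · obtain ⟨n, hn, e⟩ := idx1 hi hi'
      refine ⟨n, hn, Or.inr ?_⟩
      rw [el_of e]
      have : dir ((1 : ℤ) - 1) = (1, 0) := by decide
      unfold lab
      simp only [this]
      ext <;> simp only [Prod.fst_add, Prod.snd_add] <;> omega
    · exact absurd hi hi'
  · have hj : i = a := by omega
    have hj' : i' = a := by omega
    subst hj hj'
    have k1 : j = b ∨ j = b - 1 := by omega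
    have k2 : j' = b ∨ j' = b - 1 := by omega
    rcases k1 with rfl | rfl <;> rcases k2 with rfl | rfl
    · exact absurd hi hi'
    · obtain ⟨n, hn, e⟩ := idx0 hi hi'
      refine ⟨n, hn, Or.inr ?_⟩
      rw [el_of e]
      have : dir ((0 : ℤ) - 1) = (0, -1) := by decide
      unfold lab
      simp only [this]
      ext <;> simp only [Prod.fst_add, Prod.snd_add] <;> omega
    · obtain ⟨n, hn, e⟩ := idx2 hi hi'
      refine ⟨n, hn, Or.inr ?_⟩
      rw [el_of e]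
      have : dir ((2 : ℤ) - 1) = (0, 1) := by decide
      unfold lab
      simp only [this]
      ext <;> simp only [Prod.fst_add, Prod.snd_add] <;> omega
    · exact absurd hi hi'
  · exfalso
    apply hi'
    rwa [show i' = i by omega, show j' = j by omega]

/-- the sides of the four kinds -/
lemma eqv_side (n : ℕ) : Eqv (R.side n) ((R.side n).1, (R.side n).2) := Eqv.refl _

lemma norm_side (n : ℕ) : ∃ c : Cell, (Eqv (R.side n) (c, 0) ∧ c ∈ R.Q ∧ (c.1, c.2 - 1) ∉ R.Q) ∨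
    (Eqv (R.side n) (c, 1) ∧ c ∈ R.Q ∧ (c.1 + 1, c.2) ∉ R.Q) ∨
    (Eqv (R.side n) (c, 2) ∧ c ∈ R.Q ∧ (c.1, c.2 + 1) ∉ R.Q) ∨
    (Eqv (R.side n) (c, 3) ∧ c ∈ R.Q ∧ (c.1 - 1, c.2) ∉ R.Q) := by
  obtain ⟨h1, h2⟩ := R.isSide_side n
  refine ⟨(R.side n).1, ?_⟩
  obtain ⟨⟨c1, c2⟩, k⟩ : ∃ s, s = R.side n := ⟨_, rfl⟩
  obtain ⟨s, hs⟩ : ∃ s, R.side n = s := ⟨_, rfl⟩
  rw [hs] at h1 h2 ⊢
  obtain ⟨⟨c1, c2⟩, k⟩ := s
  simp only at h1 h2 ⊢
  rcases dir_cases (k - 1) with ⟨h, e⟩ | ⟨h, e⟩ | ⟨h, e⟩ | ⟨h, e⟩ <;> rw [e] at h2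
  · right; left
    refine ⟨⟨rfl, by simp only; omega⟩, h1, ?_⟩
    simpa using h2
  · right; right; left
    refine ⟨⟨rfl, by simp only; omega⟩, h1, ?_⟩
    simpa using h2
  · right; right; right
    refine ⟨⟨rfl, by simp only; omega⟩, h1, ?_⟩
    simpa [sub_eq_add_neg] using h2
  · left
    refine ⟨⟨rfl, by simp only; omega⟩, h1, ?_⟩
    simpa [sub_eq_add_neg] using h2

/-- the edge cell of a side is inside iff the side is pushed out -/
lemma Mm_edge (n : ℕ) : Mm R.Q (oOf R O) (R.vert n + R.vert (n + 1)) ↔ O (n % R.N) := by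
  obtain ⟨⟨i, j⟩, h⟩ := norm_side (R := R) n
  rcases h with ⟨h, h1, h2⟩ | ⟨h, h1, h2⟩ | ⟨h, h1, h2⟩ | ⟨h, h1, h2⟩ <;>
    rw [el_of h, ← oOf_iff (O := O) h] <;> simp only at h2 <;> unfold lab
  · have e : dir ((0 : ℤ) - 1) = (0, -1) := by decide
    rw [show ((i, j), (0 : ℤ)).1 + ((i, j), (0 : ℤ)).1 + (1, 1) + dir (((i, j), (0 : ℤ)).2 - 1) =
      (2 * i + 1, 2 * j) by
        simp only [e]; ext <;> simp only [Prod.fst_add, Prod.snd_add] <;> omega, Mm_oe]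
    unfold Hz
    tauto
  · have e : dir ((1 : ℤ) - 1) = (1, 0) := by decide
    rw [show ((i, j), (1 : ℤ)).1 + ((i, j), (1 : ℤ)).1 + (1, 1) + dir (((i, j), (1 : ℤ)).2 - 1) =
      (2 * (i + 1), 2 * j + 1) by
        simp only [e]; ext <;> simp only [Prod.fst_add, Prod.snd_add] <;> omega, Mm_eo]
    unfold Ve
    rw [add_sub_cancel_right]
    tauto
  · have e : dir ((2 : ℤ) - 1) = (0, 1) := by decide
    rw [show ((i, j), (2 : ℤ)).1 + ((i, j), (2 : ℤ)).1 + (1, 1) + dir (((i, j), (2 : ℤ)).2 - 1) =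
      (2 * i + 1, 2 * (j + 1)) by
        simp only [e]; ext <;> simp only [Prod.fst_add, Prod.snd_add] <;> omega, Mm_oe]
    unfold Hz
    rw [add_sub_cancel_right]
    tauto
  · have e : dir ((3 : ℤ) - 1) = (-1, 0) := by decide
    rw [show ((i, j), (3 : ℤ)).1 + ((i, j), (3 : ℤ)).1 + (1, 1) + dir (((i, j), (3 : ℤ)).2 - 1) =
      (2 * i, 2 * j + 1) by
        simp only [e]; ext <;> simp only [Prod.fst_add, Prod.snd_add] <;> omega, Mm_eo]
    unfold Ve
    tauto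

/-- uniqueness of the side which starts at a vertex -/
lemma start_uniq {n : ℕ} {s : Cell × ℤ} (hs : IsSide R.Q s) (h : tail s = R.vert n) :
    Eqv (R.side n) s := tail_inj R.good (R.isSide_side n) hs h.symm

/-- the vertex cell of a vertex of the walk is inside iff the side which starts there is pushed
out -/
lemma Mm_vert (n : ℕ) : Mm R.Q (oOf R O) (R.vert n + R.vert n) ↔ O (n % R.N) := by
  obtain ⟨i, j, hv⟩ : ∃ i j, R.vert n = (i, j) := ⟨_, _, rfl⟩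
  rw [hv, show ((i, j) : ℤ × ℤ) + (i, j) = (2 * i, 2 * j) by
    ext <;> simp only [Prod.fst_add, Prod.snd_add] <;> omega, Mm_ee]
  have d0 : dir ((0 : ℤ) - 1) = (0, -1) := by decide
  have d1 : dir ((1 : ℤ) - 1) = (1, 0) := by decide
  have d2 : dir ((2 : ℤ) - 1) = (0, 1) := by decide
  have d3 : dir ((3 : ℤ) - 1) = (-1, 0) := by decide
  have s0 : (i, j) ∈ R.Q → (i, j - 1) ∉ R.Q → Eqv (R.side n) ((i, j), 0) := fun a b =>
    start_uniq ⟨a, by simp only [d0]; simpa [sub_eq_add_neg] using b⟩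
      (by rw [hv]; unfold tail; simp)
  have s1 : (i - 1, j) ∈ R.Q → (i, j) ∉ R.Q → Eqv (R.side n) ((i - 1, j), 1) := fun a b =>
    start_uniq ⟨a, by simp only [d1]; simpa using b⟩
      (by rw [hv]; unfold tail; simp)
  have s2 : (i - 1, j - 1) ∈ R.Q → (i - 1, j) ∉ R.Q → Eqv (R.side n) ((i - 1, j - 1), 2) :=
    fun a b => start_uniq ⟨a, by simp only [d2]; simpa using b⟩
      (by rw [hv]; unfold tail; simp)
  have s3 : (i, j - 1) ∈ R.Q → (i - 1, j - 1) ∉ R.Q → Eqv (R.side n) ((i, j - 1), 3) :=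
    fun a b => start_uniq ⟨a, by simp only [d3]; simpa [sub_eq_add_neg] using b⟩
      (by rw [hv]; unfold tail; simp)
  unfold Vx
  constructor
  · rintro (⟨a, b, c, d⟩ | ⟨a, b, c⟩ | ⟨a, b, c⟩ | ⟨a, b, c⟩ | ⟨a, b, c⟩)
    · exfalso
      clear s0 s1 s2 s3
      obtain ⟨⟨c1, c2⟩, h⟩ := norm_side (R := R) n
      rcases h with ⟨h, h1, h2⟩ | ⟨h, h1, h2⟩ | ⟨h, h1, h2⟩ | ⟨h, h1, h2⟩ <;>
        have e := vert_of h <;> rw [hv] at e <;> unfold tail at e <;>
        norm_num at e <;> obtain ⟨e1, e2⟩ := e <;> subst e1 e2 <;> simp only at h2 <;>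
        (try simp only [add_sub_cancel_right] at a b c d) <;>
        first | exact h2 a | exact h2 b | exact h2 c | exact h2 d
    · exact (oOf_iff (s0 a b)).1 c
    · exact (oOf_iff (s1 a b)).1 c
    · exact (oOf_iff (s2 a b)).1 c
    · exact (oOf_iff (s3 a b)).1 c
  · intro h
    have key : ((i, j) ∈ R.Q ∧ (i, j - 1) ∉ R.Q) ∨ ((i - 1, j) ∈ R.Q ∧ (i, j) ∉ R.Q) ∨
        ((i - 1, j - 1) ∈ R.Q ∧ (i - 1, j) ∉ R.Q) ∨
        ((i, j - 1) ∈ R.Q ∧ (i - 1, j - 1) ∉ R.Q) := by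
      clear s0 s1 s2 s3
      obtain ⟨⟨c1, c2⟩, h⟩ := norm_side (R := R) n
      rcases h with ⟨h, h1, h2⟩ | ⟨h, h1, h2⟩ | ⟨h, h1, h2⟩ | ⟨h, h1, h2⟩ <;>
        have e := vert_of h <;> rw [hv] at e <;> unfold tail at e <;>
        norm_num at e <;> obtain ⟨e1, e2⟩ := e <;> subst e1 e2 <;> simp only at h2 <;>
        (try simp only [add_sub_cancel_right])
      · exact Or.inl ⟨h1, h2⟩
      · exact Or.inr (Or.inl ⟨h1, h2⟩)
      · exact Or.inr (Or.inr (Or.inl ⟨h1, h2⟩))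
      · exact Or.inr (Or.inr (Or.inr ⟨h1, h2⟩))
    rcases key with ⟨a, b⟩ | ⟨a, b⟩ | ⟨a, b⟩ | ⟨a, b⟩
    · exact Or.inr (Or.inl ⟨a, b, (oOf_iff (s0 a b)).2 h⟩)
    · exact Or.inr (Or.inr (Or.inl ⟨a, b, (oOf_iff (s1 a b)).2 h⟩))
    · exact Or.inr (Or.inr (Or.inr (Or.inl ⟨a, b, (oOf_iff (s2 a b)).2 h⟩)))
    · exact Or.inr (Or.inr (Or.inr (Or.inr ⟨a, b, (oOf_iff (s3 a b)).2 h⟩)))

lemma Mm_el {α β : ℤ} {n : ℕ} (h : IsEl R α β n) :
    Mm R.Q (oOf R O) (α, β) ↔ O (n % R.N) := by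
  rcases h with h | h <;> rw [h]
  · exact Mm_vert n
  · exact Mm_edge n

/-- an outside cell at a bulk cell of `Q` is at a side which is not pushed out -/
lemma el_out {α β i j : ℤ} (h : ¬ Mm R.Q (oOf R O) (α, β)) (hn : Nb α β i j)
    (hi : (i, j) ∈ R.Q) : ∃ n < R.N, ¬ O n ∧ IsEl R α β n := by
  obtain ⟨i', j', hn', hi'⟩ : ∃ i' j', Nb α β i' j' ∧ (i', j') ∉ R.Q := by
    by_contra hc
    push Not at hc
    exact h (Mm_all fun i' j' a b c d => hc i' j' ⟨⟨a, b⟩, c, d⟩)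
  obtain ⟨n, hn0, e⟩ := exists_el hn hn' hi hi'
  refine ⟨n, hn0, fun ho => h ?_, e⟩
  rw [Mm_el e, Nat.mod_eq_of_lt hn0]
  exact ho

/-- an inside cell at a bulk cell which is not in `Q` is at a side which is pushed out -/
lemma el_in {α β i j : ℤ} (h : Mm R.Q (oOf R O) (α, β)) (hn : Nb α β i j)
    (hi : (i, j) ∉ R.Q) : ∃ n < R.N, O n ∧ IsEl R α β n := by
  obtain ⟨c, hc, hr⟩ := Mm_near h
  rw [mem_product, mem_Icc, mem_Icc] at hr
  obtain ⟨n, hn0, e⟩ := exists_el (R := R) (i := c.1) (j := c.2) ⟨hr.1, hr.2⟩ hn hc hi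
  refine ⟨n, hn0, ?_, e⟩
  rw [Mm_el e, Nat.mod_eq_of_lt hn0] at h
  exact h

end

end Pool.Agent.H57.W
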