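import Mathlib
import Pool.Agent.H57.W.Pos1
import Pool.Agent.H57.W.Real
import Pool.Agent.H5.C3.Cls
import Pool.Agent.H19.W.Dia

set_option autoImplicit false
open Finset

/-! # Position of the diamond polyomino (T5), II: distances -/

namespace Pool.Agent.H57.W

open Pool.Agent.H75.Perc (dir dir_cases)
open Pool.Agent.Q1.M4 (Cell Good IsSide nextSide tail head PType pt Reg Om mem_Om rect mem_rect)
open Pool.Agent.H48.Q1 (fl fl_spec fl_eq fl_iff fl_step)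
open Pool.Agent.H5.C3
open Pool.Agent.H5.FM (T0 OnS)
open Pool.Agent.H19.W (LZ LZ_bd LZ_mono LZ_gap InD mem_DD DD inD_T0 l2_e l2_o l2_e2)

/-! ### One line -/

section one
variable {l : ℤ → ℝ} {κ : ℝ} (hl : GapR l κ)
include hl

lemma at_even {p i : ℤ} (h : fl (LZ l κ) p = 2 * i) :
    l i - κ / 10 ≤ κ / 1000 * p ∧ κ / 1000 * p < l i + κ / 10 := by
  have hκ := hl.g0
  have he : 0 < κ / 1000 := by positivity
  obtain ⟨s1, s2⟩ := (fl_iff (LZ_mono hl)).1 h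
  have b1 := (LZ_bd hl (2 * i)).1
  have b2 := (LZ_bd hl (2 * i + 1)).2
  rw [l2_e] at b1
  rw [l2_o] at b2
  have q1 : (LZ l κ (2 * i) : ℝ) ≤ p := by exact_mod_cast s1
  have q2 : (p : ℝ) ≤ LZ l κ (2 * i + 1) - 1 := by
    exact_mod_cast (show p ≤ LZ l κ (2 * i + 1) - 1 by omega)
  have r1 := mul_le_mul_of_nonneg_left q1 he.le
  have r2 := mul_le_mul_of_nonneg_left q2 he.le
  constructor <;> linarith

lemma at_odd {p i : ℤ} (h : fl (LZ l κ) p = 2 * i + 1) :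
    l i + κ / 10 ≤ κ / 1000 * p ∧ κ / 1000 * p < l (i + 1) - κ / 10 := by
  have hκ := hl.g0
  have he : 0 < κ / 1000 := by positivity
  obtain ⟨s1, s2⟩ := (fl_iff (LZ_mono hl)).1 h
  have b1 := (LZ_bd hl (2 * i + 1)).1
  have b2 := (LZ_bd hl (2 * i + 2)).2
  rw [l2_o] at b1
  rw [l2_e2] at b2
  rw [show 2 * i + 1 + 1 = 2 * i + 2 by ring] at s2
  have q1 : (LZ l κ (2 * i + 1) : ℝ) ≤ p := by exact_mod_cast s1
  have q2 : (p : ℝ) ≤ LZ l κ (2 * i + 2) - 1 := by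
    exact_mod_cast (show p ≤ LZ l κ (2 * i + 2) - 1 by omega)
  have r1 := mul_le_mul_of_nonneg_left q1 he.le
  have r2 := mul_le_mul_of_nonneg_left q2 he.le
  constructor <;> linarith

lemma far1 {p i : ℤ} (hn : ¬ (2 * i ≤ fl (LZ l κ) p ∧ fl (LZ l κ) p ≤ 2 * i + 2)) {s : ℝ}
    (h1 : l i ≤ s) (h2 : s ≤ l (i + 1)) : κ / 10 ≤ |κ / 1000 * p - s| := by
  have hm := gapR_mono hl
  obtain ⟨a, ha⟩ := Int.even_or_odd' (fl (LZ l κ) p)
  rcases ha with ha | ha
  · have hb := at_even hl ha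
    rw [ha] at hn
    rcases (show a < i ∨ i + 1 < a by omega) with h | h
    · have g := hl.gap (i - 1)
      rw [sub_add_cancel] at g
      have k := hm.monotone (show a ≤ i - 1 by omega)
      have hκ := hl.g0
      rw [abs_of_neg (by linarith)]
      linarith
    · have g := hl.gap (i + 1)
      have k := hm.monotone (show i + 1 + 1 ≤ a by omega)
      have hκ := hl.g0
      rw [abs_of_pos (by linarith)]
      linarith
  · have hb := at_odd hl ha
    rw [ha] at hn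
    have hκ := hl.g0
    rcases (show a + 1 ≤ i ∨ i + 1 ≤ a by omega) with h | h
    · have k := hm.monotone h
      rw [abs_of_neg (by linarith)]
      linarith
    · have k := hm.monotone h
      rw [abs_of_pos (by linarith)]
      linarith

lemma near_even {p i : ℤ} (h : |κ / 1000 * p - l i| < κ / 10) : fl (LZ l κ) p = 2 * i := by
  have h1 : 2 * i ≤ fl (LZ l κ) p ∧ fl (LZ l κ) p ≤ 2 * i + 2 := by
    by_contra hn
    have := far1 hl hn le_rfl (gapR_mono hl (show i < i + 1 by omega)).le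
    linarith
  have h2 : 2 * (i - 1) ≤ fl (LZ l κ) p ∧ fl (LZ l κ) p ≤ 2 * (i - 1) + 2 := by
    by_contra hn
    have := far1 hl hn (s := l i) (gapR_mono hl (show i - 1 < i by omega)).le
      (by rw [sub_add_cancel])
    linarith
  omega

/-- every real number is in an interval -/
lemma exists_int_le (s : ℝ) : ∃ i, l i ≤ s ∧ s ≤ l (i + 1) := by
  have hκ := hl.g0
  have hup : ∀ n : ℕ, l 0 + n * κ ≤ l n := by
    intro n
    induction n with
    | zero => simp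
    | succ n ih =>
      have := hl.gap n
      push_cast at this ⊢
      linarith
  have hdn : ∀ n : ℕ, l (-n) ≤ l 0 - n * κ := by
    intro n
    induction n with
    | zero => simp
    | succ n ih =>
      have := hl.gap (-(n + 1 : ℤ))
      rw [show (-(n + 1 : ℤ)) + 1 = -n by ring] at this
      push_cast at this ⊢
      linarith
  have hm := gapR_mono hl
  obtain ⟨m, hm1⟩ := exists_nat_gt ((s - l 0) / κ)
  obtain ⟨k, hk1⟩ := exists_nat_gt ((l 0 - s) / κ)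
  rw [div_lt_iff₀ hκ] at hm1 hk1
  obtain ⟨i, hi, hi'⟩ := Int.exists_greatest_of_bdd (P := fun i => l i ≤ s)
    ⟨m, fun z hz => by
      by_contra hc
      have h1 := hm.monotone (show (m : ℤ) ≤ z by omega)
      have h2 := hup m
      linarith⟩
    ⟨-k, by have := hdn k; linarith⟩
  refine ⟨i, hi, ?_⟩
  by_contra hc
  have := hi' (i + 1) (by linarith)
  omega

end one

lemma ev_near {a b c : ℤ} (h : b = a ∨ b = a + 1 ∨ b = a - 1) (e : ev a b = c) :
    (c % 2 = 0 → (c - 1 ≤ b ∧ b ≤ c + 1) ∧ (a = c ∨ b = c)) ∧ (c % 2 = 1 → b = c ∧ a = c) := by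
  unfold ev at e
  split_ifs at e <;> constructor <;> intro h1 <;> omega

/-! ### Sides as products of intervals -/

lemma mem_seg_h {P Q z : ℂ} (h : P.im = Q.im) :
    z ∈ segment ℝ P Q ↔ z.re ∈ Set.uIcc P.re Q.re ∧ z.im = P.im := by
  rw [← segment_eq_uIcc]
  constructor
  · rintro ⟨a, b, ha, hb, hab, rfl⟩
    refine ⟨⟨a, b, ha, hb, hab, ?_⟩, ?_⟩
    · simp
    · have : b = 1 - a := by linarith
      simp only [Complex.add_im, Complex.smul_im, smul_eq_mul, this, ← h]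
      ring
  · rintro ⟨⟨a, b, ha, hb, hab, e⟩, h2⟩
    refine ⟨a, b, ha, hb, hab, ?_⟩
    have : b = 1 - a := by linarith
    apply Complex.ext
    · rw [← e]; simp
    · rw [h2]
      simp only [Complex.add_im, Complex.smul_im, smul_eq_mul, this, ← h]
      ring

lemma mem_seg_v {P Q z : ℂ} (h : P.re = Q.re) :
    z ∈ segment ℝ P Q ↔ z.re = P.re ∧ z.im ∈ Set.uIcc P.im Q.im := by
  rw [← segment_eq_uIcc]
  constructor
  · rintro ⟨a, b, ha, hb, hab, rfl⟩
    refine ⟨?_, ⟨a, b, ha, hb, hab, ?_⟩⟩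
    · have : b = 1 - a := by linarith
      simp only [Complex.add_re, Complex.smul_re, smul_eq_mul, this, ← h]
      ring
    · simp
  · rintro ⟨h2, ⟨a, b, ha, hb, hab, e⟩⟩
    refine ⟨a, b, ha, hb, hab, ?_⟩
    have : b = 1 - a := by linarith
    apply Complex.ext
    · rw [h2]
      simp only [Complex.add_re, Complex.smul_re, smul_eq_mul, this, ← h]
      ring
    · rw [← e]; simp

section
variable {R : PType} {X Y : ℤ → ℝ}

/-- a closed side is a product of two intervals -/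
lemma mem_sd {n : ℕ} {z : ℂ} : z ∈ sdR R X Y n ↔
    z.re ∈ Set.uIcc (X (R.vert n).1) (X (R.vert (n + 1)).1) ∧
    z.im ∈ Set.uIcc (Y (R.vert n).2) (Y (R.vert (n + 1)).2) := by
  unfold sdR
  have hv := R.vert_succ n
  rcases dir_cases (R.side n).2 with ⟨-, e⟩ | ⟨-, e⟩ | ⟨-, e⟩ | ⟨-, e⟩ <;> rw [e] at hv
  · have h1 : (R.vert (n + 1)).2 = (R.vert n).2 := by rw [hv]; simp
    rw [mem_seg_h (by unfold pt; simp only [h1]), h1, Set.uIcc_self, Set.mem_singleton_iff]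
    rfl
  · have h1 : (R.vert (n + 1)).1 = (R.vert n).1 := by rw [hv]; simp
    rw [mem_seg_v (by unfold pt; simp only [h1]), h1, Set.uIcc_self, Set.mem_singleton_iff]
    rfl
  · have h1 : (R.vert (n + 1)).2 = (R.vert n).2 := by rw [hv]; simp
    rw [mem_seg_h (by unfold pt; simp only [h1]), h1, Set.uIcc_self, Set.mem_singleton_iff]
    rfl
  · have h1 : (R.vert (n + 1)).1 = (R.vert n).1 := by rw [hv]; simp
    rw [mem_seg_v (by unfold pt; simp only [h1]), h1, Set.uIcc_self, Set.mem_singleton_iff]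
    rfl

/-- the index intervals of a side -/
lemma vert_cases (R : PType) (n : ℕ) : ∃ i j : ℤ,
    (R.vert n = (i, j) ∧ R.vert (n + 1) = (i + 1, j)) ∨
    (R.vert n = (i, j) ∧ R.vert (n + 1) = (i, j + 1)) ∨
    (R.vert n = (i + 1, j) ∧ R.vert (n + 1) = (i, j)) ∨
    (R.vert n = (i, j + 1) ∧ R.vert (n + 1) = (i, j)) := by
  obtain ⟨i, j, hv⟩ : ∃ i j, R.vert n = (i, j) := ⟨_, _, rfl⟩
  have h := R.vert_succ n
  rw [hv] at h
  rcases dir_cases (R.side n).2 with ⟨-, e⟩ | ⟨-, e⟩ | ⟨-, e⟩ | ⟨-, e⟩ <;> rw [e] at h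
  · exact ⟨i, j, Or.inl ⟨hv, by rw [h]; simp⟩⟩
  · exact ⟨i, j, Or.inr (Or.inl ⟨hv, by rw [h]; simp⟩)⟩
  · exact ⟨i - 1, j, Or.inr (Or.inr (Or.inl ⟨by rw [hv, sub_add_cancel], by
      rw [h]; simp [sub_eq_add_neg]⟩))⟩
  · exact ⟨i, j - 1, Or.inr (Or.inr (Or.inr ⟨by rw [hv, sub_add_cancel], by
      rw [h]; simp [sub_eq_add_neg]⟩))⟩

variable {κ : ℝ} (hX : GapR X κ) (hY : GapR Y κ)
include hX hY

/-- points at an element of the walk are near the closed side -/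
lemma near_el {p q : ℤ × ℤ} {n : ℕ} (h1 : q.1 = p.1 ∨ q.1 = p.1 + 1 ∨ q.1 = p.1 - 1)
    (h2 : q.2 = p.2 ∨ q.2 = p.2 + 1 ∨ q.2 = p.2 - 1)
    (h : IsEl R (elm (LZ X κ) (LZ Y κ) p q).1 (elm (LZ X κ) (LZ Y κ) p q).2 n) {z : ℂ}
    (z1 : |z.re - κ / 1000 * p.1| ≤ κ / 1000) (z2 : |z.im - κ / 1000 * p.2| ≤ κ / 1000) :
    ∃ a ∈ sdR R X Y n, ‖z - a‖ ≤ κ / 4 := by
  have hκ := hX.g0
  have he : 0 < κ / 1000 := by positivity
  have hmx := LZ_mono hX
  have hmy := LZ_mono hY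
  -- neighbours
  have key : ∀ {l : ℤ → ℤ}, StrictMono l → ∀ {s t : ℤ}, (t = s ∨ t = s + 1 ∨ t = s - 1) →
      (fl l t = fl l s ∨ fl l t = fl l s + 1 ∨ fl l t = fl l s - 1) := by
    intro l hl s t hst
    rcases hst with rfl | hst
    · exact Or.inl rfl
    · rcases col_cases hl hst with h | ⟨h, -, -⟩ | ⟨h, -, -⟩
      · exact Or.inl h
      · exact Or.inr (Or.inl h)
      · exact Or.inr (Or.inr h)
  have ex := ev_near (key hmx h1) rfl
  have ey := ev_near (key hmy h2) rfl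
  -- distance to a line
  have nx : ∀ i, (elm (LZ X κ) (LZ Y κ) p q).1 = 2 * i → |z.re - X i| ≤ κ / 10 + 3 * (κ / 1000) := by
    intro i hi
    have hi' : ev (fl (LZ X κ) p.1) (fl (LZ X κ) q.1) = 2 * i := hi
    rw [hi'] at ex
    obtain ⟨-, g⟩ := ex.1 (by omega)
    have z1' := abs_le.1 z1
    rcases g with g | g
    · have := at_even hX g
      rw [abs_le]; constructor <;> linarith
    · have := at_even hX g
      have hq : |κ / 1000 * (q.1 : ℝ) - κ / 1000 * p.1| ≤ κ / 1000 := by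
        rw [← mul_sub, abs_mul, abs_of_pos he]
        have : |(q.1 : ℝ) - p.1| ≤ 1 := by
          have : |q.1 - p.1| ≤ 1 := by rw [abs_le]; omega
          exact_mod_cast this
        nlinarith
      have hq' := abs_le.1 hq
      rw [abs_le]; constructor <;> linarith
  have ny : ∀ i, (elm (LZ X κ) (LZ Y κ) p q).2 = 2 * i → |z.im - Y i| ≤ κ / 10 + 3 * (κ / 1000) := by
    intro i hi
    have hi' : ev (fl (LZ Y κ) p.2) (fl (LZ Y κ) q.2) = 2 * i := hi
    rw [hi'] at ey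
    obtain ⟨-, g⟩ := ey.1 (by omega)
    have z1' := abs_le.1 z2
    rcases g with g | g
    · have := at_even hY g
      rw [abs_le]; constructor <;> linarith
    · have := at_even hY g
      have hq : |κ / 1000 * (q.2 : ℝ) - κ / 1000 * p.2| ≤ κ / 1000 := by
        rw [← mul_sub, abs_mul, abs_of_pos he]
        have : |(q.2 : ℝ) - p.2| ≤ 1 := by
          have : |q.2 - p.2| ≤ 1 := by rw [abs_le]; omega
          exact_mod_cast this
        nlinarith
      have hq' := abs_le.1 hq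
      rw [abs_le]; constructor <;> linarith
  have ox : ∀ i, (elm (LZ X κ) (LZ Y κ) p q).1 = 2 * i + 1 →
      X i ≤ κ / 1000 * p.1 ∧ κ / 1000 * p.1 ≤ X (i + 1) := by
    intro i hi
    have hi' : ev (fl (LZ X κ) p.1) (fl (LZ X κ) q.1) = 2 * i + 1 := hi
    rw [hi'] at ex
    have := at_odd hX (ex.2 (by omega)).2
    constructor <;> linarith
  have oy : ∀ i, (elm (LZ X κ) (LZ Y κ) p q).2 = 2 * i + 1 →
      Y i ≤ κ / 1000 * p.2 ∧ κ / 1000 * p.2 ≤ Y (i + 1) := by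
    intro i hi
    have hi' : ev (fl (LZ Y κ) p.2) (fl (LZ Y κ) q.2) = 2 * i + 1 := hi
    rw [hi'] at ey
    have := at_odd hY (ey.2 (by omega)).2
    constructor <;> linarith
  rcases h with h | h
  · obtain ⟨i, j, hv⟩ : ∃ i j, R.vert n = (i, j) := ⟨_, _, rfl⟩
    rw [hv] at h
    have e1 : (elm (LZ X κ) (LZ Y κ) p q).1 = 2 * i := by
      have := congrArg Prod.fst h
      simp only [Prod.fst_add] at this; omega
    have e2 : (elm (LZ X κ) (LZ Y κ) p q).2 = 2 * j := by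
      have := congrArg Prod.snd h
      simp only [Prod.snd_add] at this; omega
    refine ⟨⟨X i, Y j⟩, ?_, ?_⟩
    · rw [mem_sd, hv]
      exact ⟨Set.left_mem_uIcc, Set.left_mem_uIcc⟩
    · refine (Complex.norm_le_abs_re_add_abs_im _).trans ?_
      have a1 := nx i e1
      have a2 := ny j e2
      simp only [Complex.sub_re, Complex.sub_im]
      linarith
  · -- an edge
    have hh : ∀ i j, (elm (LZ X κ) (LZ Y κ) p q).1 = 2 * i + 1 →
        (elm (LZ X κ) (LZ Y κ) p q).2 = 2 * j → ∃ a : ℂ, (X i ≤ a.re ∧ a.re ≤ X (i + 1)) ∧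
          a.im = Y j ∧ ‖z - a‖ ≤ κ / 4 := by
      intro i j e1 e2
      refine ⟨⟨κ / 1000 * p.1, Y j⟩, ox i e1, rfl, ?_⟩
      refine (Complex.norm_le_abs_re_add_abs_im _).trans ?_
      have a2 := ny j e2
      simp only [Complex.sub_re, Complex.sub_im]
      linarith
    have hw : ∀ i j, (elm (LZ X κ) (LZ Y κ) p q).1 = 2 * i →
        (elm (LZ X κ) (LZ Y κ) p q).2 = 2 * j + 1 → ∃ a : ℂ, (Y j ≤ a.im ∧ a.im ≤ Y (j + 1)) ∧
          a.re = X i ∧ ‖z - a‖ ≤ κ / 4 := by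
      intro i j e1 e2
      refine ⟨⟨X i, κ / 1000 * p.2⟩, oy j e2, rfl, ?_⟩
      refine (Complex.norm_le_abs_re_add_abs_im _).trans ?_
      have a2 := nx i e1
      simp only [Complex.sub_re, Complex.sub_im]
      linarith
    have c1 := congrArg Prod.fst h
    have c2 := congrArg Prod.snd h
    simp only [Prod.fst_add, Prod.snd_add] at c1 c2
    obtain ⟨i, j, hc⟩ := vert_cases R n
    rcases hc with ⟨v1, v2⟩ | ⟨v1, v2⟩ | ⟨v1, v2⟩ | ⟨v1, v2⟩ <;> rw [v1, v2] at c1 c2 <;>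
      simp only at c1 c2
    · obtain ⟨a, a1, a2, a3⟩ := hh i j (by omega) (by omega)
      refine ⟨a, ?_, a3⟩
      rw [mem_sd, v1, v2]
      exact ⟨Set.mem_uIcc.2 (Or.inl a1), by rw [a2]; exact Set.left_mem_uIcc⟩
    · obtain ⟨a, a1, a2, a3⟩ := hw i j (by omega) (by omega)
      refine ⟨a, ?_, a3⟩
      rw [mem_sd, v1, v2]
      exact ⟨by rw [a2]; exact Set.left_mem_uIcc, Set.mem_uIcc.2 (Or.inl a1)⟩
    · obtain ⟨a, a1, a2, a3⟩ := hh i j (by omega) (by omega)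
      refine ⟨a, ?_, a3⟩
      rw [mem_sd, v1, v2]
      exact ⟨Set.mem_uIcc.2 (Or.inr a1), by rw [a2]; exact Set.left_mem_uIcc⟩
    · obtain ⟨a, a1, a2, a3⟩ := hw i j (by omega) (by omega)
      refine ⟨a, ?_, a3⟩
      rw [mem_sd, v1, v2]
      exact ⟨by rw [a2]; exact Set.left_mem_uIcc, Set.mem_uIcc.2 (Or.inr a1)⟩

/-- an integer point all of whose bulk neighbours are outside is far from the region -/
lemma far_reg {q : ℤ × ℤ} {i j : ℤ}
    (hq : ¬ Nb (fl (LZ X κ) q.1) (fl (LZ Y κ) q.2) i j) {w : ℂ} (hw : w ∈ rect X Y (i, j)) :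
    κ / 10 ≤ ‖(⟨κ / 1000 * q.1, κ / 1000 * q.2⟩ : ℂ) - w‖ := by
  rw [mem_rect] at hw
  obtain ⟨⟨w1, w2⟩, w3, w4⟩ := hw
  unfold Nb at hq
  rw [not_and_or] at hq
  rcases hq with h | h
  · refine (far1 hX h w1 w2).trans ?_
    have := Complex.abs_re_le_norm ((⟨κ / 1000 * q.1, κ / 1000 * q.2⟩ : ℂ) - w)
    simpa only [Complex.sub_re] using this
  · refine (far1 hY h w3 w4).trans ?_
    have := Complex.abs_im_le_norm ((⟨κ / 1000 * q.1, κ / 1000 * q.2⟩ : ℂ) - w)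
    simpa only [Complex.sub_im] using this

/-- two closed sides without a common vertex -/
lemma sd_far {n n' : ℕ} (h1 : R.vert n ≠ R.vert n') (h2 : R.vert n ≠ R.vert (n' + 1))
    (h3 : R.vert (n + 1) ≠ R.vert n') (h4 : R.vert (n + 1) ≠ R.vert (n' + 1)) {a b : ℂ}
    (ha : a ∈ sdR R X Y n) (hb : b ∈ sdR R X Y n') : κ ≤ ‖a - b‖ := by
  have hmx := gapR_mono hX
  have hmy := gapR_mono hY
  -- separated indices give distance
  have key : ∀ {l : ℤ → ℝ}, GapR l κ → ∀ {i i' u v : ℤ}, i' < u → ∀ {s t : ℝ}, s ≤ l i' → l u ≤ t →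
      κ ≤ |s - t| ∧ κ ≤ |t - s| := by
    intro l hl i i' u v h s t hs ht
    have h5 := hl.gap i'
    have h6 := (gapR_mono hl).monotone (show i' + 1 ≤ u by omega)
    have hκ := hl.g0
    rw [abs_sub_comm t s]
    have : κ ≤ |s - t| := by
      rw [abs_of_neg (by linarith)]; linarith
    exact ⟨this, this⟩
  rw [mem_sd] at ha hb
  have nr := Complex.abs_re_le_norm (a - b)
  have ni := Complex.abs_im_le_norm (a - b)
  rw [Complex.sub_re] at nr
  rw [Complex.sub_im] at ni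
  obtain ⟨i, j, hc⟩ := vert_cases R n
  obtain ⟨i', j', hc'⟩ := vert_cases R n'
  -- index intervals
  obtain ⟨di, dj, hd, hai, haj, hv⟩ : ∃ di dj : ℤ, ((di = 1 ∧ dj = 0) ∨ (di = 0 ∧ dj = 1)) ∧
      (X i ≤ a.re ∧ a.re ≤ X (i + di)) ∧ (Y j ≤ a.im ∧ a.im ≤ Y (j + dj)) ∧
      ((R.vert n = (i, j) ∧ R.vert (n + 1) = (i + di, j + dj)) ∨
        (R.vert n = (i + di, j + dj) ∧ R.vert (n + 1) = (i, j))) := by
    have lx : X i < X (i + 1) := hmx (by omega)
    have ly : Y j < Y (j + 1) := hmy (by omega)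
    rcases hc with ⟨v1, v2⟩ | ⟨v1, v2⟩ | ⟨v1, v2⟩ | ⟨v1, v2⟩ <;> rw [v1, v2] at ha <;>
      simp only at ha <;> obtain ⟨r1, r2⟩ := ha
    · rw [Set.uIcc_of_le lx.le] at r1
      refine ⟨1, 0, Or.inl ⟨rfl, rfl⟩, r1, ?_, Or.inl ⟨v1, by rw [v2, add_zero]⟩⟩
      rw [Set.uIcc_self] at r2
      rw [add_zero, Set.mem_singleton_iff.1 r2]
      exact ⟨le_rfl, le_rfl⟩
    · rw [Set.uIcc_of_le ly.le] at r2
      refine ⟨0, 1, Or.inr ⟨rfl, rfl⟩, ?_, r2, Or.inl ⟨v1, by rw [v2, add_zero]⟩⟩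
      rw [Set.uIcc_self] at r1
      rw [add_zero, Set.mem_singleton_iff.1 r1]
      exact ⟨le_rfl, le_rfl⟩
    · rw [Set.uIcc_of_ge lx.le] at r1
      refine ⟨1, 0, Or.inl ⟨rfl, rfl⟩, r1, ?_, Or.inr ⟨by rw [v1, add_zero], v2⟩⟩
      rw [Set.uIcc_self] at r2
      rw [add_zero, Set.mem_singleton_iff.1 r2]
      exact ⟨le_rfl, le_rfl⟩
    · rw [Set.uIcc_of_ge ly.le] at r2
      refine ⟨0, 1, Or.inr ⟨rfl, rfl⟩, ?_, r2, Or.inr ⟨by rw [v1, add_zero], v2⟩⟩
      rw [Set.uIcc_self] at r1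
      rw [add_zero, Set.mem_singleton_iff.1 r1]
      exact ⟨le_rfl, le_rfl⟩
  obtain ⟨ei, ej, he, hbi, hbj, hv'⟩ : ∃ di dj : ℤ, ((di = 1 ∧ dj = 0) ∨ (di = 0 ∧ dj = 1)) ∧
      (X i' ≤ b.re ∧ b.re ≤ X (i' + di)) ∧ (Y j' ≤ b.im ∧ b.im ≤ Y (j' + dj)) ∧
      ((R.vert n' = (i', j') ∧ R.vert (n' + 1) = (i' + di, j' + dj)) ∨
        (R.vert n' = (i' + di, j' + dj) ∧ R.vert (n' + 1) = (i', j'))) := by
    have lx : X i' < X (i' + 1) := hmx (by omega)
    have ly : Y j' < Y (j' + 1) := hmy (by omega)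
    rcases hc' with ⟨v1, v2⟩ | ⟨v1, v2⟩ | ⟨v1, v2⟩ | ⟨v1, v2⟩ <;> rw [v1, v2] at hb <;>
      simp only at hb <;> obtain ⟨r1, r2⟩ := hb
    · rw [Set.uIcc_of_le lx.le] at r1
      refine ⟨1, 0, Or.inl ⟨rfl, rfl⟩, r1, ?_, Or.inl ⟨v1, by rw [v2, add_zero]⟩⟩
      rw [Set.uIcc_self] at r2
      rw [add_zero, Set.mem_singleton_iff.1 r2]
      exact ⟨le_rfl, le_rfl⟩
    · rw [Set.uIcc_of_le ly.le] at r2
      refine ⟨0, 1, Or.inr ⟨rfl, rfl⟩, ?_, r2, Or.inl ⟨v1, by rw [v2, add_zero]⟩⟩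
      rw [Set.uIcc_self] at r1
      rw [add_zero, Set.mem_singleton_iff.1 r1]
      exact ⟨le_rfl, le_rfl⟩
    · rw [Set.uIcc_of_ge lx.le] at r1
      refine ⟨1, 0, Or.inl ⟨rfl, rfl⟩, r1, ?_, Or.inr ⟨by rw [v1, add_zero], v2⟩⟩
      rw [Set.uIcc_self] at r2
      rw [add_zero, Set.mem_singleton_iff.1 r2]
      exact ⟨le_rfl, le_rfl⟩
    · rw [Set.uIcc_of_ge ly.le] at r2
      refine ⟨0, 1, Or.inr ⟨rfl, rfl⟩, ?_, r2, Or.inr ⟨by rw [v1, add_zero], v2⟩⟩
      rw [Set.uIcc_self] at r1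
      rw [add_zero, Set.mem_singleton_iff.1 r1]
      exact ⟨le_rfl, le_rfl⟩
  by_cases c1 : i + di < i'
  · exact (key hX (i := 0) (v := 0) c1 hai.2 hbi.1).1.trans nr
  by_cases c2 : i' + ei < i
  · exact (key hX (i := 0) (v := 0) c2 hbi.2 hai.1).2.trans nr
  by_cases c3 : j + dj < j'
  · exact (key hY (i := 0) (v := 0) c3 haj.2 hbj.1).1.trans ni
  by_cases c4 : j' + ej < j
  · exact (key hY (i := 0) (v := 0) c4 hbj.2 haj.1).2.trans ni
  exfalso
  -- a common vertex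
  have hcom : ((i, j) = (i', j') ∨ (i, j) = (i' + ei, j' + ej) ∨ (i + di, j + dj) = (i', j') ∨
      (i + di, j + dj) = (i' + ei, j' + ej)) := by
    simp only [Prod.mk.injEq]
    omega
  rcases hv with ⟨v1, v2⟩ | ⟨v1, v2⟩ <;> rcases hv' with ⟨v3, v4⟩ | ⟨v3, v4⟩ <;>
    rw [v1, v3] at h1 <;> rw [v1, v4] at h2 <;> rw [v2, v3] at h3 <;> rw [v2, v4] at h4 <;>
    rcases hcom with h | h | h | h <;>
    first | exact h1 h | exact h2 h | exact h3 h | exact h4 h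

end

end Pool.Agent.H57.W
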