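import Mathlib
import Pool.Agent.H57.W.Pos2

set_option autoImplicit false
open Finset

/-! # Position of the diamond polyomino (T5), III: the diamonds -/

namespace Pool.Agent.H57.W

open Pool.Agent.H75.Perc (dir dir_cases)
open Pool.Agent.Q1.M4 (Cell Good IsSide nextSide tail head PType pt Reg Om mem_Om rect mem_rect)
open Pool.Agent.H48.Q1 (fl fl_spec fl_eq fl_iff fl_step)
open Pool.Agent.H5.C3
open Pool.Agent.H5.FM (T0 OnS)
open Pool.Agent.H14.FM (ic)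
open Pool.Agent.H19.W (LZ LZ_bd LZ_mono LZ_gap InD mem_DD DD inD_T0 l2_e l2_o l2_e2 ic_mono)

lemma tri (u v w : ℂ) : ‖v - w‖ ≤ ‖u - v‖ + ‖u - w‖ := by
  have := norm_sub_le_norm_sub_add_norm_sub v u w
  rwa [norm_sub_rev v u] at this

/-- the point of a pair of integers -/
noncomputable def eP (κ : ℝ) (q : ℤ × ℤ) : ℂ := ⟨κ / 1000 * q.1, κ / 1000 * q.2⟩

lemma inD_abs {κ : ℝ} {c : Cell} {w : ℂ} (h : InD (κ / 1000) 0 c w) :
    |w.re - κ / 1000 * (ctr c).1| ≤ κ / 1000 ∧ |w.im - κ / 1000 * (ctr c).2| ≤ κ / 1000 ∧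
      ‖w - eP κ (ctr c)‖ ≤ κ / 1000 := by
  unfold InD at h
  simp only [Complex.zero_re, Complex.zero_im, sub_zero] at h
  have e1 : ((ctr c).1 : ℝ) = (c.1 : ℝ) - c.2 := by unfold ctr; push_cast; ring
  have e2 : ((ctr c).2 : ℝ) = (c.1 : ℝ) + c.2 + 1 := by unfold ctr; push_cast; ring
  rw [← e1, ← e2] at h
  have a1 := abs_nonneg (w.re - κ / 1000 * (ctr c).1)
  have a2 := abs_nonneg (w.im - κ / 1000 * (ctr c).2)
  refine ⟨by linarith, by linarith, ?_⟩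
  refine (Complex.norm_le_abs_re_add_abs_im _).trans ?_
  unfold eP
  simp only [Complex.sub_re, Complex.sub_im]
  exact h

/-- a closed side is in the closed diamonds of its two cells -/
lemma onS_inD {e : ℝ} (he : 0 < e) {σ : Cell × ℤ} {z : ℂ} (hz : OnS 1 σ z) :
    InD e 0 σ.1 (T0 e 0 z) ∧ InD e 0 (σ.1 + dir (σ.2 - 1)) (T0 e 0 z) := by
  rw [inD_T0 he, inD_T0 he, mem_rect, mem_rect]
  obtain ⟨⟨i, j⟩, k⟩ := σ
  unfold OnS at hz
  simp only [one_mul] at hz ⊢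
  rcases dir_cases (k - 1) with ⟨h, e⟩ | ⟨h, e⟩ | ⟨h, e⟩ | ⟨h, e⟩ <;> rw [e] <;>
    rcases hz with ⟨a, b, c, d⟩ | ⟨a, b, c, d⟩ | ⟨a, b, c, d⟩ | ⟨a, b, c, d⟩ <;>
    first
    | (exfalso; omega)
    | (simp only [Prod.fst_add, Prod.snd_add]
       push_cast
       refine ⟨⟨⟨?_, ?_⟩, ?_, ?_⟩, ⟨?_, ?_⟩, ?_, ?_⟩ <;> linarith)

lemma ctr_dg (σ : Cell × ℤ) : Dg (ctr σ.1) (ctr (σ.1 + dir (σ.2 - 1))) := by
  obtain ⟨⟨i, j⟩, k⟩ := σ
  unfold Dg ctr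
  simp only
  rcases dir_cases (k - 1) with ⟨h, e⟩ | ⟨h, e⟩ | ⟨h, e⟩ | ⟨h, e⟩ <;> rw [e] <;>
    simp only [Prod.mk_add_mk] <;> constructor <;> omega

section
variable {R : PType} {O : ℕ → Prop} {X Y : ℤ → ℝ} {κ : ℝ} (hX : GapR X κ) (hY : GapR Y κ)
include hX hY

/-- **Nearness.** -/
lemma pos_near {σ : Cell × ℤ} {n : ℕ} (h : eS (LZ X κ) (LZ Y κ) σ = R.vert n + R.vert n ∨
    eS (LZ X κ) (LZ Y κ) σ = R.vert n + R.vert (n + 1)) {z : ℂ} (hz : OnS 1 σ z) :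
    ∃ a ∈ sdR R X Y n, ‖T0 (κ / 1000) 0 z - a‖ ≤ κ / 4 := by
  have he : 0 < κ / 1000 := by have := hX.g0; positivity
  obtain ⟨h1, -⟩ := onS_inD he hz
  obtain ⟨a1, a2, -⟩ := inD_abs h1
  obtain ⟨d1, d2⟩ := ctr_dg σ
  exact near_el hX hY (p := ctr σ.1) (q := ctr (σ.1 + dir (σ.2 - 1))) (Or.inr d1) (Or.inr d2) h a1 a2

omit hX hY in
/-- the outer cell of a side at a pushed element has no neighbours in the polyomino -/
lemma out_nb {lx ly : ℤ → ℤ} (hx : StrictMono lx) (hy : StrictMono ly) {p q : ℤ × ℤ} (hd : Dg p q)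
    (hq : ¬ Ins R.Q (oOf R O) lx ly q) {n : ℕ}
    (h : (elm lx ly p q = R.vert n + R.vert n ∧
        ∀ n', (n' % R.N = n % R.N ∨ (n' + 1) % R.N = n % R.N) → O (n' % R.N)) ∨
      (elm lx ly p q = R.vert n + R.vert (n + 1) ∧ O (n % R.N)))
    {i j : ℤ} (hn : Nb (fl lx q.1) (fl ly q.2) i j) : (i, j) ∉ R.Q := by
  intro hi
  obtain ⟨n', hn', ho, hE⟩ := el_out hq hn hi
  have key : ∀ {l : ℤ → ℤ}, StrictMono l → ∀ {s t : ℤ}, (t = s + 1 ∨ t = s - 1) →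
      (fl l t = fl l s ∨ fl l t = fl l s + 1 ∨ fl l t = fl l s - 1) := by
    intro l hl s t hst
    rcases col_cases hl hst with h | ⟨h, -, -⟩ | ⟨h, -, -⟩
    · exact Or.inl h
    · exact Or.inr (Or.inl h)
    · exact Or.inr (Or.inr h)
  have ex := ev_near (key hx hd.1) rfl
  have ey := ev_near (key hy hd.2) rfl
  have e1 : ev (fl lx p.1) (fl lx q.1) = (elm lx ly p q).1 := rfl
  have e2 : ev (fl ly p.2) (fl ly q.2) = (elm lx ly p q).2 := rfl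
  rw [e1] at ex
  rw [e2] at ey
  obtain ⟨a, b, hv⟩ : ∃ a b, R.vert n = (a, b) := ⟨_, _, rfl⟩
  rcases h with ⟨h, hO⟩ | ⟨h, hO⟩
  · rw [h] at ex ey
    simp only [Prod.fst_add, Prod.snd_add, hv] at ex ey
    have ex' := (ex.1 (by omega)).1
    have ey' := (ey.1 (by omega)).1
    rcases hE with hE | hE
    · have c1 := congrArg Prod.fst hE
      have c2 := congrArg Prod.snd hE
      simp only [Prod.fst_add, Prod.snd_add] at c1 c2
      have : R.vert n' = R.vert n := by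
        rw [hv]; exact Prod.ext (by simp only; omega) (by simp only; omega)
      have := hO n' (Or.inl (vert_inj this))
      rw [Nat.mod_eq_of_lt hn'] at this
      exact ho this
    · have c1 := congrArg Prod.fst hE
      have c2 := congrArg Prod.snd hE
      obtain ⟨u, v, hc⟩ := vert_cases R n'
      have : R.vert n' = R.vert n ∨ R.vert (n' + 1) = R.vert n := by
        rw [hv]
        rcases hc with ⟨v1, v2⟩ | ⟨v1, v2⟩ | ⟨v1, v2⟩ | ⟨v1, v2⟩ <;> rw [v1, v2] at c1 c2 ⊢ <;>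
          simp only [Prod.fst_add, Prod.snd_add] at c1 c2 <;> simp only [Prod.mk.injEq] <;> omega
      have := hO n' (this.imp vert_inj vert_inj)
      rw [Nat.mod_eq_of_lt hn'] at this
      exact ho this
  · obtain ⟨u, v, hc⟩ := vert_cases R n
    obtain ⟨u', v', hc'⟩ := vert_cases R n'
    have hadd : ∃ x y : ℤ, elm lx ly p q = (x, y) ∧ ((x % 2 = 0 ∧ y % 2 = 1) ∨ (x % 2 = 1 ∧ y % 2 = 0)) := by
      rw [h]
      rcases hc with ⟨v1, v2⟩ | ⟨v1, v2⟩ | ⟨v1, v2⟩ | ⟨v1, v2⟩ <;> rw [v1, v2] <;>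
        exact ⟨_, _, rfl, by omega⟩
    obtain ⟨x, y, hxy, hpar⟩ := hadd
    rw [hxy] at ex ey
    simp only at ex ey
    have hEq : ((fl lx q.1, fl ly q.2) : ℤ × ℤ) = (x, y) := by
      rcases hE with hE | hE
      · exfalso
        have c1 := congrArg Prod.fst hE
        have c2 := congrArg Prod.snd hE
        simp only [Prod.fst_add, Prod.snd_add] at c1 c2
        rcases hpar with ⟨p1, p2⟩ | ⟨p1, p2⟩
        · have := (ey.2 p2).1; omega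
        · have := (ex.2 p1).1; omega
      · have c1 := congrArg Prod.fst hE
        have c2 := congrArg Prod.snd hE
        simp only [Prod.fst_add, Prod.snd_add] at c1 c2
        have hp' : ((fl lx q.1) % 2 = 0 ∧ (fl ly q.2) % 2 = 1) ∨
            ((fl lx q.1) % 2 = 1 ∧ (fl ly q.2) % 2 = 0) := by
          rcases hc' with ⟨v1, v2⟩ | ⟨v1, v2⟩ | ⟨v1, v2⟩ | ⟨v1, v2⟩ <;> rw [v1, v2] at c1 c2 <;>
            simp only at c1 c2 <;> omega
        rcases hpar with ⟨p1, p2⟩ | ⟨p1, p2⟩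
        · have g1 := (ey.2 p2).1
          have g2 := (ex.1 p1).1
          exact Prod.ext (by simp only; omega) g1
        · have g1 := (ex.2 p1).1
          have g2 := (ey.1 p2).1
          exact Prod.ext g1 (by simp only; omega)
    rcases hE with hE | hE
    · rw [hEq] at hE
      have c1 := congrArg Prod.fst hE
      have c2 := congrArg Prod.snd hE
      simp only [Prod.fst_add, Prod.snd_add] at c1 c2
      omega
    · rw [hEq, ← hxy, h] at hE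
      have := el_inj hE
      rw [this, Nat.mod_eq_of_lt hn'] at hO
      exact ho hO

/-- **Farness.** -/
lemma pos_far {σ : Cell × ℤ} (hσ : IsSide (Dq R.Q (oOf R O) (LZ X κ) (LZ Y κ)) σ) {n : ℕ}
    (h : (eS (LZ X κ) (LZ Y κ) σ = R.vert n + R.vert n ∧
        ∀ n', (n' % R.N = n % R.N ∨ (n' + 1) % R.N = n % R.N) → O (n' % R.N)) ∨
      (eS (LZ X κ) (LZ Y κ) σ = R.vert n + R.vert (n + 1) ∧ O (n % R.N))) {z : ℂ}
    (hz : OnS 1 σ z) : ∀ w ∈ Reg R.Q X Y, κ / 20 ≤ ‖T0 (κ / 1000) 0 z - w‖ := by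
  have hκ := hX.g0
  have he : 0 < κ / 1000 := by positivity
  rintro w ⟨⟨i, j⟩, hc, hw⟩
  obtain ⟨-, h1⟩ := onS_inD he hz
  obtain ⟨-, -, a3⟩ := inD_abs h1
  have hq : ¬ Ins R.Q (oOf R O) (LZ X κ) (LZ Y κ) (ctr (σ.1 + dir (σ.2 - 1))) := by
    rw [← mem_Dq (LZ_mono hX) (LZ_mono hY)]
    exact hσ.2
  have h2 : ¬ Nb (fl (LZ X κ) (ctr (σ.1 + dir (σ.2 - 1))).1)
      (fl (LZ Y κ) (ctr (σ.1 + dir (σ.2 - 1))).2) i j := fun hn =>
    out_nb (LZ_mono hX) (LZ_mono hY) (ctr_dg σ) hq h hn hc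
  have h3 := far_reg hX hY h2 hw
  have h4 := tri (T0 (κ / 1000) 0 z) (eP κ (ctr (σ.1 + dir (σ.2 - 1)))) w
  have h5 : ‖eP κ (ctr (σ.1 + dir (σ.2 - 1))) - w‖ = ‖(⟨κ / 1000 *
    (ctr (σ.1 + dir (σ.2 - 1))).1, κ / 1000 * (ctr (σ.1 + dir (σ.2 - 1))).2⟩ : ℂ) - w‖ := rfl
  linarith

/-- **Covering from outside.** -/
lemma pos_cov {z w : ℂ} (hw : w ∈ Reg R.Q X Y) (h : ‖T0 (κ / 1000) 0 z - w‖ < κ / 20)
    (hz : z ∉ Om (Dq R.Q (oOf R O) (LZ X κ) (LZ Y κ)) ic ic) :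
    ∃ n < R.N, ¬ O n ∧ ∃ a ∈ sdR R X Y n, ‖T0 (κ / 1000) 0 z - a‖ ≤ κ / 4 := by
  have hκ := hX.g0
  have he : 0 < κ / 1000 := by positivity
  obtain ⟨c, hc1, hc2⟩ : ∃ c, InD (κ / 1000) 0 c (T0 (κ / 1000) 0 z) ∧
      c ∉ Dq R.Q (oOf R O) (LZ X κ) (LZ Y κ) := by
    by_contra hcon
    push Not at hcon
    have h1 := (mem_DD (S := Dq R.Q (oOf R O) (LZ X κ) (LZ Y κ)) (z1 := 0) he).2 hcon
    obtain ⟨z', hz', e⟩ := h1
    apply hz
    have : z' = z := by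
      rw [← Pool.Agent.H19.W.T0i_T0 he z' (z1 := 0), e, Pool.Agent.H19.W.T0i_T0 he]
    rw [← this]
    exact hz'
  obtain ⟨a1, a2, a3⟩ := inD_abs hc1
  rw [mem_Dq (LZ_mono hX) (LZ_mono hY)] at hc2
  obtain ⟨⟨i, j⟩, hi, hwr⟩ := hw
  have hn : Nb (fl (LZ X κ) (ctr c).1) (fl (LZ Y κ) (ctr c).2) i j := by
    by_contra hn
    have h3 := far_reg hX hY hn hwr
    have h4 := tri (T0 (κ / 1000) 0 z) (eP κ (ctr c)) w
    have h5 : ‖eP κ (ctr c) - w‖ = ‖(⟨κ / 1000 * (ctr c).1, κ / 1000 * (ctr c).2⟩ : ℂ) - w‖ := rfl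
    linarith
  obtain ⟨n, hn1, hn2, hE⟩ := el_out hc2 hn hi
  refine ⟨n, hn1, hn2, near_el hX hY (p := ctr c) (q := ctr c) (Or.inl rfl) (Or.inl rfl) ?_ a1 a2⟩
  have e : ∀ a : ℤ, ev a a = a := fun a => by unfold ev; split_ifs <;> rfl
  unfold elm
  simp only [e]
  exact hE

/-- **Covering from inside.** -/
lemma pos_in {z w : ℂ} (hz : z ∈ Reg (Dq R.Q (oOf R O) (LZ X κ) (LZ Y κ)) ic ic)
    (h : ‖w - T0 (κ / 1000) 0 z‖ < κ / 20) (hw : w ∉ Om R.Q X Y) :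
    ∃ n < R.N, O n ∧ ∃ a ∈ sdR R X Y n, ‖T0 (κ / 1000) 0 z - a‖ ≤ κ / 4 := by
  have hκ := hX.g0
  have he : 0 < κ / 1000 := by positivity
  rw [norm_sub_rev] at h
  obtain ⟨c, hc, hzc⟩ := hz
  have hc1 : InD (κ / 1000) 0 c (T0 (κ / 1000) 0 z) := (inD_T0 he c z).2 hzc
  obtain ⟨a1, a2, a3⟩ := inD_abs hc1
  rw [mem_Dq (LZ_mono hX) (LZ_mono hY)] at hc
  obtain ⟨i, j, hi, hwr⟩ : ∃ i j, (i, j) ∉ R.Q ∧ w ∈ rect X Y (i, j) := by
    rw [mem_Om (gapR_mono hX) (gapR_mono hY), not_and_or] at hw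
    rcases hw with hw | hw
    · obtain ⟨i, i1, i2⟩ := exists_int_le hX w.re
      obtain ⟨j, j1, j2⟩ := exists_int_le hY w.im
      have hr : w ∈ rect X Y (i, j) := ⟨⟨i1, i2⟩, j1, j2⟩
      exact ⟨i, j, fun hc => hw ⟨_, hc, hr⟩, hr⟩
    · push Not at hw
      obtain ⟨⟨i, j⟩, h1, h2⟩ := hw
      exact ⟨i, j, h2, h1⟩
  have hn : Nb (fl (LZ X κ) (ctr c).1) (fl (LZ Y κ) (ctr c).2) i j := by
    by_contra hn
    have h3 := far_reg hX hY hn hwr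
    have h4 := tri (T0 (κ / 1000) 0 z) (eP κ (ctr c)) w
    have h5 : ‖eP κ (ctr c) - w‖ = ‖(⟨κ / 1000 * (ctr c).1, κ / 1000 * (ctr c).2⟩ : ℂ) - w‖ := rfl
    linarith
  obtain ⟨n, hn1, hn2, hE⟩ := el_in hc hn hi
  refine ⟨n, hn1, hn2, near_el hX hY (p := ctr c) (q := ctr c) (Or.inl rfl) (Or.inl rfl) ?_ a1 a2⟩
  have e : ∀ a : ℤ, ev a a = a := fun a => by unfold ev; split_ifs <;> rfl
  unfold elm
  simp only [e]
  exact hE

/-- **Distance from a side between sides which are not pushed out.** -/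
lemma pos_arc {z a : ℂ} (hz : z ∈ Reg (Dq R.Q (oOf R O) (LZ X κ) (LZ Y κ)) ic ic) {n : ℕ}
    (ha : a ∈ sdR R X Y n) (h1 : ¬ O (n % R.N)) (h2 : ¬ O ((n + 1) % R.N)) :
    κ / 20 ≤ ‖T0 (κ / 1000) 0 z - a‖ := by
  have hκ := hX.g0
  have he : 0 < κ / 1000 := by positivity
  obtain ⟨c, hc, hzc⟩ := hz
  have hc1 : InD (κ / 1000) 0 c (T0 (κ / 1000) 0 z) := (inD_T0 he c z).2 hzc
  obtain ⟨-, -, a3⟩ := inD_abs hc1
  rw [mem_Dq (LZ_mono hX) (LZ_mono hY)] at hc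
  by_contra hcon
  push Not at hcon
  have h4 := tri (T0 (κ / 1000) 0 z) (eP κ (ctr c)) a
  have h5 : ‖eP κ (ctr c) - a‖ < κ / 10 := by linarith
  have hre := (Complex.abs_re_le_norm (eP κ (ctr c) - a)).trans_lt h5
  have him := (Complex.abs_im_le_norm (eP κ (ctr c) - a)).trans_lt h5
  have r1 : |κ / 1000 * ((ctr c).1 : ℝ) - a.re| < κ / 10 := hre
  have r2 : |κ / 1000 * ((ctr c).2 : ℝ) - a.im| < κ / 10 := him
  -- the doubled cell is the edge or one of its vertices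
  have hE : IsEl R (fl (LZ X κ) (ctr c).1) (fl (LZ Y κ) (ctr c).2) n ∨
      ((fl (LZ X κ) (ctr c).1, fl (LZ Y κ) (ctr c).2) : ℤ × ℤ) =
        R.vert (n + 1) + R.vert (n + 1) := by
    have nx : ∀ i, a.re = X i → fl (LZ X κ) (ctr c).1 = 2 * i := fun i e =>
      near_even hX (by rwa [e] at r1)
    have ny : ∀ i, a.im = Y i → fl (LZ Y κ) (ctr c).2 = 2 * i := fun i e =>
      near_even hY (by rwa [e] at r2)
    have bx : ∀ i, X i ≤ a.re → a.re ≤ X (i + 1) →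
        2 * i ≤ fl (LZ X κ) (ctr c).1 ∧ fl (LZ X κ) (ctr c).1 ≤ 2 * i + 2 := by
      intro i g1 g2
      by_contra hn
      have := far1 hX hn g1 g2
      linarith
    have by' : ∀ i, Y i ≤ a.im → a.im ≤ Y (i + 1) →
        2 * i ≤ fl (LZ Y κ) (ctr c).2 ∧ fl (LZ Y κ) (ctr c).2 ≤ 2 * i + 2 := by
      intro i g1 g2
      by_contra hn
      have := far1 hY hn g1 g2
      linarith
    rw [mem_sd] at ha
    obtain ⟨i, j, hc⟩ := vert_cases R n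
    have lx : X i < X (i + 1) := gapR_mono hX (by omega)
    have ly : Y j < Y (j + 1) := gapR_mono hY (by omega)
    unfold IsEl
    rcases hc with ⟨v1, v2⟩ | ⟨v1, v2⟩ | ⟨v1, v2⟩ | ⟨v1, v2⟩ <;> rw [v1, v2] at ha ⊢ <;>
      simp only at ha <;> obtain ⟨s1, s2⟩ := ha <;>
      simp only [Prod.mk_add_mk, Prod.mk.injEq]
    · rw [Set.uIcc_of_le lx.le] at s1
      rw [Set.uIcc_self] at s2
      have k1 := bx i s1.1 s1.2
      have k2 := ny j (Set.mem_singleton_iff.1 s2)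
      omega
    · rw [Set.uIcc_of_le ly.le] at s2
      rw [Set.uIcc_self] at s1
      have k1 := by' j s2.1 s2.2
      have k2 := nx i (Set.mem_singleton_iff.1 s1)
      omega
    · rw [Set.uIcc_of_ge lx.le] at s1
      rw [Set.uIcc_self] at s2
      have k1 := bx i s1.1 s1.2
      have k2 := ny j (Set.mem_singleton_iff.1 s2)
      omega
    · rw [Set.uIcc_of_ge ly.le] at s2
      rw [Set.uIcc_self] at s1
      have k1 := by' j s2.1 s2.2
      have k2 := nx i (Set.mem_singleton_iff.1 s1)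
      omega
  rcases hE with hE | hE
  · exact h1 ((Mm_el hE).1 hc)
  · exact h2 ((Mm_vert (n + 1)).1 (hE ▸ hc))

end

end Pool.Agent.H57.W
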