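import Mathlib
import Pool.Agent.H57.W.Pos3

set_option autoImplicit false
open Finset

/-! # Position of the diamond polyomino (T5), IV: the refined sides and `StPos` -/

namespace Pool.Agent.H57.W

open Pool.Agent.H75.Perc (dir dir_cases)
open Pool.Agent.Q1.M4 (Cell Good IsSide nextSide tail head PType pt Reg Om mem_Om rect mem_rect
  Eqv dir_congr Om_subset)
open Pool.Agent.H48.Q1 (fl fl_spec fl_eq fl_iff fl_step vm)
open Pool.Agent.H5.C3
open Pool.Agent.H5.FM (T0 OnS UpG LoG)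
open Pool.Agent.H14.FM (ic)
open Pool.Agent.H21.FM (Shape)
open Pool.Agent.H19.W (LZ l5_gap)

/-! ### Periodicity -/

section per
variable {R : PType} {X Y : ℤ → ℝ}

lemma vert_mod (n : ℕ) : R.vert (n % R.N) = R.vert n := (tail_congr (eqv_mod n)).symm

lemma vert_mod_succ (n : ℕ) : R.vert (n % R.N + 1) = R.vert (n + 1) := by
  rw [R.vert_succ, R.vert_succ, vert_mod, dir_congr (eqv_mod n).2]

lemma sdR_mod (n : ℕ) : sdR R X Y (n % R.N) = sdR R X Y n := by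
  unfold sdR
  rw [vert_mod, vert_mod_succ]

lemma sdR_add (n : ℕ) : sdR R X Y (n + R.N) = sdR R X Y n := by
  rw [← sdR_mod n, ← sdR_mod (n + R.N), Nat.add_mod_right]

lemma mem_sd_of_sidePt {n : ℕ} {t : ℝ} (ht : t ∈ Set.Icc (0 : ℝ) 1) :
    R.sidePt X Y n t ∈ sdR R X Y n := by
  unfold sdR
  rw [segment_eq_image']
  exact ⟨t, ht, rfl⟩

end per

/-! ### The sides of the refined type -/

section ref5
variable {P : PType} {x y : ℤ → ℝ} {g κ : ℝ}

lemma P5_vert' (n r : ℕ) (hr : r ≤ 5) : (P5 P).vert (5 * n + r) =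
    (5 * (P.vert n).1 + r * ((P.vert (n + 1)).1 - (P.vert n).1),
      5 * (P.vert n).2 + r * ((P.vert (n + 1)).2 - (P.vert n).2)) := by
  rw [P5_vert P hr, P.vert_succ]
  unfold vm m5
  ext
  · simp
  · simp

/-- one coordinate -/
lemma sub5 {L : ℤ → ℝ} (hL : Monotone L) {a d : ℤ} (hd : d = 0 ∨ d = 1 ∨ d = -1) {r : ℕ}
    (hr : r < 5) : Set.uIcc (L (a + r * d)) (L (a + ((r + 1 : ℕ) : ℤ) * d)) ⊆
      Set.uIcc (L a) (L (a + 5 * d)) := by
  rcases hd with rfl | rfl | rfl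
  · simp
  · have h0 : L a ≤ L (a + r * 1) := hL (by omega)
    have h1 : L (a + r * 1) ≤ L (a + ((r + 1 : ℕ) : ℤ) * 1) := hL (by push_cast; omega)
    have h2 : L (a + ((r + 1 : ℕ) : ℤ) * 1) ≤ L (a + 5 * 1) := hL (by push_cast; omega)
    rw [Set.uIcc_of_le h1, Set.uIcc_of_le (h0.trans (h1.trans h2))]
    exact Set.Icc_subset_Icc h0 h2
  · have h0 : L (a + r * -1) ≤ L a := hL (by omega)
    have h1 : L (a + ((r + 1 : ℕ) : ℤ) * -1) ≤ L (a + r * -1) := hL (by push_cast; omega)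
    have h2 : L (a + 5 * -1) ≤ L (a + ((r + 1 : ℕ) : ℤ) * -1) := hL (by push_cast; omega)
    rw [Set.uIcc_of_ge h1, Set.uIcc_of_ge (h2.trans (h1.trans h0))]
    exact Set.Icc_subset_Icc h2 h0

lemma cov5 {L : ℤ → ℝ} (hL : Monotone L) {a d : ℤ} (hd : d = 1 ∨ d = -1) {s : ℝ}
    (hs : s ∈ Set.uIcc (L a) (L (a + 5 * d))) :
    ∃ r < 5, s ∈ Set.uIcc (L (a + (r : ℕ) * d)) (L (a + ((r + 1 : ℕ) : ℤ) * d)) := by
  by_contra hc
  push Not at hc
  have h0 := hc 0 (by norm_num)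
  have h1 := hc 1 (by norm_num)
  have h2 := hc 2 (by norm_num)
  have h3 := hc 3 (by norm_num)
  have h4 := hc 4 (by norm_num)
  push_cast at h0 h1 h2 h3 h4
  rcases hd with rfl | rfl
  · have m0 : L a ≤ L (a + 1) := hL (by omega)
    have m1 : L (a + 1) ≤ L (a + 2) := hL (by omega)
    have m2 : L (a + 2) ≤ L (a + 3) := hL (by omega)
    have m3 : L (a + 3) ≤ L (a + 4) := hL (by omega)
    have m4 : L (a + 4) ≤ L (a + 5) := hL (by omega)
    norm_num at h0 h1 h2 h3 h4 hs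
    rw [Set.mem_uIcc] at h0 h1 h2 h3 h4 hs
    push Not at h0 h1 h2 h3 h4
    rcases hs with ⟨s1, s2⟩ | ⟨s1, s2⟩
    · have k0 := h0.1 s1
      have k1 := h1.1 k0.le
      have k2 := h2.1 k1.le
      have k3 := h3.1 k2.le
      have k4 := h4.1 k3.le
      linarith
    · have k0 := h0.1 (by linarith)
      linarith
  · have m0 : L (a - 1) ≤ L a := hL (by omega)
    have m1 : L (a - 2) ≤ L (a - 1) := hL (by omega)
    have m2 : L (a - 3) ≤ L (a - 2) := hL (by omega)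
    have m3 : L (a - 4) ≤ L (a - 3) := hL (by omega)
    have m4 : L (a - 5) ≤ L (a - 4) := hL (by omega)
    norm_num at h0 h1 h2 h3 h4 hs
    simp only [← sub_eq_add_neg] at h0 h1 h2 h3 h4 hs
    rw [Set.mem_uIcc] at h0 h1 h2 h3 h4 hs
    push Not at h0 h1 h2 h3 h4
    rcases hs with ⟨s1, s2⟩ | ⟨s1, s2⟩
    · by_contra
      have k0 : s < L (a - 1) := by
        by_contra hq
        have := h0.2 (by linarith)
        linarith
      linarith
    · have k0 : s < L (a - 1) := by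
        by_contra hq
        have := h0.2 (by linarith)
        linarith
      have k1 : s < L (a - 2) := by
        by_contra hq
        have := h1.2 (by linarith)
        linarith
      have k2 : s < L (a - 3) := by
        by_contra hq
        have := h2.2 (by linarith)
        linarith
      have k3 : s < L (a - 4) := by
        by_contra hq
        have := h3.2 (by linarith)
        linarith
      have := h4.2 (by linarith)
      linarith

variable (hx : GapR x g) (hy : GapR y g) (hκ : 0 < κ) (hg : 5 * κ ≤ g)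
include hx hy hκ hg

lemma sd5_sub {n r : ℕ} (hr : r < 5) :
    sdR (P5 P) (l5 x κ) (l5 y κ) (5 * n + r) ⊆ sdR P x y n := by
  intro z hz
  rw [mem_sd] at hz ⊢
  rw [P5_vert' n r hr.le, show 5 * n + r + 1 = 5 * n + (r + 1) by ring,
    P5_vert' n (r + 1) (by omega)] at hz
  have mx := (gapR_mono (l5_gap hx hκ hg)).monotone
  have my := (gapR_mono (l5_gap hy hκ hg)).monotone
  obtain ⟨z1, z2⟩ := hz
  simp only at z1 z2
  obtain ⟨i, j, hc⟩ := vert_cases P n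
  have hd : ((P.vert (n + 1)).1 - (P.vert n).1 = 0 ∨ (P.vert (n + 1)).1 - (P.vert n).1 = 1 ∨
      (P.vert (n + 1)).1 - (P.vert n).1 = -1) ∧ ((P.vert (n + 1)).2 - (P.vert n).2 = 0 ∨
      (P.vert (n + 1)).2 - (P.vert n).2 = 1 ∨ (P.vert (n + 1)).2 - (P.vert n).2 = -1) := by
    rcases hc with ⟨v1, v2⟩ | ⟨v1, v2⟩ | ⟨v1, v2⟩ | ⟨v1, v2⟩ <;> rw [v1, v2] <;> simp only <;> omega
  have k1 := sub5 mx hd.1 hr z1
  have k2 := sub5 my hd.2 hr z2
  rw [show 5 * (P.vert n).1 + 5 * ((P.vert (n + 1)).1 - (P.vert n).1) =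
    m5 (P.vert (n + 1)).1 by unfold m5; ring, show 5 * (P.vert n).1 = m5 (P.vert n).1 from rfl,
    l5_m5, l5_m5] at k1
  rw [show 5 * (P.vert n).2 + 5 * ((P.vert (n + 1)).2 - (P.vert n).2) =
    m5 (P.vert (n + 1)).2 by unfold m5; ring, show 5 * (P.vert n).2 = m5 (P.vert n).2 from rfl,
    l5_m5, l5_m5] at k2
  exact ⟨k1, k2⟩

lemma sd5_cov {n : ℕ} {z : ℂ} (hz : z ∈ sdR P x y n) :
    ∃ r < 5, z ∈ sdR (P5 P) (l5 x κ) (l5 y κ) (5 * n + r) := by
  have mx := (gapR_mono (l5_gap hx hκ hg)).monotone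
  have my := (gapR_mono (l5_gap hy hκ hg)).monotone
  rw [mem_sd] at hz
  obtain ⟨z1, z2⟩ := hz
  rw [← l5_m5 x κ, ← l5_m5 x κ (P.vert (n + 1)).1] at z1
  rw [← l5_m5 y κ, ← l5_m5 y κ (P.vert (n + 1)).2] at z2
  rw [show m5 (P.vert (n + 1)).1 = m5 (P.vert n).1 + 5 * ((P.vert (n + 1)).1 - (P.vert n).1) by
    unfold m5; ring] at z1
  rw [show m5 (P.vert (n + 1)).2 = m5 (P.vert n).2 + 5 * ((P.vert (n + 1)).2 - (P.vert n).2) by
    unfold m5; ring] at z2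
  have hd : (((P.vert (n + 1)).1 - (P.vert n).1 = 1 ∨ (P.vert (n + 1)).1 - (P.vert n).1 = -1) ∧
      (P.vert (n + 1)).2 - (P.vert n).2 = 0) ∨ (((P.vert (n + 1)).2 - (P.vert n).2 = 1 ∨
      (P.vert (n + 1)).2 - (P.vert n).2 = -1) ∧ (P.vert (n + 1)).1 - (P.vert n).1 = 0) := by
    obtain ⟨i, j, hc⟩ := vert_cases P n
    rcases hc with ⟨v1, v2⟩ | ⟨v1, v2⟩ | ⟨v1, v2⟩ | ⟨v1, v2⟩ <;> rw [v1, v2] <;> simp only <;> omega
  rcases hd with ⟨d1, d2⟩ | ⟨d1, d2⟩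
  · obtain ⟨r, hr, h⟩ := cov5 mx d1 z1
    refine ⟨r, hr, ?_⟩
    rw [mem_sd, P5_vert' n r hr.le, show 5 * n + r + 1 = 5 * n + (r + 1) by ring,
      P5_vert' n (r + 1) (by omega)]
    refine ⟨h, ?_⟩
    simp only [d2, mul_zero, add_zero] at z2 ⊢
    exact z2
  · obtain ⟨r, hr, h⟩ := cov5 my d1 z2
    refine ⟨r, hr, ?_⟩
    rw [mem_sd, P5_vert' n r hr.le, show 5 * n + r + 1 = 5 * n + (r + 1) by ring,
      P5_vert' n (r + 1) (by omega)]
    refine ⟨?_, h⟩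
    simp only [d2, mul_zero, add_zero] at z1 ⊢
    exact z1

lemma arc5 {a b : ℕ} {z : ℂ} : z ∈ arR P x y a b ↔
    ∃ k, 5 * a ≤ k ∧ k < 5 * b ∧ z ∈ sdR (P5 P) (l5 x κ) (l5 y κ) k := by
  unfold arR
  rw [Set.mem_iUnion₂]
  constructor
  · rintro ⟨n, ⟨h1, h2⟩, hz⟩
    obtain ⟨r, hr, h⟩ := sd5_cov hx hy hκ hg hz
    exact ⟨5 * n + r, by omega, by omega, h⟩
  · rintro ⟨k, h1, h2, hz⟩
    refine ⟨k / 5, ⟨by omega, by omega⟩, ?_⟩
    have e : k = 5 * (k / 5) + k % 5 := by omega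
    rw [e] at hz
    exact sd5_sub hx hy hκ hg (by omega) hz

end ref5

/-! ### Neighbourhoods -/

/-- neighbourhood of the sides `r1, …, r2` -/
def NNd (R : PType) (X Y : ℤ → ℝ) (κ : ℝ) (r1 r2 : ℕ) : Set ℂ :=
  {u | ∃ k, r1 ≤ k ∧ k ≤ r2 ∧ ∃ a ∈ sdR R X Y k, ‖u - a‖ ≤ κ / 4}

section nn
variable {R : PType} {X Y : ℤ → ℝ} {κ : ℝ} (hX : GapR X κ) (hY : GapR Y κ)
include hX hY

lemma nn_sep {r1 r2 s1 s2 : ℕ} (h : ∀ k k', r1 ≤ k → k ≤ r2 + 1 → s1 ≤ k' → k' ≤ s2 + 1 →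
    k % R.N ≠ k' % R.N) {z w : ℂ} (hz : z ∈ NNd R X Y κ r1 r2) (hw : w ∈ NNd R X Y κ s1 s2) :
    κ / 20 ≤ ‖z - w‖ := by
  obtain ⟨k, k1, k2, a, ha, hza⟩ := hz
  obtain ⟨k', k1', k2', b, hb, hwb⟩ := hw
  have hκ := hX.g0
  have h1 := sd_far hX hY (n := k) (n' := k')
    (fun e => h k k' (by omega) (by omega) (by omega) (by omega) (vert_inj e))
    (fun e => h k (k' + 1) (by omega) (by omega) (by omega) (by omega) (vert_inj e))
    (fun e => h (k + 1) k' (by omega) (by omega) (by omega) (by omega) (vert_inj e))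
    (fun e => h (k + 1) (k' + 1) (by omega) (by omega) (by omega) (by omega) (vert_inj e)) ha hb
  have h2 := tri z a b
  have h3 := norm_sub_le_norm_sub_add_norm_sub z w b
  linarith

lemma nn_front {r1 r2 k' : ℕ} (h : ∀ k, r1 ≤ k → k ≤ r2 + 1 → k % R.N ≠ k' % R.N ∧
    k % R.N ≠ (k' + 1) % R.N) {p z : ℂ} (hz : z ∈ NNd R X Y κ r1 r2) (hp : p ∈ sdR R X Y k') :
    κ / 20 ≤ ‖p - z‖ := by
  obtain ⟨k, k1, k2, a, ha, hza⟩ := hz
  have hκ := hX.g0
  have h1 := sd_far hX hY (n := k) (n' := k')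
    (fun e => (h k (by omega) (by omega)).1 (vert_inj e))
    (fun e => (h k (by omega) (by omega)).2 (vert_inj e))
    (fun e => (h (k + 1) (by omega) (by omega)).1 (vert_inj e))
    (fun e => (h (k + 1) (by omega) (by omega)).2 (vert_inj e)) ha hp
  have h2 := tri z a p
  rw [norm_sub_rev z p] at h2
  linarith

end nn

lemma mod_two {N k : ℕ} (hk : k < 2 * N) : (k < N ∧ k % N = k) ∨ (N ≤ k ∧ k % N = k - N) := by
  rcases lt_or_ge k N with h | h
  · exact Or.inl ⟨h, Nat.mod_eq_of_lt h⟩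
  · refine Or.inr ⟨h, ?_⟩
    rw [Nat.mod_eq_sub_mod h, Nat.mod_eq_of_lt (by omega)]

end Pool.Agent.H57.W
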