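import Mathlib
import Pool.Agent.H57.W.Pos4

set_option autoImplicit false
open Finset

/-! # Position of the diamond polyomino (T5): `StPos` -/

namespace Pool.Agent.H57.W

open Pool.Agent.H75.Perc (dir dir_cases)
open Pool.Agent.Q1.M4 (Cell Good IsSide nextSide tail head PType pt Reg Om mem_Om rect mem_rect
  Eqv dir_congr Om_subset)
open Pool.Agent.H5.C3
open Pool.Agent.H5.FM (T0 OnS UpG LoG)
open Pool.Agent.H14.FM (ic)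
open Pool.Agent.H21.FM (Shape)
open Pool.Agent.H19.W (LZ l5_gap)

/-! ### Values of the labels -/

section labels
variable {N n1 n2 m n : ℕ} (h0 : 0 < n1) (h1 : n1 < n2) (h2 : n2 < m) (h3 : m < N)
include h0 h1 h2 h3

lemma AU_lab (n : ℕ) : ∃ q t : ℕ, n % (5 * N) = t ∧ t < 5 * N ∧
    ((t ≤ 1 ∧ AU N n1 n2 m n = 4 * q - 1) ∨
      ((2 ≤ t ∧ t ≤ 5 * n1 - 2) ∧ AU N n1 n2 m n = 4 * q) ∨
      ((5 * n1 - 1 ≤ t ∧ t ≤ 5 * n2 + 1) ∧ AU N n1 n2 m n = 4 * q + 1) ∨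
      ((5 * n2 + 2 ≤ t ∧ t ≤ 5 * m - 2) ∧ AU N n1 n2 m n = 4 * q + 2) ∨
      ((5 * m - 1 ≤ t) ∧ AU N n1 n2 m n = 4 * q + 3)) := by
  refine ⟨n / (5 * N), n % (5 * N), rfl, Nat.mod_lt _ (by omega), ?_⟩
  unfold AU mk4
  have ht : n % (5 * N) < 5 * N := Nat.mod_lt _ (by omega)
  generalize n % (5 * N) = t at *
  generalize n / (5 * N) = q at *
  split_ifs <;> omega

lemma AL_lab (n : ℕ) : ∃ q t : ℕ, n % (5 * N) = t ∧ t < 5 * N ∧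
    ((t ≤ 5 * n1 + 1 ∧ AL N n1 n2 m n = 4 * q) ∨
      ((5 * n1 + 2 ≤ t ∧ t ≤ 5 * n2 - 2) ∧ AL N n1 n2 m n = 4 * q + 1) ∨
      ((5 * n2 - 1 ≤ t ∧ t ≤ 5 * m + 1) ∧ AL N n1 n2 m n = 4 * q + 2) ∨
      ((5 * m + 2 ≤ t ∧ t ≤ 5 * N - 2) ∧ AL N n1 n2 m n = 4 * q + 3) ∨
      ((5 * N - 1 ≤ t) ∧ AL N n1 n2 m n = 4 * q + 4)) := by
  refine ⟨n / (5 * N), n % (5 * N), rfl, Nat.mod_lt _ (by omega), ?_⟩
  unfold AL mk4
  have ht : n % (5 * N) < 5 * N := Nat.mod_lt _ (by omega)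
  generalize n % (5 * N) = t at *
  generalize n / (5 * N) = q at *
  split_ifs <;> omega

end labels

/-- `(n + 1) % M` from `n % M` -/
lemma mod_succ' {M n : ℕ} (hM : 0 < M) : ((n + 1) % M = n % M + 1 ∧ n % M + 1 < M) ∨
    ((n + 1) % M = 0 ∧ n % M + 1 = M) := by
  have h1 := Nat.mod_lt n hM
  rw [Nat.add_mod]
  rcases Nat.lt_or_ge (n % M + 1) M with h | h
  · rcases Nat.lt_or_ge 1 M with h' | h'
    · rw [Nat.mod_eq_of_lt h', Nat.mod_eq_of_lt h]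
      exact Or.inl ⟨rfl, h⟩
    · omega
  · have h2 : n % M + 1 = M := by omega
    rcases Nat.lt_or_ge 1 M with h' | h'
    · rw [Nat.mod_eq_of_lt h', h2, Nat.mod_self]
      exact Or.inr ⟨rfl, rfl⟩
    · have : M = 1 := by omega
      subst this
      exact Or.inr ⟨by omega, h2⟩

section main
variable {R : PType} {O : ℕ → Prop} {X Y : ℤ → ℝ} {κ : ℝ}

/-- sides of an arc with a label are near the closed sides `lo ≤ k ≤ hi` -/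
lemma lb_near (hX : GapR X κ) (hY : GapR Y κ) {A : ℕ → ℤ} {a : ℤ} {lo hi : ℕ}
    (H : ∀ n, (A n - a) % 4 = 0 ∨ (A (n + 1) - a) % 4 = 0 →
      (lo ≤ n % R.N ∧ n % R.N ≤ hi) ∨ (lo ≤ n % R.N + R.N ∧ n % R.N + R.N ≤ hi))
    {σ : Cell × ℤ} (hL : Lb R A (LZ X κ) (LZ Y κ) σ a) {z : ℂ} (hz : OnS 1 σ z) :
    T0 (κ / 1000) 0 z ∈ NNd R X Y κ lo hi := by
  obtain ⟨n, hn, he⟩ : ∃ n, ((A n - a) % 4 = 0 ∨ (A (n + 1) - a) % 4 = 0) ∧
      (eS (LZ X κ) (LZ Y κ) σ = R.vert n + R.vert n ∨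
        eS (LZ X κ) (LZ Y κ) σ = R.vert n + R.vert (n + 1)) := by
    rcases hL with ⟨n, h1, h2⟩ | ⟨n, h1, h2⟩
    · exact ⟨n, Or.inl h2, Or.inl h1⟩
    · exact ⟨n, h2, Or.inr h1⟩
  obtain ⟨b, hb, hd⟩ := pos_near hX hY he hz
  rcases H n hn with ⟨h1, h2⟩ | ⟨h1, h2⟩
  · exact ⟨n % R.N, h1, h2, b, by rwa [sdR_mod], hd⟩
  · exact ⟨n % R.N + R.N, h1, h2, b, by rwa [sdR_add, sdR_mod], hd⟩

/-- sides of an arc with a label are far from the region if the label is in a pushed part -/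
lemma lb_far (hX : GapR X κ) (hY : GapR Y κ) {A : ℕ → ℤ} {a : ℤ}
    (H1 : ∀ n, (A n - a) % 4 = 0 →
      ∀ n', (n' % R.N = n % R.N ∨ (n' + 1) % R.N = n % R.N) → O (n' % R.N))
    {σ : Cell × ℤ} (hσ : IsSide (Dq R.Q (oOf R O) (LZ X κ) (LZ Y κ)) σ)
    (hL : Lb R A (LZ X κ) (LZ Y κ) σ a) {z : ℂ} (hz : OnS 1 σ z) :
    ∀ w ∈ Reg R.Q X Y, κ / 20 ≤ ‖T0 (κ / 1000) 0 z - w‖ := by
  rcases hL with ⟨n, h1, h2⟩ | ⟨n, h1, h2 | h2⟩
  · exact pos_far hX hY hσ (Or.inl ⟨h1, H1 n h2⟩) hz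
  · exact pos_far hX hY hσ (Or.inr ⟨h1, H1 n h2 n (Or.inl rfl)⟩) hz
  · exact pos_far hX hY hσ (Or.inr ⟨h1, H1 (n + 1) h2 n (Or.inr rfl)⟩) hz

end main

/-- **T5, upper bound.** -/
theorem pos_up (P : PType) (x y : ℤ → ℝ) (g : ℝ) (hx : GapR x g) (hy : GapR y g) (n1 n2 : ℕ)
    (h0 : 0 < n1) (h1 : n1 < n2) (h2 : n2 < P.m) {κ : ℝ} (hκ : 0 < κ) (hg : 5 * κ ≤ g) (S : Shape)
    (hS : IsU P x y n1 n2 κ S) :
    UpG S (κ / 1000) 0 (Om P.Q x y) (arR P x y n1 n2) (arR P x y P.m P.N) (κ / 20)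
      (NNd (P5 P) (l5 x κ) (l5 y κ) κ (5 * n1 - 2) (5 * n2 + 1))
      (NNd (P5 P) (l5 x κ) (l5 y κ) κ (5 * P.m - 2) (5 * P.N + 1)) := by
  have h3 := P.hmN
  have hX := l5_gap hx hκ hg
  have hY := l5_gap hy hκ hg
  have hN := P5_N P
  have he : 0 < κ / 1000 := by positivity
  have hQ : S.P.Q = Dq (P5 P).Q (oOf (P5 P) (OU n1 n2 P.m)) (LZ (l5 x κ) κ) (LZ (l5 y κ) κ) := hS.Q
  have hOm : Om P.Q x y ⊆ Reg (P5 P).Q (l5 x κ) (l5 y κ) := by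
    rw [Reg_P5 hx hy hκ hg hg]
    exact Om_subset _ _ _
  have hside : ∀ i, IsSide (Dq (P5 P).Q (oOf (P5 P) (OU n1 n2 P.m)) (LZ (l5 x κ) κ)
      (LZ (l5 y κ) κ)) (S.P.side i) := fun i => by rw [← hQ]; exact S.P.isSide_side i
  have hN0 : 0 < 5 * P.N := by omega
  -- pushed sides
  have H0 : ∀ n, (AU P.N n1 n2 P.m n - 0) % 4 = 0 → ∀ n', (n' % (P5 P).N = n % (P5 P).N ∨
      (n' + 1) % (P5 P).N = n % (P5 P).N) → OU n1 n2 P.m (n' % (P5 P).N) := by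
    intro n hn n' hn'
    rw [hN] at hn' ⊢
    obtain ⟨q, t, ht, ht', hc⟩ := AU_lab h0 h1 h2 h3 n
    have hm := mod_succ' (n := n') hN0
    unfold OU
    rcases hc with ⟨c1, c2⟩ | ⟨c1, c2⟩ | ⟨c1, c2⟩ | ⟨c1, c2⟩ | ⟨c1, c2⟩ <;> omega
  have H2 : ∀ n, (AU P.N n1 n2 P.m n - 2) % 4 = 0 → ∀ n', (n' % (P5 P).N = n % (P5 P).N ∨
      (n' + 1) % (P5 P).N = n % (P5 P).N) → OU n1 n2 P.m (n' % (P5 P).N) := by
    intro n hn n' hn'
    rw [hN] at hn' ⊢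
    obtain ⟨q, t, ht, ht', hc⟩ := AU_lab h0 h1 h2 h3 n
    have hm := mod_succ' (n := n') hN0
    unfold OU
    rcases hc with ⟨c1, c2⟩ | ⟨c1, c2⟩ | ⟨c1, c2⟩ | ⟨c1, c2⟩ | ⟨c1, c2⟩ <;> omega
  refine ⟨he, by positivity, ?_, ?_, ?_, ?_, ?_, ?_, ?_, ?_, ?_⟩
  · -- cov
    intro z w hw hd hz
    rw [hQ] at hz
    obtain ⟨n, hn, hO, a, ha, hza⟩ := pos_cov hX hY (hOm hw) hd hz
    rw [hN] at hn
    unfold OU at hO
    by_cases hn0 : n = 0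
    · subst hn0
      refine Or.inr ⟨5 * P.N, by omega, by omega, a, ?_, hza⟩
      have := sdR_add (R := P5 P) (X := l5 x κ) (Y := l5 y κ) 0
      rw [hN, zero_add] at this
      rwa [this]
    · by_cases hn1 : n ≤ 5 * n2 + 1
      · exact Or.inl ⟨n, by omega, hn1, a, ha, hza⟩
      · exact Or.inr ⟨n, by omega, by omega, a, ha, hza⟩
  · -- free
    intro i hi z hz w hw
    rcases hi with hi | hi
    · exact lb_far hX hY H0 (hside i) (hS.l0 i hi) hz w (hOm hw)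
    · exact lb_far hX hY H2 (hside i) (hS.l2 i hi.1 hi.2) hz w (hOm hw)
  · -- two
    intro i hi hi' z hz
    refine lb_near hX hY (A := AU P.N n1 n2 P.m) (a := 1) ?_ (hS.l1 i hi hi') hz
    intro n hn
    rw [hN]
    left
    have hm := mod_succ' (n := n) hN0
    rcases hn with hn | hn
    · obtain ⟨q, t, ht, ht', hc⟩ := AU_lab h0 h1 h2 h3 n
      rcases hc with ⟨c1, c2⟩ | ⟨c1, c2⟩ | ⟨c1, c2⟩ | ⟨c1, c2⟩ | ⟨c1, c2⟩ <;> omega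
    · obtain ⟨q, t, ht, ht', hc⟩ := AU_lab h0 h1 h2 h3 (n + 1)
      rcases hc with ⟨c1, c2⟩ | ⟨c1, c2⟩ | ⟨c1, c2⟩ | ⟨c1, c2⟩ | ⟨c1, c2⟩ <;> omega
  · -- four
    intro i hi hi' z hz
    refine lb_near hX hY (A := AU P.N n1 n2 P.m) (a := 3) ?_ (hS.l3 i hi hi') hz
    intro n hn
    rw [hN]
    have hm := mod_succ' (n := n) hN0
    rcases hn with hn | hn
    · obtain ⟨q, t, ht, ht', hc⟩ := AU_lab h0 h1 h2 h3 n
      rcases hc with ⟨c1, c2⟩ | ⟨c1, c2⟩ | ⟨c1, c2⟩ | ⟨c1, c2⟩ | ⟨c1, c2⟩ <;> omega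
    · obtain ⟨q, t, ht, ht', hc⟩ := AU_lab h0 h1 h2 h3 (n + 1)
      rcases hc with ⟨c1, c2⟩ | ⟨c1, c2⟩ | ⟨c1, c2⟩ | ⟨c1, c2⟩ | ⟨c1, c2⟩ <;> omega
  · -- sep
    intro z hz w hw
    refine nn_sep hX hY ?_ hz hw
    intro k k' a1 a2 a3 a4
    rw [hN]
    have e1 := mod_two (N := 5 * P.N) (k := k) (by omega)
    have e2 := mod_two (N := 5 * P.N) (k := k') (by omega)
    omega
  · -- A2
    intro a ha
    obtain ⟨k, k1, k2, hk⟩ := (arc5 hx hy hκ hg).1 ha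
    exact ⟨k, by omega, by omega, a, hk, by rw [sub_self, norm_zero]; positivity⟩
  · -- B4
    intro a ha
    obtain ⟨k, k1, k2, hk⟩ := (arc5 hx hy hκ hg).1 ha
    exact ⟨k, by omega, by omega, a, hk, by rw [sub_self, norm_zero]; positivity⟩
  · -- Ar
    intro a ha z hz
    obtain ⟨k, k1, k2, hk⟩ := (arc5 hx hy hκ hg).1 ha
    rw [hQ] at hz
    refine pos_arc hX hY hz hk ?_ ?_ <;> rw [hN] <;> unfold OU
    · rw [Nat.mod_eq_of_lt (by omega)]; omega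
    · rw [Nat.mod_eq_of_lt (by omega)]; omega
  · -- Br
    intro a ha z hz
    obtain ⟨k, k1, k2, hk⟩ := (arc5 hx hy hκ hg).1 ha
    rw [hQ] at hz
    refine pos_arc hX hY hz hk ?_ ?_ <;> rw [hN] <;> unfold OU
    · rw [Nat.mod_eq_of_lt (by omega)]; omega
    · have e2 := mod_two (N := 5 * P.N) (k := k + 1) (by omega)
      omega

/-- **T5, lower bound.** -/
theorem pos_lo (P : PType) (x y : ℤ → ℝ) (g : ℝ) (hx : GapR x g) (hy : GapR y g) (n1 n2 : ℕ)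
    (h0 : 0 < n1) (h1 : n1 < n2) (h2 : n2 < P.m) {κ : ℝ} (hκ : 0 < κ) (hg : 5 * κ ≤ g) (S : Shape)
    (hS : IsL P x y n1 n2 κ S) :
    LoG S (κ / 1000) 0 (Om P.Q x y) (arR P x y n1 n2) (arR P x y P.m P.N) (κ / 20)
      (NNd (P5 P) (l5 x κ) (l5 y κ) κ (5 * n1 + 1) (5 * n2 - 2))
      (NNd (P5 P) (l5 x κ) (l5 y κ) κ (5 * P.m + 1) (5 * P.N - 2)) := by
  have h3 := P.hmN
  have hX := l5_gap hx hκ hg
  have hY := l5_gap hy hκ hg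
  have hN := P5_N P
  have he : 0 < κ / 1000 := by positivity
  have hQ : S.P.Q = Dq (P5 P).Q (oOf (P5 P) (OL P.N n1 n2 P.m)) (LZ (l5 x κ) κ)
    (LZ (l5 y κ) κ) := hS.Q
  have hOm : Om P.Q x y ⊆ Reg (P5 P).Q (l5 x κ) (l5 y κ) := by
    rw [Reg_P5 hx hy hκ hg hg]
    exact Om_subset _ _ _
  have hside : ∀ i, IsSide (Dq (P5 P).Q (oOf (P5 P) (OL P.N n1 n2 P.m)) (LZ (l5 x κ) κ)
      (LZ (l5 y κ) κ)) (S.P.side i) := fun i => by rw [← hQ]; exact S.P.isSide_side i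
  have hN0 : 0 < 5 * P.N := by omega
  have H1 : ∀ n, (AL P.N n1 n2 P.m n - 1) % 4 = 0 → ∀ n', (n' % (P5 P).N = n % (P5 P).N ∨
      (n' + 1) % (P5 P).N = n % (P5 P).N) → OL P.N n1 n2 P.m (n' % (P5 P).N) := by
    intro n hn n' hn'
    rw [hN] at hn' ⊢
    obtain ⟨q, t, ht, ht', hc⟩ := AL_lab h0 h1 h2 h3 n
    have hm := mod_succ' (n := n') hN0
    unfold OL
    rcases hc with ⟨c1, c2⟩ | ⟨c1, c2⟩ | ⟨c1, c2⟩ | ⟨c1, c2⟩ | ⟨c1, c2⟩ <;> omega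
  have H3 : ∀ n, (AL P.N n1 n2 P.m n - 3) % 4 = 0 → ∀ n', (n' % (P5 P).N = n % (P5 P).N ∨
      (n' + 1) % (P5 P).N = n % (P5 P).N) → OL P.N n1 n2 P.m (n' % (P5 P).N) := by
    intro n hn n' hn'
    rw [hN] at hn' ⊢
    obtain ⟨q, t, ht, ht', hc⟩ := AL_lab h0 h1 h2 h3 n
    have hm := mod_succ' (n := n') hN0
    unfold OL
    rcases hc with ⟨c1, c2⟩ | ⟨c1, c2⟩ | ⟨c1, c2⟩ | ⟨c1, c2⟩ | ⟨c1, c2⟩ <;> omega
  have hfr : ∀ {p : ℂ}, p ∈ frontier (Om P.Q x y) → ∃ n < 5 * P.N,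
      p ∈ sdR (P5 P) (l5 x κ) (l5 y κ) n := by
    intro p hp
    rw [← Om_P5 (P := P) hx hy hκ hg hg] at hp
    obtain ⟨n, hn, t, ht, e⟩ := (P5 P).frontier_cover (gapR_mono hX) (gapR_mono hY) hp
    rw [hN] at hn
    exact ⟨n, hn, e ▸ mem_sd_of_sidePt ht⟩
  refine ⟨he, by positivity, ?_, ?_, ?_, ?_, ?_, ?_⟩
  · -- cov
    intro z hz
    rw [hQ] at hz
    by_cases hD : ∀ w, ‖w - T0 (κ / 1000) 0 z‖ < κ / 20 → w ∈ Om P.Q x y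
    · exact Or.inl hD
    · push Not at hD
      obtain ⟨w, hw, hwD⟩ := hD
      rw [← Om_P5 (P := P) hx hy hκ hg hg] at hwD
      obtain ⟨n, hn, hO, a, ha, hza⟩ := pos_in hX hY hz hw hwD
      rw [hN] at hn
      right
      rcases hO with hO | hO
      · exact Or.inl ⟨n, by omega, by omega, a, ha, hza⟩
      · exact Or.inr ⟨n, by omega, by omega, a, ha, hza⟩
  · -- two
    intro i hi hi' z hz
    refine ⟨lb_near hX hY (A := AL P.N n1 n2 P.m) (a := 1) ?_ (hS.l1 i hi hi') hz, fun w hw =>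
      lb_far hX hY H1 (hside i) (hS.l1 i hi hi') hz w (hOm hw)⟩
    intro n hn
    rw [hN]
    left
    have hm := mod_succ' (n := n) hN0
    rcases hn with hn | hn
    · obtain ⟨q, t, ht, ht', hc⟩ := AL_lab h0 h1 h2 h3 n
      rcases hc with ⟨c1, c2⟩ | ⟨c1, c2⟩ | ⟨c1, c2⟩ | ⟨c1, c2⟩ | ⟨c1, c2⟩ <;> omega
    · obtain ⟨q, t, ht, ht', hc⟩ := AL_lab h0 h1 h2 h3 (n + 1)
      rcases hc with ⟨c1, c2⟩ | ⟨c1, c2⟩ | ⟨c1, c2⟩ | ⟨c1, c2⟩ | ⟨c1, c2⟩ <;> omega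
  · -- four
    intro i hi hi' z hz
    refine ⟨lb_near hX hY (A := AL P.N n1 n2 P.m) (a := 3) ?_ (hS.l3 i hi hi') hz, fun w hw =>
      lb_far hX hY H3 (hside i) (hS.l3 i hi hi') hz w (hOm hw)⟩
    intro n hn
    rw [hN]
    left
    have hm := mod_succ' (n := n) hN0
    rcases hn with hn | hn
    · obtain ⟨q, t, ht, ht', hc⟩ := AL_lab h0 h1 h2 h3 n
      rcases hc with ⟨c1, c2⟩ | ⟨c1, c2⟩ | ⟨c1, c2⟩ | ⟨c1, c2⟩ | ⟨c1, c2⟩ <;> omega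
    · obtain ⟨q, t, ht, ht', hc⟩ := AL_lab h0 h1 h2 h3 (n + 1)
      rcases hc with ⟨c1, c2⟩ | ⟨c1, c2⟩ | ⟨c1, c2⟩ | ⟨c1, c2⟩ | ⟨c1, c2⟩ <;> omega
  · -- sep
    intro z hz w hw
    refine nn_sep hX hY ?_ hz hw
    intro k k' a1 a2 a3 a4
    rw [hN]
    have e1 := mod_two (N := 5 * P.N) (k := k) (by omega)
    have e2 := mod_two (N := 5 * P.N) (k := k') (by omega)
    omega
  · -- A2
    intro p hp z hz hd
    obtain ⟨n, hn, hpn⟩ := hfr hp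
    rw [arc5 hx hy hκ hg]
    by_cases hc : 5 * n1 ≤ n ∧ n < 5 * n2
    · exact ⟨n, hc.1, hc.2, hpn⟩
    · exfalso
      refine absurd hd (not_lt.2 (nn_front hX hY ?_ hz hpn))
      intro k a1 a2
      rw [hN]
      have e1 := mod_two (N := 5 * P.N) (k := k) (by omega)
      have e2 := mod_two (N := 5 * P.N) (k := n) (by omega)
      have e3 := mod_two (N := 5 * P.N) (k := n + 1) (by omega)
      omega
  · -- B4
    intro p hp z hz hd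
    obtain ⟨n, hn, hpn⟩ := hfr hp
    rw [arc5 hx hy hκ hg]
    by_cases hc : 5 * P.m ≤ n ∧ n < 5 * P.N
    · exact ⟨n, hc.1, hc.2, hpn⟩
    · exfalso
      refine absurd hd (not_lt.2 (nn_front hX hY ?_ hz hpn))
      intro k a1 a2
      rw [hN]
      have e1 := mod_two (N := 5 * P.N) (k := k) (by omega)
      have e2 := mod_two (N := 5 * P.N) (k := n) (by omega)
      have e3 := mod_two (N := 5 * P.N) (k := n + 1) (by omega)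
      omega

/-- **T5.** -/
theorem stPos : StPos := by
  intro P x y g hx hy n1 n2 h0 h1 h2
  refine ⟨g / 5, by have := hx.g0; positivity, fun κ hκ hκg S => ⟨fun hS => ?_, fun hS => ?_⟩⟩
  · exact ⟨_, _, _, pos_up P x y g hx hy n1 n2 h0 h1 h2 hκ (by linarith) S hS⟩
  · exact ⟨_, _, _, pos_lo P x y g hx hy n1 n2 h0 h1 h2 hκ (by linarith) S hS⟩

end Pool.Agent.H57.W

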