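import Mathlib
import Pool.Agent.H61.W.JFields
import Pool.Agent.H13.W.Graph

set_option autoImplicit false
open Finset

/-! # C6, J7 (`YNear`): if no strand leaves the inner box the chunk `P` is not pivotal

`In ρ` = corners of sup norm at most `ρ`; all sides of the tiles of `P`, and the moving end, are in `In ρ`.
Without a strand from `In ρ` to a corner of sup norm at least `R0` the three events of `V1` are the same for `P`
open and `P` closed. -/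

namespace Pool.Agent.H57.W

open Pool.Agent.H75.Perc hiding WL CT hh PB GG ph
open Pool.Agent.H75.TwoArm
open Pool.Agent.H33.Q1 Pool.Agent.H6.W Pool.Agent.H50.W Pool.Agent.H58.W Pool.Agent.H13.W
open Pool.Agent.H61.W
open Pool.Agent.H73.W (ph ph_norm ph_inv_norm)

/-! ### Graphs which agree outside a set -/

section graph

variable {V : Type*} {G G' : SimpleGraph V} {I : Set V}

lemma from_of (h : ∀ x y, y ∉ I → G.Adj x y → G'.Adj x y) {c : V}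
    (hc : ∃ a ∈ I, G.Reachable a c) : ∃ a ∈ I, G'.Reachable a c := by
  obtain ⟨a, ha, hr⟩ := hc
  rw [SimpleGraph.reachable_iff_reflTransGen] at hr
  induction hr with
  | refl => exact ⟨a, ha, SimpleGraph.Reachable.refl _⟩
  | @tail x y _ hxy ih =>
    by_cases hy : y ∈ I
    · exact ⟨y, hy, SimpleGraph.Reachable.refl _⟩
    · obtain ⟨a', ha', h1⟩ := ih
      exact ⟨a', ha', h1.trans (h x y hy hxy).reachable⟩

lemma avoid_of (h : ∀ x y, y ∉ I → G.Adj x y → G'.Adj x y) {c d : V}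
    (hc : ¬ ∃ a ∈ I, G.Reachable a c) (hr : G.Reachable c d) : G'.Reachable c d := by
  rw [SimpleGraph.reachable_iff_reflTransGen] at hr
  induction hr with
  | refl => exact SimpleGraph.Reachable.refl _
  | @tail x y hcx hxy ih =>
    refine ih.trans (h x y (fun hy => hc ⟨y, hy, ?_⟩) hxy).reachable
    have h1 : G.Reachable c x := (SimpleGraph.reachable_iff_reflTransGen c x).2 hcx
    exact (h1.trans hxy.reachable).symm

/-- a vertex which is not joined to `I` has the same component in both graphs -/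
lemma reach_iff (h : ∀ x y, y ∉ I → (G.Adj x y ↔ G'.Adj x y)) {c d : V}
    (hc : ¬ ∃ a ∈ I, G.Reachable a c) : G.Reachable c d ↔ G'.Reachable c d := by
  refine ⟨avoid_of (fun x y hy => (h x y hy).1) hc, avoid_of (fun x y hy => (h x y hy).2) ?_⟩
  exact fun h1 => hc (from_of (fun x y hy => (h x y hy).2) h1)

end graph

/-! ### Probabilities -/

lemma abs_PB_sub_le {α β : Type*} [DecidableEq α] [DecidableEq β] {E : Finset α} {b : α → β}
    {A A' X : Finset α → Prop} (h : ∀ ω ⊆ E, ¬ X ω → (A ω ↔ A' ω)) :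
    |PB E b A - PB E b A'| ≤ PB E b X := by
  have h1 : PB E b A ≤ PB E b A' + PB E b X := by
    refine le_trans (PB_mono (B := fun ω => A' ω ∨ X ω) fun ω hω hA => ?_) (PB_or_le _ _ _ _)
    by_cases hX : X ω
    · exact Or.inr hX
    · exact Or.inl ((h ω hω hX).1 hA)
  have h2 : PB E b A' ≤ PB E b A + PB E b X := by
    refine le_trans (PB_mono (B := fun ω => A ω ∨ X ω) fun ω hω hA => ?_) (PB_or_le _ _ _ _)
    by_cases hX : X ω
    · exact Or.inr hX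
    · exact Or.inl ((h ω hω hX).2 hA)
  rw [abs_le]
  constructor <;> linarith

/-! ### The worlds -/

/-- corners of sup norm at most `ρ` -/
def In (ρ : ℤ) : Set (ℤ × ℤ) := {c | |c.1| ≤ ρ ∧ |c.2| ≤ ρ}

/-- corners of sup norm at least `R0` -/
def Ou (R0 : ℤ) (c : ℤ × ℤ) : Prop := R0 ≤ |c.1| ∨ R0 ≤ |c.2|

variable {b : JBox} {h : ℕ} {w s : Bool} {x1 : ℤ} {c3 c4 : Bool × ℕ} {v : ℤ × ℤ}
  {ω : Finset (ℤ × ℤ)} {ρ R0 : ℤ}

lemma cfg_iff {o : Bool} {e : ℤ × ℤ} (he : e ∉ b.Pl h) : e ∈ cfg b h o ω ↔ e ∈ ω := by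
  unfold cfg
  split_ifs
  · rw [mem_union]
    exact ⟨fun h3 => h3.resolve_right he, Or.inl⟩
  · rw [mem_sdiff]
    exact ⟨fun h3 => h3.1, fun h3 => ⟨h3, he⟩⟩

lemma GY_adj_iff (hP : ∀ e ∈ b.Pl h, ∀ c, e = lab c ∨ e = plab c → c ∈ In ρ) (x y : ℤ × ℤ)
    (hy : y ∉ In ρ) :
    (GY b h w s x1 c3 c4 v true ω).Adj x y ↔ (GY b h w s x1 c3 c4 v false ω).Adj x y := by
  have key : ∀ {e : ℤ × ℤ} {o o' : Bool}, e ∉ b.Pl h →
      (e ∈ symmDiff (cfg b h o ω) (flp b h s x1) ∪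
          Wl b (2 * h) (colM (bsP w s) {c3, c4} (some v.2)) ↔
        e ∈ symmDiff (cfg b h o' ω) (flp b h s x1) ∪
          Wl b (2 * h) (colM (bsP w s) {c3, c4} (some v.2))) := by
    intro e o o' he
    rw [mem_union, mem_union, mem_symmDiff, mem_symmDiff, cfg_iff he, cfg_iff he]
  unfold GY GG
  rw [SG_adj, SG_adj]
  constructor
  · rintro ⟨e, he, h1⟩
    have heP : e ∉ b.Pl h := fun h2 => hy (hP e h2 y h1.label')
    exact ⟨e, he, (TJ_congr Iff.rfl fun _ => key heP).1 h1⟩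
  · rintro ⟨e, he, h1⟩
    have heP : e ∉ b.Pl h := fun h2 => hy (hP e h2 y h1.label')
    exact ⟨e, he, (TJ_congr Iff.rfl fun _ => key heP).1 h1⟩

/-- a strand leaves the inner box -/
def Cross (b : JBox) (h : ℕ) (w s : Bool) (x1 : ℤ) (c3 c4 : Bool × ℕ) (v : ℤ × ℤ) (ρ R0 : ℤ)
    (ω : Finset (ℤ × ℤ)) : Prop :=
  ∃ a ∈ In ρ, ∃ c, Ou R0 c ∧ (GY b h w s x1 c3 c4 v true ω).Reachable a c

lemma RF_iff (hP : ∀ e ∈ b.Pl h, ∀ c, e = lab c ∨ e = plab c → c ∈ In ρ) {q : Bool × ℕ}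
    (h1 : Ou R0 (f1 b (2 * h) q)) (h2 : Ou R0 (f2 b (2 * h) q))
    (hX : ¬ Cross b h w s x1 c3 c4 v ρ R0 ω) (c : ℤ × ℤ) :
    RF b (2 * h) (GY b h w s x1 c3 c4 v true ω) c q ↔
      RF b (2 * h) (GY b h w s x1 c3 c4 v false ω) c q := by
  have key : ∀ {f : ℤ × ℤ}, Ou R0 f → ((GY b h w s x1 c3 c4 v true ω).Reachable c f ↔
      (GY b h w s x1 c3 c4 v false ω).Reachable c f) := by
    intro f hf
    have h3 : ¬ ∃ a ∈ In ρ, (GY b h w s x1 c3 c4 v true ω).Reachable a f := by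
      rintro ⟨a, ha, h4⟩
      exact hX ⟨a, ha, f, hf, h4⟩
    have h4 := reach_iff (GY_adj_iff hP) h3 (d := c)
    exact ⟨fun h5 => (h4.1 h5.symm).symm, fun h5 => (h4.2 h5.symm).symm⟩
  unfold RF
  rw [key h1, key h2]

lemma not_RF (hP : ∀ e ∈ b.Pl h, ∀ c, e = lab c ∨ e = plab c → c ∈ In ρ) {q : Bool × ℕ}
    (h1 : Ou R0 (f1 b (2 * h) q)) (h2 : Ou R0 (f2 b (2 * h) q))
    (hX : ¬ Cross b h w s x1 c3 c4 v ρ R0 ω) {c : ℤ × ℤ} (hc : c ∈ In ρ) (o : Bool) :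
    ¬ RF b (2 * h) (GY b h w s x1 c3 c4 v o ω) c q := by
  have h3 : ¬ RF b (2 * h) (GY b h w s x1 c3 c4 v true ω) c q := by
    rintro (h4 | h4)
    · exact hX ⟨c, hc, _, h1, h4⟩
    · exact hX ⟨c, hc, _, h2, h4⟩
  cases o
  · rwa [← RF_iff hP h1 h2 hX]
  · exact h3

/-- **`P` is not pivotal for `Y` if no strand leaves the inner box.** -/
theorem ynear_det (hP : ∀ e ∈ b.Pl h, ∀ c, e = lab c ∨ e = plab c → c ∈ In ρ)
    (hv : zc v ∈ In ρ) (hf : ∀ q : Bool × ℕ, q = c3 ∨ q = c4 →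
      Ou R0 (f1 b (2 * h) q) ∧ Ou R0 (f2 b (2 * h) q))
    (hE : ∀ ω ⊆ b.B h, ∀ o : Bool,
      RF b (2 * h) (GY b h w s x1 c3 c4 v o ω) (zc v) c3 ∨
      RF b (2 * h) (GY b h w s x1 c3 c4 v o ω) (zc v) c4 ∨
      (GY b h w s x1 c3 c4 v o ω).Reachable (zc v) (mc s x1)) :
    ‖Yf b h w s x1 c3 c4 v‖ ≤ 3 * b.PJ h (Cross b h w s x1 c3 c4 v ρ R0) := by
  have hq : fst2 b c3 c4 = c3 ∨ fst2 b c3 c4 = c4 := by
    unfold fst2
    split_ifs
    · exact Or.inl rfl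
    · exact Or.inr rfl
  obtain ⟨hq1, hq2⟩ := hf _ hq
  have e1 : ∀ ω ⊆ b.B h, ¬ Cross b h w s x1 c3 c4 v ρ R0 ω →
      (RF b (2 * h) (GY b h w s x1 c3 c4 v true ω) (zc v) (fst2 b c3 c4) ↔
        RF b (2 * h) (GY b h w s x1 c3 c4 v false ω) (zc v) (fst2 b c3 c4)) :=
    fun ω _ hX => RF_iff hP hq1 hq2 hX _
  have e0 : ∀ ω ⊆ b.B h, ¬ Cross b h w s x1 c3 c4 v ρ R0 ω → ∀ o : Bool,
      (GY b h w s x1 c3 c4 v o ω).Reachable (zc v) (mc s x1) := by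
    intro ω hω hX o
    rcases hE ω hω o with h1 | h1 | h1
    · exact absurd h1 (not_RF hP (hf _ (Or.inl rfl)).1 (hf _ (Or.inl rfl)).2 hX hv o)
    · exact absurd h1 (not_RF hP (hf _ (Or.inr rfl)).1 (hf _ (Or.inr rfl)).2 hX hv o)
    · exact h1
  have e2 : ∀ ω ⊆ b.B h, ¬ Cross b h w s x1 c3 c4 v ρ R0 ω →
      cntY b h s x1 c3 c4 (GY b h w s x1 c3 c4 v true ω) =
        cntY b h s x1 c3 c4 (GY b h w s x1 c3 c4 v false ω) := by
    intro ω _ hX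
    unfold cntY
    congr 1
    ext x
    simp only [Set.mem_ofPred_eq]
    rw [RF_iff hP hq1 hq2 hX]
  have d1 := abs_PB_sub_le (b := bk (2 * (h : ℤ)) (chn 0 b.M b.τ)) e1
  have d2 := abs_PB_sub_le (E := b.B h) (b := bk (2 * (h : ℤ)) (chn 0 b.M b.τ))
    (A := fun ω => (GY b h w s x1 c3 c4 v true ω).Reachable (zc v) (mc s x1) ∧
      Even (cntY b h s x1 c3 c4 (GY b h w s x1 c3 c4 v true ω)))
    (A' := fun ω => (GY b h w s x1 c3 c4 v false ω).Reachable (zc v) (mc s x1) ∧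
      Even (cntY b h s x1 c3 c4 (GY b h w s x1 c3 c4 v false ω)))
    (X := Cross b h w s x1 c3 c4 v ρ R0) (fun ω hω hX => by
      rw [e2 ω hω hX]
      simp only [e0 ω hω hX])
  have d3 := abs_PB_sub_le (E := b.B h) (b := bk (2 * (h : ℤ)) (chn 0 b.M b.τ))
    (A := fun ω => (GY b h w s x1 c3 c4 v true ω).Reachable (zc v) (mc s x1) ∧
      ¬ Even (cntY b h s x1 c3 c4 (GY b h w s x1 c3 c4 v true ω)))
    (A' := fun ω => (GY b h w s x1 c3 c4 v false ω).Reachable (zc v) (mc s x1) ∧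
      ¬ Even (cntY b h s x1 c3 c4 (GY b h w s x1 c3 c4 v false ω)))
    (X := Cross b h w s x1 c3 c4 v ρ R0) (fun ω hω hX => by
      rw [e2 ω hω hX]
      simp only [e0 ω hω hX])
  unfold Yf V1
  have key : ∀ p1 p1' p2 p2' p3 p3' q : ℝ, |p1 - p1'| ≤ q → |p2 - p2'| ≤ q → |p3 - p3'| ≤ q →
      ‖((p1 : ℂ) + ph * (p2 : ℂ) + ph⁻¹ * (p3 : ℂ)) -
        ((p1' : ℂ) + ph * (p2' : ℂ) + ph⁻¹ * (p3' : ℂ))‖ ≤ 3 * q := by
    intro p1 p1' p2 p2' p3 p3' q h1 h2 h3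
    have e : ((p1 : ℂ) + ph * (p2 : ℂ) + ph⁻¹ * (p3 : ℂ)) -
        ((p1' : ℂ) + ph * (p2' : ℂ) + ph⁻¹ * (p3' : ℂ)) =
        ((p1 - p1' : ℝ) : ℂ) + ph * ((p2 - p2' : ℝ) : ℂ) + ph⁻¹ * ((p3 - p3' : ℝ) : ℂ) := by
      push_cast
      ring
    rw [e]
    refine (norm_add_le _ _).trans ?_
    have a1 := norm_add_le (((p1 - p1' : ℝ) : ℂ)) (ph * ((p2 - p2' : ℝ) : ℂ))
    have a2 : ‖((p1 - p1' : ℝ) : ℂ)‖ = |p1 - p1'| := by
      rw [Complex.norm_real, Real.norm_eq_abs]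
    have a3 : ‖ph * ((p2 - p2' : ℝ) : ℂ)‖ = |p2 - p2'| := by
      rw [norm_mul, ph_norm, one_mul, Complex.norm_real, Real.norm_eq_abs]
    have a4 : ‖ph⁻¹ * ((p3 - p3' : ℝ) : ℂ)‖ = |p3 - p3'| := by
      rw [norm_mul, ph_inv_norm, one_mul, Complex.norm_real, Real.norm_eq_abs]
    rw [a4]
    rw [a2, a3] at a1
    linarith
  exact key _ _ _ _ _ _ _ d1 d2 d3

end Pool.Agent.H57.W
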