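import Mathlib
import Pool.Agent.H61.W.JWorld
import Pool.Agent.H35.W.Couple
import Pool.Agent.H91.W.Chn
import Pool.Agent.H91.W.TipRing

set_option autoImplicit false
open Finset

/-! # C6, J7 (`YNear`): the law of the un-deleted `Y` world

In the annulus around `P` and the moving end both deleted rows are taken out: the true tile `(x, y)` above the
deleted rows becomes the plain tile `(x, y - 1)` with flipped colour. The plates of the plain world have one row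
less on the upper side and one coin on both sides. -/

namespace Pool.Agent.H57.W

open Pool.Agent.H75.Perc hiding WL CT hh PB
open Pool.Agent.H75.TwoArm Pool.Agent.H60.Q1
open Pool.Agent.H33.Q1 hiding cT
open Pool.Agent.Q1.M4 (Cell)
open Pool.Agent.H58.W Pool.Agent.H50.W Pool.Agent.H6.W Pool.Agent.H61.W Pool.Agent.H35.W
open Pool.Agent.H91.W

/-- the label is above the deleted rows `y = Yr s` (`x < 0`), `y = r0` (`0 ≤ x`) -/
def Upr (s : Bool) (r0 : ℤ) (e : ℤ × ℤ) : Prop :=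
  (tX e < 0 ∧ Yr s < tY e) ∨ (0 ≤ tX e ∧ r0 < tY e)

/-- the label is in the deleted rows -/
def Dlr (s : Bool) (r0 : ℤ) (e : ℤ × ℤ) : Prop :=
  (tX e < 0 ∧ tY e = Yr s) ∨ (0 ≤ tX e ∧ tY e = r0)

instance (s : Bool) (r0 : ℤ) : DecidablePred (Upr s r0) := fun e => by unfold Upr; infer_instance

/-- true label to plain label -/
def dn (s : Bool) (r0 : ℤ) (e : ℤ × ℤ) : ℤ × ℤ := if Upr s r0 e then (e.1 + 1, e.2 - 1) else e

variable {b : JBox} {h : ℕ} {s : Bool} {r0 x1 : ℤ} {O : Finset (ℤ × ℤ)}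

lemma tX_dn (e : ℤ × ℤ) : tX (dn s r0 e) = tX e := by
  unfold dn
  split_ifs
  · unfold tX; simp only; congr 1; ring
  · rfl

lemma tY_dn_up {e : ℤ × ℤ} (h : Upr s r0 e) : tY (dn s r0 e) = tY e - 1 := by
  unfold dn
  rw [if_pos h]
  unfold tY
  simp only
  omega

lemma tY_dn_lo {e : ℤ × ℤ} (h : ¬ Upr s r0 e) : tY (dn s r0 e) = tY e := by
  unfold dn
  rw [if_neg h]

lemma dn_odd {e : ℤ × ℤ} (he : (e.1 + e.2) % 2 = 1) :
    ((dn s r0 e).1 + (dn s r0 e).2) % 2 = 1 := by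
  unfold dn
  split_ifs
  · simp only; omega
  · exact he

lemma dn_inj {e e' : ℤ × ℤ} (h1 : ¬ Dlr s r0 e) (h2 : ¬ Dlr s r0 e')
    (h : dn s r0 e = dn s r0 e') : e = e' := by
  have hx : tX e = tX e' := by rw [← tX_dn (s := s) (r0 := r0) e, h, tX_dn]
  have hy : tY (dn s r0 e) = tY (dn s r0 e') := by rw [h]
  by_cases u1 : Upr s r0 e <;> by_cases u2 : Upr s r0 e'
  · unfold dn at h
    rw [if_pos u1, if_pos u2, Prod.ext_iff] at h
    refine Prod.ext ?_ ?_ <;> [have := h.1; have := h.2] <;> simp only at this <;> omega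
  · rw [tY_dn_up u1, tY_dn_lo u2] at hy
    unfold Dlr at h2
    unfold Upr at u1 u2
    exfalso
    rw [← hx] at u2 h2
    omega
  · rw [tY_dn_lo u1, tY_dn_up u2] at hy
    unfold Dlr at h1
    unfold Upr at u1 u2
    exfalso
    rw [← hx] at u2
    omega
  · unfold dn at h
    rwa [if_neg u1, if_neg u2] at h

lemma dn_injOn (hD : ∀ e ∈ O, ¬ Dlr s r0 e) : Set.InjOn (dn s r0) O :=
  fun _ he _ he' h => dn_inj (hD _ he) (hD _ he') h

/-- the labels whose colour changes in law -/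
noncomputable def FF (b : JBox) (h : ℕ) (s : Bool) (r0 x1 : ℤ) (O : Finset (ℤ × ℤ)) :
    Finset (ℤ × ℤ) :=
  symmDiff (O.filter (Upr s r0)) (O ∩ flp b h s x1)

/-- **the plain configuration** -/
noncomputable def wp (b : JBox) (h : ℕ) (s : Bool) (r0 x1 : ℤ) (O ω : Finset (ℤ × ℤ)) :
    Finset (ℤ × ℤ) :=
  Tm (dn s r0) (FF b h s r0 x1 O) (ω ∩ O)

lemma FF_sub : FF b h s r0 x1 O ⊆ O := by
  intro e he
  unfold FF at he
  rw [mem_symmDiff, mem_filter, mem_inter] at he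
  tauto

lemma mem_FF {e : ℤ × ℤ} (he : e ∈ O) : e ∈ FF b h s r0 x1 O ↔
    ((Upr s r0 e ∧ e ∉ flp b h s x1) ∨ (e ∈ flp b h s x1 ∧ ¬ Upr s r0 e)) := by
  unfold FF
  rw [mem_symmDiff, mem_filter, mem_inter]
  tauto

lemma mem_wp {ω : Finset (ℤ × ℤ)} (hD : ∀ e ∈ O, ¬ Dlr s r0 e) {e : ℤ × ℤ} (he : e ∈ O) :
    dn s r0 e ∈ wp b h s r0 x1 O ω ↔
      ((e ∈ symmDiff ω (flp b h s x1) ∧ ¬ Upr s r0 e) ∨
        (e ∉ symmDiff ω (flp b h s x1) ∧ Upr s r0 e)) := by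
  unfold wp
  rw [mem_Tm FF_sub (dn_injOn hD) inter_subset_right he, mem_FF he, mem_inter, mem_symmDiff]
  by_cases h1 : e ∈ ω <;> by_cases h2 : e ∈ flp b h s x1 <;> by_cases h3 : Upr s r0 e <;>
    simp [h1, h2, h3, he]

lemma wp_sub {ω : Finset (ℤ × ℤ)} : wp b h s r0 x1 O ω ⊆ O.image (dn s r0) :=
  Tm_subset FF_sub inter_subset_right

/-! ### The law -/

lemma chT_pos {W t0 s' x : ℤ} (hW : 0 < W) (ht : 0 < t0) (hs : 0 ≤ s') (hx : x < 0) :
    0 < chT 0 W t0 s' x := by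
  rw [chT_lt hx]
  have h1 : 0 ≤ (0 - 1 - x) / W := Int.ediv_nonneg (by omega) hW.le
  have := mul_nonneg hs h1
  omega

lemma chT_sub_one {W t0 s' x : ℤ} (hx : x < 0) :
    chT 0 W (t0 - 1) s' x = chT 0 W t0 s' x - 1 := by
  rw [chT_lt hx, chT_lt hx]
  ring

/-- the plates in the two frames -/
lemma bt2_dn (hh : 0 < h) (hM : 0 < b.M) (hτ : 0 < b.τ) {e : ℤ × ℤ} (hD : ¬ Dlr s r0 e) :
    bt2 0 (b.M * (2 * (h : ℤ))) (b.τ * (2 * (h : ℤ)) - 1) (b.τ * (2 * (h : ℤ))) (2 * h)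
        (dn s r0 e) =
      if tX e < 0 ∧ -(cT 0 b.M b.τ (2 * h) (tX e)) ≤ tY e ∧ tY e < cT 0 b.M b.τ (2 * h) (tX e) then
        Sum.inr ((-1 - tX e) / (b.M * (2 * (h : ℤ)))) else Sum.inl (dn s r0 e) := by
  have hn : (0 : ℤ) < 2 * (h : ℤ) := by positivity
  have hW : (0 : ℤ) < b.M * (2 * (h : ℤ)) := by positivity
  have ht : (0 : ℤ) < b.τ * (2 * (h : ℤ)) := by positivity
  unfold bt2
  rw [tX_dn]
  by_cases hx : tX e < 0
  · have hc : cT 0 b.M b.τ (2 * h) (tX e) =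
        chT 0 (b.M * (2 * (h : ℤ))) (b.τ * (2 * (h : ℤ))) (2 * h) (tX e) := by
      unfold cT
      rw [zero_mul]
    have hp := chT_pos hW ht hn.le hx
    rw [chT_sub_one hx, hc, zero_sub]
    set T := chT 0 (b.M * (2 * (h : ℤ))) (b.τ * (2 * (h : ℤ))) (2 * h) (tX e) with hT
    have hY : Yr s = 0 ∨ Yr s = -1 := by unfold Yr; split_ifs <;> simp
    have key : (tX e < 0 ∧ -T ≤ tY (dn s r0 e) ∧ tY (dn s r0 e) < T - 1) ↔
        (tX e < 0 ∧ -T ≤ tY e ∧ tY e < T) := by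
      unfold Dlr at hD
      by_cases u : Upr s r0 e
      · rw [tY_dn_up u]
        unfold Upr at u
        omega
      · rw [tY_dn_lo u]
        unfold Upr at u
        omega
    by_cases h1 : tX e < 0 ∧ -T ≤ tY e ∧ tY e < T
    · rw [if_pos (key.2 h1), if_pos h1]
    · rw [if_neg (fun h2 => h1 (key.1 h2)), if_neg h1]
  · rw [if_neg (fun h1 => hx h1.1), if_neg (fun h1 => hx h1.1)]

lemma bk_chn (hh : 0 < h) (hM : 0 < b.M) (e : ℤ × ℤ) :
    bk (2 * (h : ℤ)) (chn 0 b.M b.τ) e =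
      if tX e < 0 ∧ -(cT 0 b.M b.τ (2 * h) (tX e)) ≤ tY e ∧ tY e < cT 0 b.M b.τ (2 * h) (tX e) then
        Sum.inr ((-1 - tX e) / (b.M * (2 * (h : ℤ)))).toNat else Sum.inl e := by
  have hn : (0 : ℤ) < 2 * (h : ℤ) := by positivity
  have h1 := chn_eq (x0 := 0) (M := b.M) (τ := b.τ) hn hM e
  rw [zero_mul] at h1
  split_ifs with h2
  · rw [if_pos h2, zero_sub] at h1
    rw [bk_some h1]
  · rw [if_neg h2] at h1
    rw [bk_none h1]

lemma blocks_iff (hh : 0 < h) (hM : 0 < b.M) (hτ : 0 < b.τ) {e e' : ℤ × ℤ}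
    (hD : ¬ Dlr s r0 e) (hD' : ¬ Dlr s r0 e') :
    bk (2 * (h : ℤ)) (chn 0 b.M b.τ) e = bk (2 * (h : ℤ)) (chn 0 b.M b.τ) e' ↔
      bt2 0 (b.M * (2 * (h : ℤ))) (b.τ * (2 * (h : ℤ)) - 1) (b.τ * (2 * (h : ℤ))) (2 * h)
        (dn s r0 e) =
      bt2 0 (b.M * (2 * (h : ℤ))) (b.τ * (2 * (h : ℤ)) - 1) (b.τ * (2 * (h : ℤ))) (2 * h)
        (dn s r0 e') := by
  rw [bk_chn hh hM, bk_chn hh hM, bt2_dn hh hM hτ hD, bt2_dn hh hM hτ hD']
  have hW : (0 : ℤ) < b.M * (2 * (h : ℤ)) := by positivity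
  split_ifs with h1 h2 h2
  · rw [Sum.inr.injEq, Sum.inr.injEq]
    have a1 : 0 ≤ (-1 - tX e) / (b.M * (2 * (h : ℤ))) := Int.ediv_nonneg (by omega) hW.le
    have a2 : 0 ≤ (-1 - tX e') / (b.M * (2 * (h : ℤ))) := Int.ediv_nonneg (by omega) hW.le
    omega
  · simp
  · simp
  · rw [Sum.inl.injEq, Sum.inl.injEq]
    exact ⟨fun h3 => by rw [h3], dn_inj hD hD'⟩

lemma mem_B (hh : 0 < h) {e : ℤ × ℤ} : e ∈ b.B h ↔
    (e.1 + e.2) % 2 = 1 ∧ InQ b (2 * h) (tt e).1 (tt e).2 := by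
  have hn : (0 : ℤ) < 2 * (h : ℤ) := by positivity
  unfold JBox.B
  rw [mem_TL hn]
  rfl

lemma inC_iff (hh : 0 < h) (hM : 0 < b.M) {e : ℤ × ℤ} (he : e ∈ b.B h) :
    InC b (2 * h) (tt e).1 (tt e).2 ↔
      (tX e < 0 ∧ -(cT 0 b.M b.τ (2 * h) (tX e)) ≤ tY e ∧ tY e < cT 0 b.M b.τ (2 * h) (tX e)) := by
  have hn : (0 : ℤ) < 2 * (h : ℤ) := by positivity
  have h1 := chn_eq (x0 := 0) (M := b.M) (τ := b.τ) hn hM e
  rw [zero_mul] at h1
  unfold InC
  have h2 : chn 0 b.M b.τ ((tt e).1 / (2 * (h : ℤ)), (tt e).2 / (2 * (h : ℤ))) =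
      chn 0 b.M b.τ (ct (2 * (h : ℤ)) (tt e)) := rfl
  rw [h2, h1]
  have h3 := ((mem_B hh).1 he).2
  constructor
  · rintro ⟨-, h4⟩
    by_contra h5
    rw [if_neg h5] at h4
    exact h4 rfl
  · intro h4
    refine ⟨h3, ?_⟩
    rw [if_pos h4]
    simp

lemma mem_flp (hh : 0 < h) (hM : 0 < b.M) {e : ℤ × ℤ} (he : e ∈ b.B h) :
    e ∈ flp b h s x1 ↔
      (tX e < 0 ∧ -(cT 0 b.M b.τ (2 * h) (tX e)) ≤ tY e ∧ tY e < cT 0 b.M b.τ (2 * h) (tX e)) ∧
        tX e < x1 ∧ (if s then 0 < tY e else tY e < -1) := by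
  unfold flp
  classical
  simp only [mem_filter]
  rw [inC_iff hh hM he]
  constructor
  · rintro ⟨-, h1, h2, h3⟩
    exact ⟨h1, h2, h3⟩
  · rintro ⟨h1, h2, h3⟩
    exact ⟨he, h1, h2, h3⟩

/-- outside the chunk `P` the configuration of the world is `symmDiff ω flp` -/
lemma mem_cfg (hh : 0 < h) {o : Bool} {cl : Cl} {ω : Finset (ℤ × ℤ)} {e : ℤ × ℤ} (he : e ∈ b.B h)
    (heP : e ∉ b.Pl h) :
    e ∈ symmDiff (cfg b h o ω) (flp b h s x1) ∪ Wl b (2 * h) cl ↔ e ∈ symmDiff ω (flp b h s x1) := by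
  have h1 : e ∉ Wl b (2 * h) cl := by
    unfold Wl
    classical
    simp only [mem_image, mem_filter, not_exists, not_and]
    rintro t ⟨-, ht, -⟩ rfl
    have h2 := ((mem_B hh).1 he).2
    rw [tt_lt] at h2
    exact ht h2
  have h2 : e ∈ cfg b h o ω ↔ e ∈ ω := by
    unfold cfg
    split_ifs
    · rw [mem_union]
      exact ⟨fun h3 => h3.resolve_right heP, Or.inl⟩
    · rw [mem_sdiff]
      exact ⟨fun h3 => h3.1, fun h3 => ⟨h3, heP⟩⟩
  rw [mem_union, mem_symmDiff, mem_symmDiff, h2]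
  exact ⟨fun h3 => h3.resolve_right h1, Or.inl⟩

lemma mem_Lam (hh : 0 < h) {M : Finset (Bool × ℕ)} {e : ℤ × ℤ} (he : e ∈ b.B h) :
    e ∈ Lam b (2 * h) M := by
  obtain ⟨h1, h2⟩ := (mem_B hh).1 he
  exact ⟨(tt e).1, (tt e).2, (lt_tt h1).symm, Or.inl h2⟩

/-- **The law of the plain configuration.** -/
theorem law (hh : 0 < h) (hM : 0 < b.M) (hτ : 0 < b.τ) (hO : O ⊆ b.B h)
    (hD : ∀ e ∈ O, ¬ Dlr s r0 e)
    (hP : ∀ e ∈ O, InC b (2 * h) (tt e).1 (tt e).2 → (tt e).1 < x1)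
    (A : Finset (ℤ × ℤ) → Prop) :
    b.PJ h (fun ω => A (wp b h s r0 x1 O ω)) =
      PB (O.image (dn s r0))
        (bt2 0 (b.M * (2 * (h : ℤ))) (b.τ * (2 * (h : ℤ)) - 1) (b.τ * (2 * (h : ℤ))) (2 * h)) A := by
  unfold JBox.PJ wp
  rw [PB_restrict hO (bk (2 * (h : ℤ)) (chn 0 b.M b.τ))
    (fun ω => A (Tm (dn s r0) (FF b h s r0 x1 O) ω))]
  symm
  refine PB_Tm FF_sub ?_ ?_ A
  · intro l hl l' hl' heq
    have hlO := FF_sub hl
    rw [bk_chn hh hM, bk_chn hh hM] at heq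
    rw [mem_FF hlO, mem_flp hh hM (hO hlO)] at hl
    rw [mem_FF hl', mem_flp hh hM (hO hl')]
    split_ifs at heq with h1 h2 h2
    · -- both labels in plates
      have p1 := hP l hlO ((inC_iff hh hM (hO hlO)).2 h1)
      have p2 := hP l' hl' ((inC_iff hh hM (hO hl')).2 h2)
      have d2 := hD l' hl'
      rw [tt_eq] at p1 p2
      simp only at p1 p2
      have x1' := h1.1
      have x2' := h2.1
      cases s
      · -- lower bank: all labels of the plates are flipped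
        have u2 : Upr false r0 l' ↔ -1 < tY l' := by
          unfold Upr Yr
          simp only [Bool.false_eq_true, if_false]
          constructor
          · rintro (h | h)
            · exact h.2
            · omega
          · exact fun h => Or.inl ⟨x2', h⟩
        unfold Dlr Yr at d2
        simp only [Bool.false_eq_true, if_false] at d2 ⊢
        rw [u2]
        by_cases h3 : -1 < tY l'
        · left
          refine ⟨h3, fun h4 => ?_⟩
          omega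
        · right
          refine ⟨⟨h2, p2, ?_⟩, h3⟩
          omega
      · -- upper bank: no label of the plates is flipped
        exfalso
        have u1 : Upr true r0 l ↔ 0 < tY l := by
          unfold Upr Yr
          simp only [if_true]
          constructor
          · rintro (h | h)
            · exact h.2
            · omega
          · exact fun h => Or.inl ⟨x1', h⟩
        simp only [if_true] at hl
        rw [u1] at hl
        rcases hl with ⟨h3, h4⟩ | ⟨⟨-, -, h3⟩, h4⟩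
        · exact h4 ⟨h1, p1, h3⟩
        · exact h4 h3
    · rw [Sum.inl.injEq] at heq
      subst heq
      exact hl
  · intro l hl l' hl'
    exact blocks_iff hh hM hτ (hD l hl) (hD l' hl')

end Pool.Agent.H57.W
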