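import Mathlib
import Pool.Agent.H57.W.NLaw

set_option autoImplicit false
open Finset

/-! # C6, J7 (`YNear`): the annulus and its numbers -/

namespace Pool.Agent.H57.W

open Pool.Agent.H75.Perc hiding WL CT hh PB
open Pool.Agent.H75.TwoArm Pool.Agent.H60.Q1
open Pool.Agent.H33.Q1 hiding cT
open Pool.Agent.H58.W Pool.Agent.H50.W Pool.Agent.H6.W Pool.Agent.H61.W
open Pool.Agent.H91.W

open Classical in
/-- natural labels (true frame) of sup norm between `ρ` and `R0`, not in the deleted rows -/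
noncomputable def Oa (b : JBox) (h : ℕ) (s : Bool) (r0 ρ R0 : ℤ) : Finset (ℤ × ℤ) :=
  (b.B h).filter fun e => (ρ ≤ |e.1| ∨ ρ ≤ |e.2|) ∧ (|e.1| ≤ R0 ∧ |e.2| ≤ R0) ∧ ¬ Dlr s r0 e

lemma mem_Oa {b : JBox} {h : ℕ} {s : Bool} {r0 ρ R0 : ℤ} {e : ℤ × ℤ} : e ∈ Oa b h s r0 ρ R0 ↔
    e ∈ b.B h ∧ (ρ ≤ |e.1| ∨ ρ ≤ |e.2|) ∧ (|e.1| ≤ R0 ∧ |e.2| ≤ R0) ∧ ¬ Dlr s r0 e := by
  unfold Oa
  classical
  simp only [mem_filter]

/-- the numbers: inner radius `ρ`, outer radius `R0` (label coordinates), moving end `v`, mark at `x1` -/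
structure NN (b : JBox) (h : ℕ) (x1 : ℤ) (v : ℤ × ℤ) (ρ R0 : ℤ) : Prop where
  hh : 0 < h
  hM : 0 < b.M
  hτ : 0 < b.τ
  hv : |v.1| + |v.2| + 4 ≤ ρ
  x10 : x1 ≤ 0
  x1ρ : -x1 + 4 ≤ ρ
  ρR : ρ + 4 < R0
  /-- the square is in the box -/
  box : ∀ e : ℤ × ℤ, (e.1 + e.2) % 2 = 1 → |e.1| ≤ R0 → |e.2| ≤ R0 → e ∈ b.B h
  /-- the chunk `P` is in the inner square -/
  chunk : ∀ e ∈ b.Pl h, |e.1| + 2 ≤ ρ ∧ |e.2| + 2 ≤ ρ
  /-- the plates of the annulus are to the left of the mark -/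
  plate : ∀ e ∈ b.B h, InC b (2 * h) (tt e).1 (tt e).2 → (ρ ≤ |e.1| ∨ ρ ≤ |e.2|) → (tt e).1 < x1
  /-- the ceiling and the floor are outside -/
  ceil : R0 + 2 ≤ b.H * (2 * (h : ℤ))

end Pool.Agent.H57.W
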