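import Mathlib
import Pool.Agent.H57.W.NDet
import Pool.Agent.H57.W.NNDef

set_option autoImplicit false
open Finset

/-! # C6, J7 (`YNear`): from the event `Cross` to the plain world -/

namespace Pool.Agent.H57.W

open Pool.Agent.H75.Perc hiding WL CT hh PB GG ph
open Pool.Agent.H75.TwoArm Pool.Agent.H60.Q1 Pool.Agent.H75.Four
open Pool.Agent.H33.Q1 hiding cT
open Pool.Agent.H58.W Pool.Agent.H50.W Pool.Agent.H6.W Pool.Agent.H61.W Pool.Agent.H13.W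
open Pool.Agent.H91.W

variable {b : JBox} {h : ℕ} {w s : Bool} {x1 : ℤ} {c3 c4 : Bool × ℕ} {v : ℤ × ℤ}
  {ω : Finset (ℤ × ℤ)} {ρ R0 : ℤ}

lemma near_lab {e c : ℤ × ℤ} (h : e = lab c ∨ e = plab c) :
    |c.1 - e.1| ≤ 1 ∧ |c.2 - e.2| ≤ 1 := by
  have := side_cases c h
  rw [abs_le, abs_le]
  rcases this with rfl | rfl | rfl | rfl <;> simp [eW, eE, eS, eN]

lemma NN.hP (N : NN b h x1 v ρ R0) : ∀ e ∈ b.Pl h, ∀ c, e = lab c ∨ e = plab c → c ∈ In ρ := by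
  intro e he c hc
  obtain ⟨h1, h2⟩ := near_lab hc
  obtain ⟨h3, h4⟩ := N.chunk e he
  show |c.1| ≤ ρ ∧ |c.2| ≤ ρ
  rw [abs_le] at h1 h2
  have a1 := abs_le.1 (show |e.1| ≤ ρ - 2 by linarith)
  have a2 := abs_le.1 (show |e.2| ≤ ρ - 2 by linarith)
  rw [abs_le, abs_le]
  omega

lemma NN.zc_mem (N : NN b h x1 v ρ R0) : zc v ∈ In ρ := by
  have h1 := N.hv
  show |(v.1 - v.2)| ≤ ρ ∧ |(v.1 + v.2 + 1)| ≤ ρ
  have a1 := neg_abs_le v.1
  have a2 := le_abs_self v.1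
  have a3 := neg_abs_le v.2
  have a4 := le_abs_self v.2
  rw [abs_le, abs_le]
  omega

lemma far_of_row {x y R : ℤ} (h : R ≤ y ∨ y + 1 ≤ -R) : Ou R (lt (x, y)) := by
  show R ≤ |x - y| ∨ R ≤ |x + y + 1|
  rw [le_abs, le_abs]
  omega

lemma Ou_near {e c : ℤ × ℤ} {R : ℤ} (h1 : |c.1 - e.1| ≤ 1) (h2 : |c.2 - e.2| ≤ 1)
    (h : Ou (R + 1) e) : Ou R c := by
  unfold Ou at *
  rw [abs_le] at h1 h2
  rw [le_abs, le_abs] at *
  omega

lemma NN.far (N : NN b h x1 v ρ R0) (q : Bool × ℕ) :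
    Ou R0 (f1 b (2 * h) q) ∧ Ou R0 (f2 b (2 * h) q) := by
  have hc := N.ceil
  have hn : (0 : ℤ) < 2 * (h : ℤ) := by have := N.hh; positivity
  have hq : (0 : ℤ) ≤ (q.2 : ℤ) * (2 * (h : ℤ)) := by positivity
  have key : Ou (R0 + 1) (lt (dgt b (2 * h) q)) := by
    unfold dgt cpt
    apply far_of_row
    cases q.1
    · right
      simp only [Bool.false_eq_true, if_false]
      have : ((b.H : ℤ) + q.2 + 1) * (2 * (h : ℤ)) =
        b.H * (2 * (h : ℤ)) + q.2 * (2 * (h : ℤ)) + 2 * (h : ℤ) := by ring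
      rw [this]
      omega
    · left
      simp only [if_true]
      have : ((b.H : ℤ) + q.2 + 1) * (2 * (h : ℤ)) =
        b.H * (2 * (h : ℤ)) + q.2 * (2 * (h : ℤ)) + 2 * (h : ℤ) := by ring
      rw [this]
      omega
  constructor
  · refine Ou_near ?_ ?_ key <;> simp [f1, eE]
  · unfold f2
    split_ifs
    · refine Ou_near ?_ ?_ key <;> simp [eS]
    · refine Ou_near ?_ ?_ key <;> simp [eN]

/-- **`Y` near `P`, in terms of strands.** -/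
theorem ynear_cross (N : NN b h x1 v ρ R0)
    (hE : ∀ ω ⊆ b.B h, ∀ o : Bool,
      RF b (2 * h) (GY b h w s x1 c3 c4 v o ω) (zc v) c3 ∨
      RF b (2 * h) (GY b h w s x1 c3 c4 v o ω) (zc v) c4 ∨
      (GY b h w s x1 c3 c4 v o ω).Reachable (zc v) (mc s x1)) :
    ‖Yf b h w s x1 c3 c4 v‖ ≤ 3 * b.PJ h (Cross b h w s x1 c3 c4 v ρ R0) :=
  ynear_det N.hP N.zc_mem (fun q _ => N.far q) hE

/-- the plain labels of the annulus -/
noncomputable def Op (b : JBox) (h : ℕ) (s : Bool) (r0 ρ R0 : ℤ) : Finset (ℤ × ℤ) :=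
  (Oa b h s r0 ρ R0).image (dn s r0)

lemma odd_Op (hh : 0 < h) {r0 : ℤ} : ∀ e ∈ Op b h s r0 ρ R0, (e.1 + e.2) % 2 = 1 := by
  intro e he
  unfold Op at he
  rw [mem_image] at he
  obtain ⟨e', h1, rfl⟩ := he
  exact dn_odd ((mem_B hh).1 (mem_Oa.1 h1).1).1

/-- all labels of a slightly smaller annulus are plain labels of the annulus -/
lemma mem_Op {r0 : ℤ}
    (box : ∀ e : ℤ × ℤ, (e.1 + e.2) % 2 = 1 → |e.1| ≤ R0 → |e.2| ≤ R0 → e ∈ b.B h)
    {e : ℤ × ℤ} (ho : (e.1 + e.2) % 2 = 1) (h1 : ρ + 1 ≤ |e.1| ∨ ρ + 1 ≤ |e.2|)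
    (h2 : |e.1| + 1 ≤ R0) (h3 : |e.2| + 1 ≤ R0) : e ∈ Op b h s r0 ρ R0 := by
  unfold Op
  rw [mem_image]
  -- the true label
  have b1 := abs_le.1 (show |e.1| ≤ R0 - 1 by linarith)
  have b2 := abs_le.1 (show |e.2| ≤ R0 - 1 by linarith)
  by_cases hc : (tX e < 0 ∧ Yr s ≤ tY e) ∨ (0 ≤ tX e ∧ r0 ≤ tY e)
  · have hX : tX ((e.1 - 1, e.2 + 1) : ℤ × ℤ) = tX e := by
      unfold tX; simp only; congr 1; ring
    have hY : tY ((e.1 - 1, e.2 + 1) : ℤ × ℤ) = tY e + 1 := by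
      unfold tY; simp only; omega
    have hU : Upr s r0 (e.1 - 1, e.2 + 1) := by
      unfold Upr
      rw [hX, hY]
      omega
    refine ⟨(e.1 - 1, e.2 + 1), mem_Oa.2 ⟨box _ (by simp only; omega) ?_ ?_, ?_, ⟨?_, ?_⟩, ?_⟩, ?_⟩
    · simp only; rw [abs_le]; omega
    · simp only; rw [abs_le]; omega
    · simp only; rw [le_abs, le_abs] at *; omega
    · simp only; rw [abs_le]; omega
    · simp only; rw [abs_le]; omega
    · unfold Dlr
      unfold Upr at hU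
      omega
    · unfold dn
      rw [if_pos hU]
      simp
  · have hU : ¬ Upr s r0 e := by
      unfold Upr
      omega
    refine ⟨e, mem_Oa.2 ⟨box _ ho (by linarith) (by linarith), ?_, ⟨by linarith, by linarith⟩, ?_⟩, ?_⟩
    · rcases h1 with h1 | h1
      · left; linarith
      · right; linarith
    · unfold Dlr
      omega
    · unfold dn
      rw [if_neg hU]

/-- **The law of an event of the plain annulus.** -/
theorem NN.law (N : NN b h x1 v ρ R0) (A : Finset (ℤ × ℤ) → Prop) :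
    b.PJ h (fun ω => A (wp b h s v.2 x1 (Oa b h s v.2 ρ R0) ω)) =
      PB (Op b h s v.2 ρ R0)
        (bt2 0 (b.M * (2 * (h : ℤ))) (b.τ * (2 * (h : ℤ)) - 1) (b.τ * (2 * (h : ℤ))) (2 * h)) A := by
  refine Pool.Agent.H57.W.law N.hh N.hM N.hτ (fun e he => (mem_Oa.1 he).1)
    (fun e he => (mem_Oa.1 he).2.2.2) ?_ A
  intro e he hC
  exact N.plate e (mem_Oa.1 he).1 hC (mem_Oa.1 he).2.1

/-- **`Y` near `P`, in the plain world**; `hC` = N1. -/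
theorem ynear_plain (N : NN b h x1 v ρ R0)
    (hE : ∀ ω ⊆ b.B h, ∀ o : Bool,
      RF b (2 * h) (GY b h w s x1 c3 c4 v o ω) (zc v) c3 ∨
      RF b (2 * h) (GY b h w s x1 c3 c4 v o ω) (zc v) c4 ∨
      (GY b h w s x1 c3 c4 v o ω).Reachable (zc v) (mc s x1))
    {A : Finset (ℤ × ℤ) → Prop}
    (hC : ∀ ω ⊆ b.B h, Cross b h w s x1 c3 c4 v ρ R0 ω →
      A (wp b h s v.2 x1 (Oa b h s v.2 ρ R0) ω)) :
    ‖Yf b h w s x1 c3 c4 v‖ ≤ 3 * PB (Op b h s v.2 ρ R0)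
      (bt2 0 (b.M * (2 * (h : ℤ))) (b.τ * (2 * (h : ℤ)) - 1) (b.τ * (2 * (h : ℤ))) (2 * h)) A := by
  rw [← N.law A]
  refine (ynear_cross N hE).trans ?_
  have := PB_mono (E := b.B h) (b := bk (2 * (h : ℤ)) (chn 0 b.M b.τ)) hC
  unfold JBox.PJ
  linarith

end Pool.Agent.H57.W
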