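import Mathlib
import Pool.Agent.H57.W.TayZ
import Pool.Agent.H69.W.TayK0

set_option autoImplicit false
open Finset Filter Topology

/-! # The Taylor coefficients of `fz`, rows without a random tile in the ceiling

`emf_z` : the outside facts for both colours of the wall tile. `tayP_zero`, `tayZ` : the Taylor coefficients. -/

namespace Pool.Agent.H57.W

open Pool.Agent.H75.Perc hiding AR VV
open Pool.Agent.H75.TwoArm hiding EF
open Pool.Agent.Q1 Pool.Agent.H33.Q1
open Pool.Agent.Q1.M4 (lat)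
open Pool.Agent.H54.W (CD HWin Win HOut HPos)
open Pool.Agent.H20.W (OmC Th crz Dz)
open Pool.Agent.H32.W.Bd (Zv)
open Pool.Agent.H32.W.Win (f2 orh)
open Pool.Agent.H76.W
open Pool.Agent.H30.W (Slit SlitEnv ELz EUz RZ slitEnv_XTH)
open Pool.Agent.H64.W (OutC NumS size_K)
open Pool.Agent.H81.W (OutZ DH DB emH outZ_SX tgtH labH emH_ETH emH_path)
open Pool.Agent.H85.W (BP rtW ctW Wo ow)
open Pool.Agent.H93.W (rcol)
open Pool.Agent.H69.W (Emf tayK0_f2)

variable {C : CD} {c0 : Bool} {n r L : ℤ}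

/-- the environments of the two colours differ only in the label of the wall tile -/
lemma mem_WTH_rcol {D : Win} (O : HOut D.toH) {r : ℤ} (h0 : 0 ≤ r) (h1 : r < D.h) (b : Bool) {τ : ℤ → ℤ}
    (H : HPos D.toH τ) {P : Finset Pool.Agent.H42.Sp.Ix} (hP : ∀ k ∈ P, CPH D.toH τ k) {e : ℤ × ℤ}
    (he : e ≠ lt (-r - 1, D.toH.w)) :
    e ∈ WTH (rcol D r b).toH τ P O.Wo ↔ e ∈ WTH D.toH τ P O.Wo := by
  rw [rcol_setC D r b, mem_WTH_setC O H hP (by change -D.h ≤ -r - 1; omega) (by change -r - 1 < 0; omega)]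
  constructor
  · rintro (h | h)
    · exact absurd h.1 he
    · exact h.2
  · exact fun h => Or.inr ⟨he, h⟩

/-- a cap position of the window with the other colour of the wall tile -/
lemma cph_rcol {D : Win} {r : ℤ} {b : Bool} {τ : ℤ → ℤ} {k : Pool.Agent.H42.Sp.Ix}
    (h : CPH (rcol D r b).toH τ k) : CPH D.toH τ k := by
  rw [rcol_setC] at h
  exact CPH_setC.1 h

/-- **The outside facts**, both colours of the wall tile. -/
theorem emf_B (θ : Th C c0) (B : BP C c0)
    (hin : ∀ x y, (DB B (crz c0 B.r)).InZ x y → (ow θ B).Box x y) (b : Bool)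
    (hp : (B.X2 - (B.n * C.W + (0 : ℕ))) % 2 = 0) (O : HOut (DB B (crz c0 B.r)).toH)
    (hWo : O.Wo = (Wo θ B (DB B (crz c0 B.r)) (DB B (crz c0 B.r)).fill).map rotL)
    (hc : O.c0 = rotc (rtW B)) (S : Slit (rcol (DB B (crz c0 B.r)) B.r b).toH) (hS : S.e = 0)
    (hxs : S.xs = -B.r - 1) (N : NumS S L) :
    Emf (orh O B.r b) S (rotc (ctW θ B)) := by
  have r0 := B.r0
  have r1 := B.r1
  have hP := cphs_mem (D := (rcol (DB B (crz c0 B.r)) B.r b).toH) S.pos
  have hpos : HPos (DB B (crz c0 B.r)).toH S.τ := ⟨S.pos.lo, S.pos.hi, S.pos.dn, S.pos.up⟩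
  have hP' : ∀ k ∈ CPHs (rcol (DB B (crz c0 B.r)) B.r b).toH S.τ, CPH (DB B (crz c0 B.r)).toH S.τ k :=
    fun k hk => cph_rcol (hP k hk)
  have hE : ExitC θ B (DB B fun y => if y = B.r then b else crz c0 B.r y) (DB B (crz c0 B.r)).fill
      ((DB B fun y => if y = B.r then b else crz c0 B.r y).w + (0 : ℕ)) :=
    exitC_fill (fun y hy => if_neg hy) (crz c0 B.r) (fun _ _ => rfl) hin (Nat.zero_le 1) hp
  have k1 := Pool.Agent.H24.W.emH_R (cr := fun y => if y = B.r then b else crz c0 B.r y) θ B N S.τ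
  have k2 := Pool.Agent.H24.W.emH_B (cr := fun y => if y = B.r then b else crz c0 B.r y) θ B N S.τ ∅
  have k3 := emH_ETH (cr := fun y => if y = B.r then b else crz c0 B.r y) θ B S.pos hP
  refine ⟨lt (emH θ B S.τ), slitEnv_XTH S hS (orh O B.r b) _ hP k3 k1 k2, ?_, ?_, ?_⟩
  · exact rootS_XTH (θ := θ) (B := B) (f := (DB B (crz c0 B.r)).fill) S hS (by
      have h := hE
      simp only [Nat.cast_zero, add_zero] at h
      exact h) hxs (orh O B.r b) hWo hc hP
  · exact tgtH (cr := fun y => if y = B.r then b else crz c0 B.r y) θ B hin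
  · refine emH_path (cr := crz c0 B.r) θ B hpos hin (fun h => ?_) hP' O hWo
      (X := XTH (orh O B.r b) S.pos _ hP)
      (W := WTH (rcol (DB B (crz c0 B.r)) B.r b).toH S.τ
        (CPHs (rcol (DB B (crz c0 B.r)) B.r b).toH S.τ) O.Wo) rfl (fun e he => Or.inl he) (fun e he => ?_)
    · unfold crz
      rw [if_pos r0]
      exact h
    · exact mem_WTH_rcol O r0.le (by change B.r < B.n * C.H; omega) b hpos hP' he

/-- **The Taylor coefficients**, rows without a random tile in the ceiling. -/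
theorem tayP_zero (θ : Th C c0) : TayP θ (if c0 then 1 else 0) := by
  intro K hK hKc η hη k ε hε
  obtain ⟨n0, H⟩ := tayK0_f2 C hK hKc hη k hε
  refine ⟨n0, fun m hm he h8 v hv hvZ hpar hr => ?_⟩
  have hcast : (((2 * (m : ℤ) : ℤ)) : ℝ) = ((2 * m : ℕ) : ℝ) := by push_cast; ring
  have h3 := (BPz C c0 he h8 hr).par
  have h4 : (BPz C c0 he h8 hr).r = v.2 := rfl
  have h5 : (BPz C c0 he h8 hr).n = 2 * (m : ℤ) := rfl
  rw [h4] at h3
  have key := H (2 * (m : ℤ)) (by omega) he h8 (crz c0 v.2) v (by rw [hcast]; exact hv) hvZ (!c0) c0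
    (fun y hy => by unfold crz; rw [if_neg (by omega)]) (fun y hy => by unfold crz; rw [if_pos hy])
    (by
      cases c0
      · simp only [Bool.false_eq_true, if_false] at hpar
        simp only [Bool.not_false, iff_true, Bool.false_eq_true, iff_false]
        omega
      · simp only [if_true] at hpar
        simp only [Bool.not_true, iff_true, Bool.false_eq_true, iff_false]
        omega)
    (OzH he h8 hr θ) (ctz he h8 hr θ) (labH θ (BPz C c0 he h8 hr) (hin_z he h8 hr θ))
    (fun b S L s1 _ s3 _ _ s6 => emf_B θ (BPz C c0 he h8 hr) (hin_z he h8 hr θ) b (by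
      rw [h5]
      push_cast
      cases c0
      · simp only [Bool.false_eq_true, if_false] at h3 hpar
        omega
      · simp only [if_true] at h3 hpar
        omega) (OzH he h8 hr θ) rfl rfl S s3 s1 s6)
  rw [hcast] at key
  exact key

/-- **The Taylor coefficients of `fz`.** -/
theorem tayZ (θ : Th C c0) : TayZ θ := tayZ_zero θ (tayP_zero θ)

end Pool.Agent.H57.W
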